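import Pool.Agent.W_MP_628faf_lc.Defs

/-!
# Covering all flags by images of one configuration
-/

namespace GW628

variable {F : Type*} [Field F] [DecidableEq F]

/-- The image of a line under the affine map `g = (u, v, w)`. -/
def actL (g : F × F × F) (l : F × F) : F × F := (l.1 + g.2.2, l.2 + g.2.1 - (l.1 + g.2.2) * g.1)

/-- The image of a point under the affine map `g = (u, v, w)`. -/
def actP (g : F × F × F) (p : F × F) : F × F := (p.1 + g.1, p.2 + g.2.2 * p.1 + g.2.1)

theorem actL_inj (g : F × F × F) : Function.Injective (actL g) := by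
  rintro ⟨s, r⟩ ⟨s', r'⟩ h
  simp only [actL, Prod.mk.injEq, add_left_inj] at h
  obtain ⟨h1, h2⟩ := h
  subst h1
  simp only [sub_left_inj, add_left_inj] at h2
  rw [h2]

theorem actP_inj (g : F × F × F) : Function.Injective (actP g) := by
  rintro ⟨x, y⟩ ⟨x', y'⟩ h
  simp only [actP, Prod.mk.injEq, add_left_inj] at h
  obtain ⟨h1, h2⟩ := h
  subst h1
  simp only [add_left_inj] at h2
  rw [h2]

/-- The set of incidences, as a set of flags `(s, r, x)`. -/
def flags (A B : Finset (F × F)) [Fintype F] : Finset (F × F × F) :=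
  Finset.univ.filter fun f => (f.1, f.2.1) ∈ A ∧ (f.2.2, f.1 * f.2.2 + f.2.1) ∈ B

theorem card_flags [Fintype F] (A B : Finset (F × F)) : (flags A B).card = inc A B := by
  unfold inc flags
  refine Finset.card_bij (fun f _ => ((f.1, f.2.1), (f.2.2, f.1 * f.2.2 + f.2.1))) ?_ ?_ ?_
  · intro f hf
    simp only [Finset.mem_filter, Finset.mem_univ, true_and] at hf
    simp [Finset.mem_filter, hf.1, hf.2]
  · rintro ⟨s, r, x⟩ _ ⟨s', r', x'⟩ _ h
    simp only [Prod.mk.injEq] at h
    simp [h.1.1, h.1.2, h.2.1]
  · rintro ⟨⟨s, r⟩, ⟨x, y⟩⟩ h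
    simp only [Finset.mem_filter, Finset.mem_product] at h
    refine ⟨(s, r, x), ?_, ?_⟩
    · simp only [Finset.mem_filter, Finset.mem_univ, true_and]
      refine ⟨h.1.1, ?_⟩
      rw [← h.2]
      exact h.1.2
    · simp [← h.2]

/-- For a flag `f` and a flag `f₀` there is exactly one `g` moving `f₀` to `f`. -/
def mover (f₀ f : F × F × F) : F × F × F :=
  (f.2.2 - f₀.2.2, f.2.1 - f₀.2.1 + f.1 * (f.2.2 - f₀.2.2), f.1 - f₀.1)

theorem mover_L (f₀ f : F × F × F) : actL (mover f₀ f) (f₀.1, f₀.2.1) = (f.1, f.2.1) := by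
  simp only [actL, mover, Prod.mk.injEq]
  constructor <;> ring

theorem mover_P (f₀ f : F × F × F) :
    actP (mover f₀ f) (f₀.2.2, f₀.1 * f₀.2.2 + f₀.2.1) = (f.2.2, f.1 * f.2.2 + f.2.1) := by
  simp only [actP, mover, Prod.mk.injEq]
  constructor <;> ring

theorem mover_inj (f : F × F × F) : Function.Injective fun f₀ => mover f₀ f := by
  rintro ⟨s, r, x⟩ ⟨s', r', x'⟩ h
  simp only [mover, Prod.mk.injEq, sub_right_inj] at h
  obtain ⟨h1, h2, h3⟩ := h
  subst h1
  subst h3
  simp only [add_left_inj, sub_right_inj] at h2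
  rw [h2]

/-- Flags of the image configuration. -/
theorem mem_flags_image [Fintype F] (A B : Finset (F × F)) (f₀ f : F × F × F)
    (h : f₀ ∈ flags A B) :
    f ∈ flags (A.image (actL (mover f₀ f))) (B.image (actP (mover f₀ f))) := by
  simp only [flags, Finset.mem_filter, Finset.mem_univ, true_and] at h ⊢
  exact ⟨Finset.mem_image.2 ⟨_, h.1, mover_L f₀ f⟩, Finset.mem_image.2 ⟨_, h.2, mover_P f₀ f⟩⟩

/-- Averaging: some image of the configuration covers a proportion `inc A B / q^3` of any set
of flags. -/
theorem exists_good_image [Fintype F] (A B : Finset (F × F)) (W : Finset (F × F × F)) :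
    ∃ g : F × F × F, (W.card : ℝ) * inc A B ≤ (Fintype.card F : ℝ) ^ 3 *
      (W.filter fun f => f ∈ flags (A.image (actL g)) (B.image (actP g))).card := by
  by_contra hcon
  push Not at hcon
  have h1 : ∑ g : F × F × F, ((Fintype.card F : ℝ) ^ 3 *
      (W.filter fun f => f ∈ flags (A.image (actL g)) (B.image (actP g))).card) <
      ∑ _g : F × F × F, (W.card : ℝ) * inc A B :=
    Finset.sum_lt_sum_of_nonempty Finset.univ_nonempty (fun g _ => hcon g)
  rw [Finset.sum_const, Finset.card_univ, Fintype.card_prod, Fintype.card_prod, nsmul_eq_mul,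
    ← Finset.mul_sum] at h1
  have h2 : (W.card : ℝ) * inc A B ≤ ∑ g : F × F × F,
      ((W.filter fun f => f ∈ flags (A.image (actL g)) (B.image (actP g))).card : ℝ) := by
    have h3 : W.card * inc A B ≤ ∑ g : F × F × F,
        (W.filter fun f => f ∈ flags (A.image (actL g)) (B.image (actP g))).card := by
      have h4 : ∑ g : F × F × F,
          (W.filter fun f => f ∈ flags (A.image (actL g)) (B.image (actP g))).card =
          ∑ f ∈ W, (Finset.univ.filter fun g : F × F × F =>
            f ∈ flags (A.image (actL g)) (B.image (actP g))).card := by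
        simp only [Finset.card_filter]
        exact Finset.sum_comm
      rw [h4]
      have h5 : ∀ f ∈ W, inc A B ≤ (Finset.univ.filter fun g : F × F × F =>
          f ∈ flags (A.image (actL g)) (B.image (actP g))).card := by
        intro f _
        rw [← card_flags A B]
        refine Finset.card_le_card_of_injOn (fun f₀ => mover f₀ f) ?_ ?_
        · intro f₀ hf₀
          simp only [Finset.coe_filter, Set.mem_setOf_eq, Finset.mem_univ, true_and]
          exact mem_flags_image A B f₀ f hf₀
        · exact (mover_inj f).injOn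
      calc W.card * inc A B = ∑ _f ∈ W, inc A B := by rw [Finset.sum_const, smul_eq_mul]
        _ ≤ _ := Finset.sum_le_sum h5
    exact_mod_cast h3
  have hq : (0 : ℝ) ≤ (Fintype.card F : ℝ) ^ 3 := by positivity
  have h6 := mul_le_mul_of_nonneg_left h2 hq
  have h7 : ((Fintype.card F * (Fintype.card F * Fintype.card F) : ℕ) : ℝ) =
      (Fintype.card F : ℝ) ^ 3 := by push_cast; ring
  rw [h7] at h1
  linarith

/-- Greedy covering. -/
theorem exists_cover_aux [Fintype F] (A B : Finset (F × F)) (T : ℕ) :
    ∃ l : List (Finset (F × F) × Finset (F × F)), l.length = T ∧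
      (∀ t ∈ l, t.1.card = A.card ∧ t.2.card = B.card) ∧
      ((Finset.univ.filter fun f : F × F × F => ∀ t ∈ l, f ∉ flags t.1 t.2).card : ℝ) ≤
        (Fintype.card F : ℝ) ^ 3 * (1 - inc A B / (Fintype.card F : ℝ) ^ 3) ^ T := by
  have hq : (0 : ℝ) < (Fintype.card F : ℝ) ^ 3 := by
    have : 0 < Fintype.card F := Fintype.card_pos
    positivity
  induction T with
  | zero =>
    refine ⟨[], rfl, by simp, ?_⟩
    simp only [List.not_mem_nil, false_implies, implies_true, Finset.filter_true, pow_zero,
      mul_one]
    rw [Finset.card_univ, Fintype.card_prod, Fintype.card_prod]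
    push_cast
    exact le_of_eq (by ring)
  | succ T ih =>
    obtain ⟨l, hl, hc, hu⟩ := ih
    set W := Finset.univ.filter fun f : F × F × F => ∀ t ∈ l, f ∉ flags t.1 t.2 with hW
    obtain ⟨g, hg⟩ := exists_good_image A B W
    refine ⟨(A.image (actL g), B.image (actP g)) :: l, by simp [hl], ?_, ?_⟩
    · intro t ht
      rcases List.mem_cons.1 ht with rfl | ht
      · exact ⟨Finset.card_image_of_injective _ (actL_inj g),
          Finset.card_image_of_injective _ (actP_inj g)⟩
      · exact hc t ht
    · have h1 : (Finset.univ.filter fun f : F × F × F =>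
          ∀ t ∈ (A.image (actL g), B.image (actP g)) :: l, f ∉ flags t.1 t.2) =
          W.filter fun f => ¬ f ∈ flags (A.image (actL g)) (B.image (actP g)) := by
        ext f
        simp only [Finset.mem_filter, Finset.mem_univ, true_and, List.mem_cons, forall_eq_or_imp,
          hW]
        tauto
      rw [h1]
      have h2 := Finset.card_filter_add_card_filter_not (s := W)
        (p := fun f => f ∈ flags (A.image (actL g)) (B.image (actP g)))
      have h3 : ((W.filter fun f => f ∈ flags (A.image (actL g)) (B.image (actP g))).card : ℝ) +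
          (W.filter fun f => ¬ f ∈ flags (A.image (actL g)) (B.image (actP g))).card =
          W.card := by exact_mod_cast h2
      have h4 : (W.card : ℝ) * (inc A B / (Fintype.card F : ℝ) ^ 3) ≤
          (W.filter fun f => f ∈ flags (A.image (actL g)) (B.image (actP g))).card := by
        rw [mul_div_assoc', div_le_iff₀ hq]
        linarith
      have hle1 : 0 ≤ 1 - (inc A B : ℝ) / (Fintype.card F : ℝ) ^ 3 := by
        rw [sub_nonneg, div_le_one hq, ← card_flags]
        have : (flags A B).card ≤ (Finset.univ : Finset (F × F × F)).card :=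
          Finset.card_le_univ _
        rw [Finset.card_univ, Fintype.card_prod, Fintype.card_prod] at this
        have h5 : ((flags A B).card : ℝ) ≤
            ((Fintype.card F * (Fintype.card F * Fintype.card F) : ℕ) : ℝ) := by
          exact_mod_cast this
        push_cast at h5
        linarith
      have h6 : ((W.filter fun f =>
          ¬ f ∈ flags (A.image (actL g)) (B.image (actP g))).card : ℝ) ≤
          W.card * (1 - inc A B / (Fintype.card F : ℝ) ^ 3) := by
        rw [mul_sub, mul_one]
        linarith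
      refine h6.trans ?_
      rw [pow_succ (1 - (inc A B : ℝ) / (Fintype.card F : ℝ) ^ 3) T, ← mul_assoc]
      exact mul_le_mul_of_nonneg_right hu hle1

/-- All flags are covered by about `q^3 / inc A B` images of the configuration `(A, B)`. -/
theorem exists_cover [Finite F] (A B : Finset (F × F)) (hI : 0 < inc A B) :
    ∃ l : List (Finset (F × F) × Finset (F × F)),
      (l.length : ℝ) ≤ (Nat.card F : ℝ) ^ 3 / inc A B * (3 * Real.log (Nat.card F)) + 2 ∧
      (∀ t ∈ l, t.1.card = A.card ∧ t.2.card = B.card) ∧
      ∀ s r x : F, ∃ t ∈ l, (s, r) ∈ t.1 ∧ (x, s * x + r) ∈ t.2 := by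
  let _ : Fintype F := Fintype.ofFinite F
  rw [Nat.card_eq_fintype_card]
  have hcard : (1 : ℝ) ≤ Fintype.card F := by
    exact_mod_cast (Fintype.card_pos : 0 < Fintype.card F)
  have hq : (0 : ℝ) < (Fintype.card F : ℝ) ^ 3 := by positivity
  have hIR : (0 : ℝ) < inc A B := by exact_mod_cast hI
  have hlog : 0 ≤ Real.log (Fintype.card F) := Real.log_nonneg hcard
  set X := (Fintype.card F : ℝ) ^ 3 / inc A B * (3 * Real.log (Fintype.card F)) with hX
  have hX0 : 0 ≤ X := by positivity
  obtain ⟨l, hl, hc, hu⟩ := exists_cover_aux A B (⌊X⌋₊ + 1)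
  refine ⟨l, ?_, hc, ?_⟩
  · rw [hl]
    push_cast
    linarith [Nat.floor_le hX0]
  · have hlt : ((Finset.univ.filter fun f : F × F × F => ∀ t ∈ l, f ∉ flags t.1 t.2).card : ℝ)
        < 1 := by
      refine lt_of_le_of_lt hu ?_
      set y := (inc A B : ℝ) / (Fintype.card F : ℝ) ^ 3 with hy
      have hy0 : 0 < y := by positivity
      have hy1 : y ≤ 1 := by
        rw [hy, div_le_one hq, ← card_flags]
        have : (flags A B).card ≤ (Finset.univ : Finset (F × F × F)).card :=
          Finset.card_le_univ _
        rw [Finset.card_univ, Fintype.card_prod, Fintype.card_prod] at this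
        have h5 : ((flags A B).card : ℝ) ≤
            ((Fintype.card F * (Fintype.card F * Fintype.card F) : ℕ) : ℝ) := by
          exact_mod_cast this
        push_cast at h5
        linarith
      have h1 : (1 - y) ^ (⌊X⌋₊ + 1) ≤ Real.exp (-y * (⌊X⌋₊ + 1 : ℕ)) := by
        have : 1 - y ≤ Real.exp (-y) := by
          have := Real.add_one_le_exp (-y)
          linarith
        calc (1 - y) ^ (⌊X⌋₊ + 1) ≤ Real.exp (-y) ^ (⌊X⌋₊ + 1) :=
              pow_le_pow_left₀ (by linarith) this _
          _ = Real.exp (-y * (⌊X⌋₊ + 1 : ℕ)) := by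
              rw [← Real.exp_nat_mul]; congr 1; ring
      have h2 : Real.exp (-y * (⌊X⌋₊ + 1 : ℕ)) < Real.exp (-(3 * Real.log (Fintype.card F))) := by
        apply Real.exp_lt_exp.2
        have h3 : X < (⌊X⌋₊ + 1 : ℕ) := by
          push_cast
          exact Nat.lt_floor_add_one X
        have h4 : y * X = 3 * Real.log (Fintype.card F) := by
          rw [hX, hy]
          field_simp
        have h5 := mul_lt_mul_of_pos_left h3 hy0
        linarith
      have h3 : Real.exp (-(3 * Real.log (Fintype.card F))) = ((Fintype.card F : ℝ) ^ 3)⁻¹ := by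
        rw [Real.exp_neg]
        congr 1
        rw [show (3 : ℝ) = ((3 : ℕ) : ℝ) by norm_num, Real.exp_nat_mul,
          Real.exp_log (by linarith)]
      rw [h3] at h2
      calc (Fintype.card F : ℝ) ^ 3 * (1 - y) ^ (⌊X⌋₊ + 1)
          < (Fintype.card F : ℝ) ^ 3 * ((Fintype.card F : ℝ) ^ 3)⁻¹ :=
            mul_lt_mul_of_pos_left (lt_of_le_of_lt h1 h2) hq
        _ = 1 := mul_inv_cancel₀ hq.ne'
    have hempty : (Finset.univ.filter fun f : F × F × F =>
        ∀ t ∈ l, f ∉ flags t.1 t.2).card = 0 := by
      have : (Finset.univ.filter fun f : F × F × F => ∀ t ∈ l, f ∉ flags t.1 t.2).card < 1 := by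
        exact_mod_cast hlt
      omega
    intro s r x
    by_contra hcon
    push Not at hcon
    have : (s, r, x) ∈ (Finset.univ.filter fun f : F × F × F =>
        ∀ t ∈ l, f ∉ flags t.1 t.2) := by
      simp only [Finset.mem_filter, Finset.mem_univ, true_and]
      intro t ht hf
      simp only [flags, Finset.mem_filter, Finset.mem_univ, true_and] at hf
      exact hcon t ht hf.1 hf.2
    rw [Finset.card_eq_zero] at hempty
    rw [hempty] at this
    simp at this

end GW628
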