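import Pool.Agent.W_MP_628faf_lc.Defs

namespace GW628

open Finset in
/-- Double counting plus Cauchy–Schwarz for an abstract relation. -/
theorem sum_sq_le_gen {α β : Type*} [DecidableEq α] (A : Finset α) (B : Finset β)
    (R : α → β → Prop) [∀ a b, Decidable (R a b)]
    (hR : ∀ a ∈ A, ∀ a' ∈ A, a ≠ a' → (B.filter fun b => R a b ∧ R a' b).card ≤ 1) :
    ∑ b ∈ B, ((A.filter fun a => R a b).card : ℝ) ^ 2 ≤
      ∑ b ∈ B, ((A.filter fun a => R a b).card : ℝ) + (A.card : ℝ) ^ 2 := by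
  have h1 : ∀ b ∈ B, ((A.filter fun a => R a b).card) ^ 2 =
      ∑ x ∈ A ×ˢ A, if R x.1 b ∧ R x.2 b then 1 else 0 := by
    intro b _
    rw [← Finset.card_filter, Finset.filter_product (fun a => R a b) (fun a => R a b),
      Finset.card_product, sq]
  have h2 : ∑ b ∈ B, ((A.filter fun a => R a b).card) ^ 2 =
      ∑ x ∈ A ×ˢ A, (B.filter fun b => R x.1 b ∧ R x.2 b).card := by
    rw [Finset.sum_congr rfl h1, Finset.sum_comm]
    refine Finset.sum_congr rfl fun x _ => ?_
    rw [Finset.card_filter]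
  have h3 : ∑ x ∈ A ×ˢ A, (B.filter fun b => R x.1 b ∧ R x.2 b).card ≤
      ∑ x ∈ A ×ˢ A, ((if x.1 = x.2 then (B.filter fun b => R x.1 b).card else 0) + 1) := by
    refine Finset.sum_le_sum fun x hx => ?_
    rw [Finset.mem_product] at hx
    by_cases h : x.1 = x.2
    · rw [if_pos h, ← h]
      simp
    · rw [if_neg h, zero_add]
      exact hR _ hx.1 _ hx.2 h
  have h4 : ∑ x ∈ A ×ˢ A, ((if x.1 = x.2 then (B.filter fun b => R x.1 b).card else 0) + 1) =
      ∑ b ∈ B, (A.filter fun a => R a b).card + A.card ^ 2 := by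
    rw [Finset.sum_add_distrib, Finset.sum_const, Finset.card_product, smul_eq_mul, mul_one, sq,
      Finset.sum_product]
    congr 1
    have : ∀ a ∈ A, ∑ y ∈ A, (if a = y then (B.filter fun b => R a b).card else 0) =
        (B.filter fun b => R a b).card := by
      intro a ha
      rw [Finset.sum_ite_eq]
      simp [ha]
    rw [Finset.sum_congr rfl this]
    simp_rw [Finset.card_filter]
    rw [Finset.sum_comm]
  have h5 := h2.le.trans (h3.trans h4.le)
  have h6 : ((∑ b ∈ B, ((A.filter fun a => R a b).card) ^ 2 : ℕ) : ℝ) ≤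
      ((∑ b ∈ B, (A.filter fun a => R a b).card + A.card ^ 2 : ℕ) : ℝ) := Nat.cast_le.2 h5
  push_cast at h6
  exact h6

theorem sq_sum_le_gen {α β : Type*} [DecidableEq α] (A : Finset α) (B : Finset β)
    (R : α → β → Prop) [∀ a b, Decidable (R a b)]
    (hR : ∀ a ∈ A, ∀ a' ∈ A, a ≠ a' → (B.filter fun b => R a b ∧ R a' b).card ≤ 1) :
    (∑ b ∈ B, ((A.filter fun a => R a b).card : ℝ)) ^ 2 ≤
      B.card * (∑ b ∈ B, ((A.filter fun a => R a b).card : ℝ) + (A.card : ℝ) ^ 2) := by
  refine (sq_sum_le_card_mul_sum_sq (s := B)).trans ?_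
  exact mul_le_mul_of_nonneg_left (sum_sq_le_gen A B R hR) (Nat.cast_nonneg _)

variable {F : Type*} [Field F] [DecidableEq F] (A B : Finset (F × F))

theorem inc_eq_right : inc A B =
    ∑ p ∈ B, (A.filter fun l => p.2 = l.1 * p.1 + l.2).card := by
  unfold inc
  simp_rw [Finset.card_filter]
  rw [Finset.sum_product_right]

theorem inc_eq_left : inc A B =
    ∑ l ∈ A, (B.filter fun p => p.2 = l.1 * p.1 + l.2).card := by
  unfold inc
  simp_rw [Finset.card_filter]
  rw [Finset.sum_product]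

theorem two_lines (B : Finset (F × F)) (l l' : F × F) (h : l ≠ l') :
    (B.filter fun p => p.2 = l.1 * p.1 + l.2 ∧ p.2 = l'.1 * p.1 + l'.2).card ≤ 1 := by
  rw [Finset.card_le_one]
  intro p hp p' hp'
  simp only [Finset.mem_filter] at hp hp'
  obtain ⟨_, h1, h2⟩ := hp
  obtain ⟨_, h3, h4⟩ := hp'
  have hs : l.1 - l'.1 ≠ 0 := by
    intro h0
    have h5 : l.1 = l'.1 := sub_eq_zero.1 h0
    apply h
    refine Prod.ext h5 ?_
    rw [h5] at h1
    exact add_left_cancel (h1.symm.trans h2)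
  have hx : p.1 = p'.1 := by
    have h6 : (l.1 - l'.1) * (p.1 - p'.1) = 0 := by
      linear_combination h2 - h1 + h3 - h4
    rcases mul_eq_zero.1 h6 with h7 | h7
    · exact absurd h7 hs
    · exact sub_eq_zero.1 h7
  refine Prod.ext hx ?_
  rw [h1, h3, hx]

theorem two_points (A : Finset (F × F)) (p p' : F × F) (h : p ≠ p') :
    (A.filter fun l => p.2 = l.1 * p.1 + l.2 ∧ p'.2 = l.1 * p'.1 + l.2).card ≤ 1 := by
  rw [Finset.card_le_one]
  intro l hl l' hl'
  simp only [Finset.mem_filter] at hl hl'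
  obtain ⟨_, h1, h2⟩ := hl
  obtain ⟨_, h3, h4⟩ := hl'
  have hs : p.1 - p'.1 ≠ 0 := by
    intro h0
    have h5 : p.1 = p'.1 := sub_eq_zero.1 h0
    apply h
    refine Prod.ext h5 ?_
    rw [h1, h2, h5]
  have hx : l.1 = l'.1 := by
    have h6 : (l.1 - l'.1) * (p.1 - p'.1) = 0 := by
      linear_combination h2 - h1 + h3 - h4
    rcases mul_eq_zero.1 h6 with h7 | h7
    · exact sub_eq_zero.1 h7
    · exact absurd h7 hs
  refine Prod.ext hx ?_
  rw [h1, hx] at h3
  exact add_left_cancel h3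

theorem inc_le_mul : inc A B ≤ A.card * B.card := by
  unfold inc
  refine (Finset.card_filter_le _ _).trans ?_
  rw [Finset.card_product]

/-- Cauchy–Schwarz over the points. -/
theorem inc_sq_le : (inc A B : ℝ) ^ 2 ≤ B.card * (inc A B + (A.card : ℝ) ^ 2) := by
  rw [inc_eq_right]
  push_cast
  exact sq_sum_le_gen A B (fun l p => p.2 = l.1 * p.1 + l.2)
    fun l _ l' _ h => two_lines B l l' h

/-- Cauchy–Schwarz over the lines. -/
theorem inc_sq_le' : (inc A B : ℝ) ^ 2 ≤ A.card * (inc A B + (B.card : ℝ) ^ 2) := by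
  rw [inc_eq_left]
  push_cast
  exact sq_sum_le_gen B A (fun p l => p.2 = l.1 * p.1 + l.2)
    fun p _ p' _ h => two_points A p p' h

variable [Finite F]

omit [Finite F] in
theorem card_line [Fintype F] (l : F × F) :
    (Finset.univ.filter fun p : F × F => p.2 = l.1 * p.1 + l.2).card = Fintype.card F := by
  rw [← Finset.card_univ]
  symm
  refine Finset.card_bij (fun x _ => (x, l.1 * x + l.2)) ?_ ?_ ?_
  · intro x _
    simp
  · intro x _ y _ h
    exact (Prod.ext_iff.1 h).1
  · intro p hp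
    simp only [Finset.mem_filter, Finset.mem_univ, true_and] at hp
    exact ⟨p.1, Finset.mem_univ _, Prod.ext rfl hp.symm⟩

omit [Finite F] in
theorem card_pencil [Fintype F] (p : F × F) :
    (Finset.univ.filter fun l : F × F => p.2 = l.1 * p.1 + l.2).card = Fintype.card F := by
  rw [← Finset.card_univ]
  symm
  refine Finset.card_bij (fun s _ => (s, p.2 - s * p.1)) ?_ ?_ ?_
  · intro x _
    simp
  · intro x _ y _ h
    exact (Prod.ext_iff.1 h).1
  · intro l hl
    simp only [Finset.mem_filter, Finset.mem_univ, true_and] at hl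
    refine ⟨l.1, Finset.mem_univ _, Prod.ext rfl ?_⟩
    rw [hl]
    simp

theorem inc_le_left : inc A B ≤ A.card * Nat.card F := by
  have := Fintype.ofFinite F
  rw [Nat.card_eq_fintype_card, inc_eq_left, ← smul_eq_mul, ← Finset.sum_const]
  refine Finset.sum_le_sum fun l _ => ?_
  rw [← card_line l]
  exact Finset.card_le_card (Finset.filter_subset_filter _ (Finset.subset_univ B))

theorem inc_le_right : inc A B ≤ B.card * Nat.card F := by
  have := Fintype.ofFinite F
  rw [Nat.card_eq_fintype_card, inc_eq_right, ← smul_eq_mul, ← Finset.sum_const]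
  refine Finset.sum_le_sum fun p _ => ?_
  rw [← card_pencil p]
  exact Finset.card_le_card (Finset.filter_subset_filter _ (Finset.subset_univ A))

theorem inc_le_cube : inc A B ≤ Nat.card F ^ 3 := by
  have h1 := inc_le_left A B
  have := Fintype.ofFinite F
  have h2 : A.card ≤ Nat.card F ^ 2 := by
    rw [Nat.card_eq_fintype_card]
    refine (Finset.card_le_univ A).trans ?_
    rw [Fintype.card_prod, sq]
  calc inc A B ≤ A.card * Nat.card F := h1
    _ ≤ Nat.card F ^ 2 * Nat.card F := Nat.mul_le_mul_right _ h2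
    _ = Nat.card F ^ 3 := by ring

/-- Vinh's incidence bound (second moment method). -/
theorem vinh : ((inc A B : ℝ) - A.card * B.card / Nat.card F) ^ 2 ≤
    Nat.card F * A.card * B.card := by
  have := Fintype.ofFinite F
  rw [Nat.card_eq_fintype_card]
  set Q : ℝ := (Fintype.card F : ℝ) with hQ
  have hQ0 : 0 < Q := by
    rw [hQ]
    exact_mod_cast Fintype.card_pos
  set d : F × F → ℝ := fun p => ((A.filter fun l => p.2 = l.1 * p.1 + l.2).card : ℝ) with hd
  have hinc : (inc A B : ℝ) = ∑ p ∈ B, d p := by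
    rw [inc_eq_right]
    push_cast
    rfl
  have htot : ∑ p, d p = Q * A.card := by
    have h1 : (inc A Finset.univ : ℝ) = ∑ p, d p := by
      rw [inc_eq_right]
      push_cast
      rfl
    rw [← h1, inc_eq_left, Finset.sum_congr rfl fun l _ => card_line l, Finset.sum_const,
      smul_eq_mul]
    push_cast
    ring
  have hsq : ∑ p, d p ^ 2 ≤ Q * A.card + (A.card : ℝ) ^ 2 := by
    have h := sum_sq_le_gen A (Finset.univ : Finset (F × F))
      (fun l p => p.2 = l.1 * p.1 + l.2)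
      (fun l _ l' _ h => two_lines Finset.univ l l' h)
    have h' : ∑ p, d p ^ 2 ≤ ∑ p, d p + (A.card : ℝ) ^ 2 := h
    linarith
  have hvar : ∑ p, (d p - A.card / Q) ^ 2 ≤ Q * A.card := by
    have h1 : ∑ p, (d p - A.card / Q) ^ 2 =
        ∑ p, d p ^ 2 - 2 * (A.card / Q) * ∑ p, d p + Q ^ 2 * (A.card / Q) ^ 2 := by
      have h2 : ∀ p : F × F, (d p - A.card / Q) ^ 2 =
          d p ^ 2 - 2 * (A.card / Q) * d p + (A.card / Q) ^ 2 := fun p => by ring
      have h6 : ∑ p : F × F, ((A.card : ℝ) / Q) ^ 2 = Q ^ 2 * (A.card / Q) ^ 2 := by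
        rw [Finset.sum_const, Finset.card_univ, Fintype.card_prod, nsmul_eq_mul, hQ]
        push_cast
        ring
      calc ∑ p, (d p - A.card / Q) ^ 2
          = ∑ p, (d p ^ 2 - 2 * (A.card / Q) * d p + (A.card / Q) ^ 2) :=
            Finset.sum_congr rfl fun p _ => h2 p
        _ = ∑ p, (d p ^ 2 - 2 * (A.card / Q) * d p) + ∑ p : F × F, ((A.card : ℝ) / Q) ^ 2 :=
            Finset.sum_add_distrib
        _ = ∑ p, d p ^ 2 - ∑ p, 2 * (A.card / Q) * d p + ∑ p : F × F, ((A.card : ℝ) / Q) ^ 2 := by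
            rw [Finset.sum_sub_distrib]
        _ = ∑ p, d p ^ 2 - 2 * (A.card / Q) * ∑ p, d p + Q ^ 2 * (A.card / Q) ^ 2 := by
            rw [h6, ← Finset.mul_sum]
    rw [h1, htot]
    have h3 : 2 * ((A.card : ℝ) / Q) * (Q * A.card) = 2 * (A.card : ℝ) ^ 2 := by
      field_simp
    have h4 : Q ^ 2 * ((A.card : ℝ) / Q) ^ 2 = (A.card : ℝ) ^ 2 := by
      field_simp
    rw [h3, h4]
    linarith
  have h5 : (inc A B : ℝ) - A.card * B.card / Q = ∑ p ∈ B, (d p - A.card / Q) := by
    rw [Finset.sum_sub_distrib, hinc, Finset.sum_const, nsmul_eq_mul]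
    ring
  rw [h5]
  calc (∑ p ∈ B, (d p - A.card / Q)) ^ 2 ≤ B.card * ∑ p ∈ B, (d p - A.card / Q) ^ 2 :=
        sq_sum_le_card_mul_sum_sq
    _ ≤ B.card * ∑ p, (d p - A.card / Q) ^ 2 := by
        refine mul_le_mul_of_nonneg_left ?_ (Nat.cast_nonneg _)
        exact Finset.sum_le_univ_sum_of_nonneg fun p => sq_nonneg _
    _ ≤ B.card * (Q * A.card) := mul_le_mul_of_nonneg_left hvar (Nat.cast_nonneg _)
    _ = Q * A.card * B.card := by ring

end GW628
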