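import Pool.Agent.W_MP_628faf_lc.Pigeon
import Pool.Agent.W_MP_628faf_lc.Incid

open Filter

namespace GW628

variable {U : List Bool → List Bool →. List Bool} {θ : (n : ℕ) → GaloisField 2 n}

/-- Logarithmic error terms do not matter. -/
theorem le_of_eventually_log {A B C D : ℝ}
    (h : ∀ᶠ n : ℕ in atTop, A * n ≤ B * n + C * Real.logb 2 n + D) : A ≤ B := by
  have h1 : (fun x : ℝ => C * Real.logb 2 x + D) =o[atTop] (id : ℝ → ℝ) := by
    refine Asymptotics.IsLittleO.add ?_ ?_
    · have : (fun x : ℝ => C * Real.logb 2 x) = fun x => (C / Real.log 2) * Real.log x := by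
        funext x
        rw [Real.logb]
        ring
      rw [this]
      exact Real.isLittleO_log_id_atTop.const_mul_left _
    · exact Asymptotics.isLittleO_const_id_atTop D
  by_contra hlt
  push Not at hlt
  have h2 := (h1.comp_tendsto tendsto_natCast_atTop_atTop).def
    (c := (A - B) / 2) (by linarith)
  obtain ⟨n, hn, hn2, hn1⟩ := (h.and (h2.and (eventually_ge_atTop 1))).exists
  have hn1' : (1 : ℝ) ≤ n := by exact_mod_cast hn1
  simp only [Function.comp_apply, id, Real.norm_eq_abs, Nat.abs_cast] at hn2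
  have h3 := (le_abs_self _).trans hn2
  nlinarith

/-- The outer bound. -/
theorem outer (hU : Optimal U) (hθ : IsCoding θ) {a b c : ℝ} (h : InProfile U θ a b c) :
    0 ≤ a ∧ 0 ≤ b ∧ 0 ≤ c ∧ 2 ≤ a + c ∧ 2 ≤ b + c ∧ 3 ≤ a + b + c ∧
      3 ≤ c + max b (a + b / 2) ∧ 3 ≤ c + max a (b + a / 2) ∧
      3 ≤ c + max (a + b - 1) ((1 + a + b) / 2) := by
  classical
  obtain ⟨C, hC⟩ := exists_many_inc hU hθ h
  -- the logarithmic form
  have key : ∀ᶠ n : ℕ in atTop, ∃ α β ι : ℝ, 0 ≤ α ∧ 0 ≤ β ∧
      0 ≤ Real.logb 2 n ∧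
      α ≤ a * n + C * Real.logb 2 n ∧ β ≤ b * n + C * Real.logb 2 n ∧
      3 * (n : ℝ) ≤ c * n + C * Real.logb 2 n + ι ∧
      ι ≤ 3 * n ∧ ι ≤ α + n ∧ ι ≤ β + n ∧ ι ≤ α + β ∧
      ι ≤ 1 + max β (α + β / 2) ∧ ι ≤ 1 + max α (β + α / 2) ∧
      ι ≤ 1 + max (α + β - n) ((n + α + β) / 2) := by
    filter_upwards [hC, eventually_ge_atTop 1] with n hn hn1
    obtain ⟨A, B, hA, hB, hI⟩ := hn
    have hcardQ : Nat.card (GaloisField 2 n) = 2 ^ n := GaloisField.card 2 n (by omega)
    have hinc_eq : ∀ d1 d2 : DecidableEq (GaloisField 2 n), d1 = d2 := fun _ _ =>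
      Subsingleton.elim _ _
    set I : ℕ := inc A B with hIdef
    have hIpos : 0 < I := by
      rcases Nat.eq_zero_or_pos I with h0 | h0
      · rw [h0] at hI
        simp only [Nat.cast_zero, mul_zero] at hI
        have : (0 : ℝ) < (2 : ℝ) ^ (3 * (n : ℝ)) := by positivity
        linarith
      · exact h0
    have hIR : (0 : ℝ) < I := by exact_mod_cast hIpos
    have h1 : I ≤ A.card * B.card := inc_le_mul A B
    have hAB : 0 < A.card * B.card := lt_of_lt_of_le hIpos h1
    have hApos : 0 < A.card := Nat.pos_of_mul_pos_right hAB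
    have hBpos : 0 < B.card := Nat.pos_of_mul_pos_left hAB
    have hAR : (0 : ℝ) < A.card := by exact_mod_cast hApos
    have hBR : (0 : ℝ) < B.card := by exact_mod_cast hBpos
    have hA1 : (1 : ℝ) ≤ A.card := by exact_mod_cast hApos
    have hB1 : (1 : ℝ) ≤ B.card := by exact_mod_cast hBpos
    have hlog2 : (1 : ℝ) < 2 := by norm_num
    have hmono : ∀ x y : ℝ, 0 < x → x ≤ y → Real.logb 2 x ≤ Real.logb 2 y := fun x y hx hxy =>
      Real.logb_le_logb_of_le hlog2 hx hxy
    have hpow : ∀ t : ℝ, Real.logb 2 ((2 : ℝ) ^ t) = t := fun t =>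
      Real.logb_rpow (by norm_num) (by norm_num)
    have hQlog : Real.logb 2 (Nat.card (GaloisField 2 n) : ℝ) = n := by
      rw [hcardQ]
      push_cast
      rw [← Real.rpow_natCast, hpow]
    have hQpos : (0 : ℝ) < (Nat.card (GaloisField 2 n) : ℝ) := by
      rw [hcardQ]
      positivity
    have h2 : I ≤ A.card * Nat.card (GaloisField 2 n) := inc_le_left A B
    have h3 : I ≤ B.card * Nat.card (GaloisField 2 n) := inc_le_right A B
    have h4 : I ≤ Nat.card (GaloisField 2 n) ^ 3 := inc_le_cube A B
    have h5 : (I : ℝ) ^ 2 ≤ B.card * (I + (A.card : ℝ) ^ 2) := inc_sq_le A B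
    have h6 : (I : ℝ) ^ 2 ≤ A.card * (I + (B.card : ℝ) ^ 2) := inc_sq_le' A B
    have h7 : ((I : ℝ) - A.card * B.card / Nat.card (GaloisField 2 n)) ^ 2 ≤
        Nat.card (GaloisField 2 n) * A.card * B.card := vinh A B
    set Q : ℝ := (Nat.card (GaloisField 2 n) : ℝ) with hQ
    have hcs : ∀ x y : ℝ, 0 < x → 0 < y → (I : ℝ) ^ 2 ≤ y * (I + x ^ 2) →
        Real.logb 2 I ≤ 1 + max (Real.logb 2 y) (Real.logb 2 x + Real.logb 2 y / 2) := by
      intro x y hx hy hxy
      rcases le_total (I : ℝ) (x ^ 2) with hle | hle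
      · have : (I : ℝ) ^ 2 ≤ 2 * (y * x ^ 2) := by nlinarith
        have := hmono _ _ (by positivity) this
        rw [Real.logb_mul (by norm_num) (by positivity),
          Real.logb_mul (by positivity) (by positivity), Real.logb_pow, Real.logb_pow,
          Real.logb_self_eq_one hlog2] at this
        push_cast at this
        have := le_max_right (Real.logb 2 y) (Real.logb 2 x + Real.logb 2 y / 2)
        linarith
      · have : (I : ℝ) ^ 2 ≤ 2 * (y * I) := by nlinarith
        have h' : (I : ℝ) ≤ 2 * y := by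
          by_contra hcon
          push Not at hcon
          nlinarith
        have := hmono _ _ (by positivity) h'
        rw [Real.logb_mul (by norm_num) (by positivity), Real.logb_self_eq_one hlog2] at this
        have := le_max_left (Real.logb 2 y) (Real.logb 2 x + Real.logb 2 y / 2)
        linarith
    refine ⟨Real.logb 2 A.card, Real.logb 2 B.card, Real.logb 2 I,
      Real.logb_nonneg hlog2 hA1, Real.logb_nonneg hlog2 hB1,
      Real.logb_nonneg hlog2 (by exact_mod_cast hn1), ?_, ?_, ?_, ?_, ?_, ?_, ?_, ?_, ?_, ?_⟩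
    · have := hmono _ _ hAR hA
      rwa [hpow] at this
    · have := hmono _ _ hBR hB
      rwa [hpow] at this
    · have := hmono _ _ (by positivity) hI
      rwa [hpow, Real.logb_mul (by positivity) (by positivity), hpow] at this
    · have : (I : ℝ) ≤ Q ^ 3 := by rw [hQ]; exact_mod_cast h4
      have := hmono _ _ hIR this
      rw [Real.logb_pow, hQlog] at this
      push_cast at this
      exact this
    · have : (I : ℝ) ≤ A.card * Q := by rw [hQ]; exact_mod_cast h2
      have := hmono _ _ hIR this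
      rwa [Real.logb_mul (by positivity) (by positivity), hQlog] at this
    · have : (I : ℝ) ≤ B.card * Q := by rw [hQ]; exact_mod_cast h3
      have := hmono _ _ hIR this
      rwa [Real.logb_mul (by positivity) (by positivity), hQlog] at this
    · have : (I : ℝ) ≤ A.card * B.card := by exact_mod_cast h1
      have := hmono _ _ hIR this
      rwa [Real.logb_mul (by positivity) (by positivity)] at this
    · exact hcs _ _ hAR hBR h5
    · exact hcs _ _ hBR hAR h6
    · set T : ℝ := (A.card : ℝ) * B.card with hT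
      have hTpos : 0 < T := by positivity
      have hTlog : Real.logb 2 T = Real.logb 2 A.card + Real.logb 2 B.card := by
        rw [hT, Real.logb_mul (by positivity) (by positivity)]
      rcases le_total (I : ℝ) (2 * (T / Q)) with hle | hle
      · have := hmono _ _ hIR hle
        rw [Real.logb_mul (by norm_num) (by positivity), Real.logb_self_eq_one hlog2,
          Real.logb_div (by positivity) (by positivity), hQlog, hTlog] at this
        have := le_max_left (Real.logb 2 A.card + Real.logb 2 B.card - n)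
          ((n + Real.logb 2 A.card + Real.logb 2 B.card) / 2)
        linarith
      · have h8 : ((I : ℝ) / 2) ^ 2 ≤ Q * T := by
          have hT' : (0 : ℝ) < T / Q := by positivity
          have : ((I : ℝ) / 2) ^ 2 ≤ ((I : ℝ) - T / Q) ^ 2 := by
            apply pow_le_pow_left₀ (by positivity)
            linarith
          calc ((I : ℝ) / 2) ^ 2 ≤ ((I : ℝ) - T / Q) ^ 2 := this
            _ ≤ Q * A.card * B.card := h7
            _ = Q * T := by rw [hT]; ring
        have := hmono _ _ (by positivity) h8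
        rw [Real.logb_pow, Real.logb_div (by positivity) (by norm_num),
          Real.logb_self_eq_one hlog2, Real.logb_mul (by positivity) (by positivity), hQlog,
          hTlog] at this
        push_cast at this
        have := le_max_right (Real.logb 2 A.card + Real.logb 2 B.card - n)
          ((n + Real.logb 2 A.card + Real.logb 2 B.card) / 2)
        linarith
  have hmulmax : ∀ (n : ℕ) (x y : ℝ), max (x * n) (y * n) = max x y * n := by
    intro n x y
    rw [max_mul_of_nonneg _ _ (Nat.cast_nonneg n)]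
  have absC := abs_nonneg C
  have hle : C ≤ |C| := le_abs_self C
  have hge : -|C| ≤ C := neg_abs_le C
  refine ⟨?_, ?_, ?_, ?_, ?_, ?_, ?_, ?_, ?_⟩
  · refine le_of_eventually_log (C := C) (D := 0) ?_
    filter_upwards [key] with n ⟨α, β, ι, h⟩
    obtain ⟨h1, h2, h3, h4, h5, h6, h7, h8, h9, h10, h11, h12, h13⟩ := h
    linarith
  · refine le_of_eventually_log (C := C) (D := 0) ?_
    filter_upwards [key] with n ⟨α, β, ι, h⟩
    obtain ⟨h1, h2, h3, h4, h5, h6, h7, h8, h9, h10, h11, h12, h13⟩ := h
    linarith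
  · refine le_of_eventually_log (C := C) (D := 0) ?_
    filter_upwards [key] with n ⟨α, β, ι, h⟩
    obtain ⟨h1, h2, h3, h4, h5, h6, h7, h8, h9, h10, h11, h12, h13⟩ := h
    linarith
  · refine le_of_eventually_log (C := 2 * C) (D := 0) ?_
    filter_upwards [key] with n ⟨α, β, ι, h⟩
    obtain ⟨h1, h2, h3, h4, h5, h6, h7, h8, h9, h10, h11, h12, h13⟩ := h
    linarith
  · refine le_of_eventually_log (C := 2 * C) (D := 0) ?_
    filter_upwards [key] with n ⟨α, β, ι, h⟩
    obtain ⟨h1, h2, h3, h4, h5, h6, h7, h8, h9, h10, h11, h12, h13⟩ := h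
    linarith
  · refine le_of_eventually_log (C := 3 * C) (D := 0) ?_
    filter_upwards [key] with n ⟨α, β, ι, h⟩
    obtain ⟨h1, h2, h3, h4, h5, h6, h7, h8, h9, h10, h11, h12, h13⟩ := h
    linarith
  · refine le_of_eventually_log (C := 3 * |C|) (D := 1) ?_
    filter_upwards [key] with n ⟨α, β, ι, h⟩
    obtain ⟨h1, h2, h3, h4, h5, h6, h7, h8, h9, h10, h11, h12, h13⟩ := h
    have hn : (0 : ℝ) ≤ n := Nat.cast_nonneg n
    have hCl : C * Real.logb 2 n ≤ |C| * Real.logb 2 n := mul_le_mul_of_nonneg_right hle h3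
    have hCl0 : 0 ≤ |C| * Real.logb 2 n := mul_nonneg absC h3
    have : max β (α + β / 2) ≤ max b (a + b / 2) * n + 2 * (|C| * Real.logb 2 n) := by
      rw [← hmulmax]
      refine max_le ?_ ?_
      · have := le_max_left (b * (n : ℝ)) ((a + b / 2) * n)
        linarith
      · have := le_max_right (b * (n : ℝ)) ((a + b / 2) * n)
        linarith
    have : (3 : ℝ) * n ≤ c * n + 3 * (|C| * Real.logb 2 n) + 1 + max b (a + b / 2) * n := by
      linarith
    linarith
  · refine le_of_eventually_log (C := 3 * |C|) (D := 1) ?_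
    filter_upwards [key] with n ⟨α, β, ι, h⟩
    obtain ⟨h1, h2, h3, h4, h5, h6, h7, h8, h9, h10, h11, h12, h13⟩ := h
    have hn : (0 : ℝ) ≤ n := Nat.cast_nonneg n
    have hCl : C * Real.logb 2 n ≤ |C| * Real.logb 2 n := mul_le_mul_of_nonneg_right hle h3
    have hCl0 : 0 ≤ |C| * Real.logb 2 n := mul_nonneg absC h3
    have : max α (β + α / 2) ≤ max a (b + a / 2) * n + 2 * (|C| * Real.logb 2 n) := by
      rw [← hmulmax]
      refine max_le ?_ ?_
      · have := le_max_left (a * (n : ℝ)) ((b + a / 2) * n)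
        linarith
      · have := le_max_right (a * (n : ℝ)) ((b + a / 2) * n)
        linarith
    have : (3 : ℝ) * n ≤ c * n + 3 * (|C| * Real.logb 2 n) + 1 + max a (b + a / 2) * n := by
      linarith
    linarith
  · refine le_of_eventually_log (C := 3 * |C|) (D := 1) ?_
    filter_upwards [key] with n ⟨α, β, ι, h⟩
    obtain ⟨h1, h2, h3, h4, h5, h6, h7, h8, h9, h10, h11, h12, h13⟩ := h
    have hn : (0 : ℝ) ≤ n := Nat.cast_nonneg n
    have hCl : C * Real.logb 2 n ≤ |C| * Real.logb 2 n := mul_le_mul_of_nonneg_right hle h3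
    have hCl0 : 0 ≤ |C| * Real.logb 2 n := mul_nonneg absC h3
    have : max (α + β - n) ((n + α + β) / 2) ≤
        max (a + b - 1) ((1 + a + b) / 2) * n + 2 * (|C| * Real.logb 2 n) := by
      rw [← hmulmax]
      refine max_le ?_ ?_
      · have := le_max_left ((a + b - 1) * (n : ℝ)) ((1 + a + b) / 2 * n)
        linarith
      · have := le_max_right ((a + b - 1) * (n : ℝ)) ((1 + a + b) / 2 * n)
        linarith
    have : (3 : ℝ) * n ≤ c * n + 3 * (|C| * Real.logb 2 n) + 1 +
        max (a + b - 1) ((1 + a + b) / 2) * n := by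
      linarith
    linarith

end GW628
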