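import Pool.Agent.W_MP_628faf_lc.Defs

namespace GW628

section
variable {F : Type*} [Field F]

theorem val_append (θ : F) (u v : List Bool) :
    val θ (u ++ v) = val θ u + θ ^ u.length * val θ v := by
  induction u with
  | nil => simp [val]
  | cons b u ih =>
    rw [List.cons_append, val, ih, val, List.length_cons, pow_succ]
    ring

theorem val_replicate_false (θ : F) (k : ℕ) : val θ (List.replicate k false) = 0 := by
  induction k with
  | zero => simp [val]
  | succ k ih => rw [List.replicate_succ, val, ih]; simp

theorem val_zipWith_xor [CharP F 2] (θ : F) (u v : List Bool) (h : u.length = v.length) :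
    val θ (List.zipWith xor u v) = val θ u + val θ v := by
  induction u generalizing v with
  | nil =>
    cases v with
    | nil => simp [val]
    | cons b v => simp at h
  | cons b u ih =>
    cases v with
    | nil => simp at h
    | cons b' v =>
      simp only [List.length_cons, add_left_inj] at h
      rw [List.zipWith_cons_cons, val, ih v h, val, val]
      have : ((if (b ^^ b') then 1 else 0 : F)) = (if b then 1 else 0) + (if b' then 1 else 0) := by
        cases b <;> cases b' <;> simp [CharTwo.add_self_eq_zero]
      rw [this]
      ring

/-- The product of a polynomial with `i` coefficients and one with `j` coefficients has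
`i + j` coefficients. -/
theorem exists_mul_low [CharP F 2] (θ : F) (u v : List Bool) :
    ∃ w : List Bool, w.length = u.length + v.length ∧ val θ w = val θ u * val θ v := by
  induction u with
  | nil => exact ⟨List.replicate v.length false, by simp, by rw [val_replicate_false]; simp [val]⟩
  | cons b u ih =>
    obtain ⟨w, hw, hwv⟩ := ih
    have h1 : ((if b then v else List.replicate v.length false) ++
        List.replicate (u.length + 1) false).length = (false :: w).length := by
      cases b <;> simp [hw] <;> omega
    refine ⟨List.zipWith xor ((if b then v else List.replicate v.length false) ++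
        List.replicate (u.length + 1) false) (false :: w), ?_, ?_⟩
    · rw [List.length_zipWith, h1, min_self, List.length_cons, List.length_cons, hw]
      omega
    · rw [val_zipWith_xor _ _ _ h1, val_append, val_replicate_false, val, val, hwv]
      cases b
      · simp [val_replicate_false]; ring
      · simp; ring
end

theorem card_lists (n : ℕ) : Nat.card {u : List Bool // u.length = n} = 2 ^ n := by
  have : Nat.card (List.Vector Bool n) = 2 ^ n := by
    rw [Nat.card_eq_fintype_card, _root_.card_vector, Fintype.card_bool]
  exact this

/-- Codes of length `n` are unique. -/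
theorem val_inj {θ : (n : ℕ) → GaloisField 2 n} (hθ : IsCoding θ) {n : ℕ} (hn : 1 ≤ n)
    {u v : List Bool} (hu : u.length = n) (hv : v.length = n)
    (h : val (θ n) u = val (θ n) v) : u = v := by
  let f : {u : List Bool // u.length = n} → GaloisField 2 n := fun u => val (θ n) u.1
  have hfin : Finite {u : List Bool // u.length = n} :=
    (inferInstance : Finite (List.Vector Bool n))
  have hf : Function.Surjective f := fun z => by
    obtain ⟨u, hu, hz⟩ := hθ.exists_val n hn z
    exact ⟨⟨u, hu⟩, hz⟩
  have hcard : Nat.card {u : List Bool // u.length = n} = Nat.card (GaloisField 2 n) := by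
    rw [card_lists, GaloisField.card 2 n (by omega)]
  have hb : Function.Bijective f := (Nat.bijective_iff_surjective_and_card f).2 ⟨hf, hcard⟩
  have := hb.1 (a₁ := ⟨u, hu⟩) (a₂ := ⟨v, hv⟩) h
  exact congrArg Subtype.val this

/-- Incidence is symmetric in characteristic `2`. -/
theorem Incident.symm {θ : (n : ℕ) → GaloisField 2 n} {n : ℕ} {L P : List Bool}
    (h : Incident θ n L P) : Incident θ n P L := by
  obtain ⟨h1, h2, h3⟩ := h
  refine ⟨h2, h1, ?_⟩
  rw [h3, mul_comm (val (θ n) (List.take n P)), ← add_assoc, CharTwo.add_self_eq_zero, zero_add]

end GW628
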