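import Pool.Agent.W_MP_628faf_lc.Basic
import Pool.Agent.W_MP_628faf_lc.Val

open Filter

namespace GW628

variable {U : List Bool → List Bool →. List Bool} {θ : (n : ℕ) → GaloisField 2 n}

private lemma append_inj_len {n : ℕ} {a b c d : List Bool} (ha : a.length = n) (hc : c.length = n)
    (h : a ++ b = c ++ d) : a = c ∧ b = d :=
  List.append_inj h (by rw [ha, hc])

open Classical in
/-- A point of the profile yields, for all large `n`, a set of about `2^(an)` lines and a set of
about `2^(bn)` points with at least about `2^((3-c)n)` incidences. -/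
theorem exists_many_inc (hU : Optimal U) (hθ : IsCoding θ) {a b c : ℝ}
    (h : InProfile U θ a b c) :
    ∃ C : ℝ, ∀ᶠ n : ℕ in atTop, ∃ A B : Finset (GaloisField 2 n × GaloisField 2 n),
      (A.card : ℝ) ≤ (2 : ℝ) ^ (a * n + C * Real.logb 2 n) ∧
      (B.card : ℝ) ≤ (2 : ℝ) ^ (b * n + C * Real.logb 2 n) ∧
      (2 : ℝ) ^ (3 * (n : ℝ)) ≤ (2 : ℝ) ^ (c * n + C * Real.logb 2 n) * inc A B := by
  obtain ⟨C, hC⟩ := h 2
  refine ⟨C + 2, ?_⟩
  filter_upwards [hC, eventually_ge_atTop 2] with n hn hn2
  have hn0 : n ≠ 0 := by omega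
  have hlog : (1 : ℝ) ≤ Real.logb 2 n := by
    rw [Real.le_logb_iff_rpow_le (by norm_num) (by positivity)]
    simpa using (by exact_mod_cast hn2 : (2 : ℝ) ≤ n)
  set F := GaloisField 2 n with hF
  have : Finite F := by
    rw [hF]
    exact Nat.finite_of_card_ne_zero (by rw [GaloisField.card 2 n hn0]; positivity)
  let _ : Fintype F := Fintype.ofFinite F
  have hcardF : Fintype.card F = 2 ^ n := by
    rw [← Nat.card_eq_fintype_card]; exact GaloisField.card 2 n hn0
  choose enc hlen hval using hθ.exists_val n (by omega)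
  have hinj : Function.Injective enc := by
    intro x y hxy
    rw [← hval x, ← hval y, hxy]
  -- codes
  let L : F × F × F → List Bool := fun z => enc z.1 ++ enc z.2.1
  let P : F × F × F → List Bool := fun z => enc z.2.2 ++ enc (z.1 * z.2.2 + z.2.1)
  have hinc : ∀ z, Incident θ n (L z) (P z) := by
    intro z
    refine ⟨?_, ?_, ?_⟩
    · simp [L, hlen]; ring
    · simp [P, hlen]; ring
    · have h1 : (P z).drop n = enc (z.1 * z.2.2 + z.2.1) := by
        simp only [P]
        rw [List.drop_append_of_le_length (by rw [hlen]), List.drop_eq_nil_of_le (by rw [hlen])]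
        simp
      have h2 : (P z).take n = enc z.2.2 := by
        simp only [P]
        rw [List.take_append_of_le_length (by rw [hlen]), List.take_of_length_le (by rw [hlen])]
      have h3 : (L z).drop n = enc z.2.1 := by
        simp only [L]
        rw [List.drop_append_of_le_length (by rw [hlen]), List.drop_eq_nil_of_le (by rw [hlen])]
        simp
      have h4 : (L z).take n = enc z.1 := by
        simp only [L]
        rw [List.take_append_of_le_length (by rw [hlen]), List.take_of_length_le (by rw [hlen])]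
      rw [h1, h2, h3, h4, hval, hval, hval, hval]
  -- the pair code is injective
  have hLPinj : Function.Injective fun z => L z ++ P z := by
    intro z w hzw
    simp only [L, P, List.append_assoc] at hzw
    obtain ⟨h1, h2⟩ := append_inj_len (hlen _) (hlen _) hzw
    obtain ⟨h3, h4⟩ := append_inj_len (hlen _) (hlen _) h2
    obtain ⟨h5, h6⟩ := append_inj_len (hlen _) (hlen _) h4
    exact Prod.ext (hinj h1) (Prod.ext (hinj h3) (hinj h5))
  -- the pair of elements code
  have hpairinj : Function.Injective fun z : F × F => enc z.1 ++ enc z.2 := by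
    intro z w hzw
    obtain ⟨h1, h2⟩ := append_inj_len (hlen _) (hlen _) hzw
    exact Prod.ext (hinj h1) (hinj h2)
  -- bad flags
  let bad : Finset (F × F × F) :=
    Finset.univ.filter fun z => (KC U (L z ++ P z) [] : ℝ) < 3 * (n : ℝ) - 2 * Real.logb 2 n
  let good : Finset (F × F × F) :=
    Finset.univ.filter fun z => ¬ ((KC U (L z ++ P z) [] : ℝ) < 3 * (n : ℝ) - 2 * Real.logb 2 n)
  have hbad : (bad.card : ℝ) ≤ (2 : ℝ) ^ (3 * (n : ℝ) - 1) := by
    have h1 := card_le hU [] (bad.image fun z => L z ++ P z) (3 * (n : ℝ) - 2 * Real.logb 2 n) ?_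
    · rw [Finset.card_image_of_injective _ hLPinj] at h1
      refine h1.trans (Real.rpow_le_rpow_of_exponent_le (by norm_num) (by linarith))
    · intro x hx
      obtain ⟨z, hz, rfl⟩ := Finset.mem_image.1 hx
      exact (Finset.mem_filter.1 hz).2.le
  have htot : (bad.card : ℝ) + good.card = (2 : ℝ) ^ (3 * (n : ℝ)) := by
    have h1 : bad.card + good.card = (Finset.univ : Finset (F × F × F)).card :=
      Finset.card_filter_add_card_filter_not _
    have h2 : (Finset.univ : Finset (F × F × F)).card = 2 ^ (3 * n) := by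
      rw [Finset.card_univ, Fintype.card_prod, Fintype.card_prod, hcardF]
      rw [← pow_add, ← pow_add]; congr 1; ring
    rw [h2] at h1
    have h3 : ((bad.card + good.card : ℕ) : ℝ) = ((2 ^ (3 * n) : ℕ) : ℝ) := by rw [h1]
    push_cast at h3
    rw [h3]
    have : (3 * (n : ℝ)) = ((3 * n : ℕ) : ℝ) := by push_cast; ring
    rw [this, Real.rpow_natCast]
  have hhalf : (2 : ℝ) ^ (3 * (n : ℝ)) = 2 * (2 : ℝ) ^ (3 * (n : ℝ) - 1) := by
    rw [Real.rpow_sub_one (by norm_num)]; ring
  have hgood : (2 : ℝ) ^ (3 * (n : ℝ) - 1) ≤ good.card := by linarith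
  have hgoodpos : 0 < (good.card : ℝ) := lt_of_lt_of_le (by positivity) hgood
  -- choose q
  have hq : ∀ z : F × F × F, ∃ q : List Bool, z ∈ good →
      (KC U q [] : ℝ) ≤ c * n + C * Real.logb 2 n ∧
      (KC U (L z) q : ℝ) ≤ a * n + C * Real.logb 2 n ∧
      (KC U (P z) q : ℝ) ≤ b * n + C * Real.logb 2 n := by
    intro z
    by_cases hz : z ∈ good
    · obtain ⟨q, hq⟩ := hn (L z) (P z) (hinc z) (not_lt.1 (Finset.mem_filter.1 hz).2)
      exact ⟨q, fun _ => hq⟩
    · exact ⟨[], fun h => absurd h hz⟩
  choose q hq using hq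
  let Q : Finset (List Bool) := good.image q
  have hQcard : (Q.card : ℝ) ≤ (2 : ℝ) ^ (c * n + C * Real.logb 2 n + 1) := by
    refine card_le hU [] Q _ ?_
    intro x hx
    obtain ⟨z, hz, rfl⟩ := Finset.mem_image.1 hx
    exact (hq z hz).1
  have hgne : good.Nonempty := by
    rw [← Finset.card_pos]; exact_mod_cast hgoodpos
  have hQne : Q.Nonempty := hgne.image _
  have hQpos : (0 : ℝ) < Q.card := by exact_mod_cast Finset.card_pos.2 hQne
  obtain ⟨q0, hq0, hfib⟩ := Finset.exists_le_card_fiber_of_nsmul_le_card_of_maps_to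
    (s := good) (t := Q) (f := q) (b := (good.card : ℝ) / Q.card)
    (fun z hz => Finset.mem_image_of_mem q hz) hQne
    (by rw [nsmul_eq_mul, mul_div_cancel₀ _ hQpos.ne'])
  let A : Finset (F × F) :=
    Finset.univ.filter fun z => (KC U (enc z.1 ++ enc z.2) q0 : ℝ) ≤ a * n + C * Real.logb 2 n
  let B : Finset (F × F) :=
    Finset.univ.filter fun z => (KC U (enc z.1 ++ enc z.2) q0 : ℝ) ≤ b * n + C * Real.logb 2 n
  refine ⟨A, B, ?_, ?_, ?_⟩
  · have h1 := card_le hU q0 (A.image fun z => enc z.1 ++ enc z.2) (a * n + C * Real.logb 2 n) ?_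
    · rw [Finset.card_image_of_injective _ hpairinj] at h1
      refine h1.trans (Real.rpow_le_rpow_of_exponent_le (by norm_num) (by nlinarith))
    · intro x hx
      obtain ⟨z, hz, rfl⟩ := Finset.mem_image.1 hx
      exact (Finset.mem_filter.1 hz).2
  · have h1 := card_le hU q0 (B.image fun z => enc z.1 ++ enc z.2) (b * n + C * Real.logb 2 n) ?_
    · rw [Finset.card_image_of_injective _ hpairinj] at h1
      refine h1.trans (Real.rpow_le_rpow_of_exponent_le (by norm_num) (by nlinarith))
    · intro x hx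
      obtain ⟨z, hz, rfl⟩ := Finset.mem_image.1 hx
      exact (Finset.mem_filter.1 hz).2
  · have hle : (good.filter fun z => q z = q0).card ≤ inc A B := by
      unfold inc
      refine Finset.card_le_card_of_injOn
        (fun z => ((z.1, z.2.1), (z.2.2, z.1 * z.2.2 + z.2.1))) ?_ ?_
      · intro z hz
        obtain ⟨hz1, hz2⟩ := Finset.mem_filter.1 (Finset.mem_coe.1 hz)
        have h1 := hq z hz1
        rw [hz2] at h1
        simp only [Finset.coe_filter, Set.mem_setOf_eq, Finset.mem_product, and_true]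
        refine ⟨?_, ?_⟩
        · exact Finset.mem_filter.2 ⟨Finset.mem_univ _, h1.2.1⟩
        · exact Finset.mem_filter.2 ⟨Finset.mem_univ _, h1.2.2⟩
      · intro z _ w _ hzw
        simp only [Prod.mk.injEq] at hzw
        exact Prod.ext hzw.1.1 (Prod.ext hzw.1.2 hzw.2.1)
    have hle' : ((good.filter fun z => q z = q0).card : ℝ) ≤ inc A B := by exact_mod_cast hle
    have h2 : (good.card : ℝ) ≤ Q.card * inc A B := by
      have := hfib.trans hle'
      rwa [div_le_iff₀ hQpos, mul_comm] at this
    have hI : (0 : ℝ) ≤ inc A B := by positivity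
    calc (2 : ℝ) ^ (3 * (n : ℝ)) = 2 * (2 : ℝ) ^ (3 * (n : ℝ) - 1) := hhalf
      _ ≤ 2 * good.card := by linarith
      _ ≤ 2 * (Q.card * inc A B) := by linarith
      _ ≤ 2 * ((2 : ℝ) ^ (c * n + C * Real.logb 2 n + 1) * inc A B) := by
          gcongr
      _ = (2 : ℝ) ^ (c * n + C * Real.logb 2 n + 2) * inc A B := by
          have : (2 : ℝ) ^ (c * n + C * Real.logb 2 n + 2)
              = 2 * (2 : ℝ) ^ (c * n + C * Real.logb 2 n + 1) := by
            have h3 : c * n + C * Real.logb 2 n + 2 = (c * n + C * Real.logb 2 n + 1) + 1 := by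
              ring
            rw [h3, Real.rpow_add_one (by norm_num)]; ring
          rw [this]; ring
      _ ≤ (2 : ℝ) ^ (c * n + (C + 2) * Real.logb 2 n) * inc A B := by
          refine mul_le_mul_of_nonneg_right ?_ hI
          exact Real.rpow_le_rpow_of_exponent_le (by norm_num) (by nlinarith)

end GW628
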