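import Pool.Agent.W_MP_628faf_lc.Defs

open Polynomial

namespace GW628

namespace Exist

/-- A bit as an element of `ZMod 2`. -/
def bt (b : Bool) : ZMod 2 := if b then 1 else 0

lemma bt_xor (a b : Bool) : bt (xor a b) = bt a + bt b := by
  revert a b; decide

lemma bt_and (a b : Bool) : bt (a && b) = bt a * bt b := by
  revert a b; decide

lemma bt_inj {a b : Bool} (h : bt a = bt b) : a = b := by
  revert a b; decide

lemma bt_surj (z : ZMod 2) : ∃ b, bt b = z := by
  revert z; decide

/-- The polynomial coded by a bit string. -/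
noncomputable def poly : List Bool → (ZMod 2)[X]
  | [] => 0
  | b :: u => C (bt b) + X * poly u

lemma coeff_poly (u : List Bool) (i : ℕ) : (poly u).coeff i = bt (u.getD i false) := by
  induction u generalizing i with
  | nil => simp [poly, bt]
  | cons b u ih =>
    cases i with
    | zero => simp [poly]
    | succ i => simp [poly, coeff_X_mul, ih]

lemma val_eq {F : Type*} [Field F] [Algebra (ZMod 2) F] (θ : F) (u : List Bool) :
    val θ u = aeval θ (poly u) := by
  induction u with
  | nil => simp [val, poly]
  | cons b u ih =>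
    cases b <;> simp [val, poly, bt, ih]

lemma degree_poly_lt (u : List Bool) : (poly u).degree < u.length := by
  rw [degree_lt_iff_coeff_zero]
  intro m hm
  rw [coeff_poly, List.getD_eq_default _ _ hm]
  rfl

lemma poly_inj {u v : List Bool} (h : u.length = v.length) (huv : poly u = poly v) : u = v := by
  apply List.ext_getElem h
  intro i h1 h2
  have := congrArg (fun p => p.coeff i) huv
  simp only [coeff_poly] at this
  have := bt_inj this
  rwa [List.getD_eq_getElem _ _ h1, List.getD_eq_getElem _ _ h2] at this

lemma getD_mr (n : ℕ) (g : ℕ → Bool) (i : ℕ) :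
    ((List.range n).map g).getD i false = if i < n then g i else false := by
  by_cases h : i < n
  · rw [List.getD_eq_getElem _ _ (by simpa using h)]
    simp [h]
  · rw [List.getD_eq_default _ _ (by simpa using h)]
    simp [h]

lemma poly_surj (n : ℕ) (p : (ZMod 2)[X]) (hp : p.degree < n) :
    ∃ u : List Bool, u.length = n ∧ poly u = p := by
  choose b hb using bt_surj
  refine ⟨(List.range n).map fun i => b (p.coeff i), by simp, ?_⟩
  ext i
  rw [coeff_poly, getD_mr]
  split_ifs with h
  · exact hb _
  · rw [degree_lt_iff_coeff_zero] at hp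
    rw [hp i (by omega)]
    rfl

/-- `n` zeros. -/
def zeros (n : ℕ) : List Bool := (List.range n).map fun _ => false

/-- Multiplication by `X` modulo `X^n + f`. -/
def mulX (n : ℕ) (f u : List Bool) : List Bool :=
  (List.range n).map fun i =>
    xor (decide (0 < i) && u.getD (i - 1) false) (u.getD (n - 1) false && f.getD i false)

/-- Sum of two bit strings. -/
def xorN (n : ℕ) (u v : List Bool) : List Bool :=
  (List.range n).map fun i => xor (u.getD i false) (v.getD i false)

/-- Multiplication modulo `X^n + f`. -/
def mulN (n : ℕ) (f u v : List Bool) : List Bool :=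
  u.foldr (fun b acc => xorN n (cond b v (zeros n)) (mulX n f acc)) (zeros n)

@[simp] lemma length_zeros (n : ℕ) : (zeros n).length = n := by simp [zeros]

@[simp] lemma length_mulX (n : ℕ) (f u : List Bool) : (mulX n f u).length = n := by simp [mulX]

@[simp] lemma length_xorN (n : ℕ) (f u : List Bool) : (xorN n f u).length = n := by simp [xorN]

@[simp] lemma length_mulN (n : ℕ) (f u v : List Bool) : (mulN n f u v).length = n := by
  cases u <;> simp [mulN]

lemma poly_zeros (n : ℕ) : poly (zeros n) = 0 := by
  ext i
  rw [coeff_poly, zeros, getD_mr]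
  simp [bt]

lemma poly_xorN {n : ℕ} {u v : List Bool} (hu : u.length = n) (hv : v.length = n) :
    poly (xorN n u v) = poly u + poly v := by
  ext i
  rw [coeff_add, coeff_poly, coeff_poly, coeff_poly, xorN, getD_mr]
  split_ifs with h
  · exact bt_xor _ _
  · rw [List.getD_eq_default _ _ (by omega), List.getD_eq_default _ _ (by omega)]
    simp [bt]

lemma poly_mulX {n : ℕ} (hn : 1 ≤ n) {f u : List Bool} (hf : f.length = n) (hu : u.length = n) :
    poly (mulX n f u) = X * poly u + C (bt (u.getD (n - 1) false)) * (X ^ n + poly f) := by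
  ext i
  rw [coeff_add, coeff_C_mul, coeff_add, coeff_X_pow, coeff_poly, coeff_poly, mulX, getD_mr]
  cases i with
  | zero =>
    have : (0 : ℕ) ≠ n := by omega
    have h0 : 0 < n := hn
    rw [if_pos h0, bt_xor, bt_and, bt_and, if_neg this]
    simp [bt]
  | succ j =>
    rw [coeff_X_mul, coeff_poly]
    split_ifs with h h' h'
    · omega
    · rw [bt_xor, bt_and, bt_and]
      simp [bt]
    · subst h'
      rw [List.getD_eq_default f _ (by omega), Nat.add_sub_cancel]
      generalize u.getD j false = x
      cases x <;> decide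
    · rw [List.getD_eq_default f _ (by omega), List.getD_eq_default u _ (by omega)]
      simp [bt]

lemma dvd_mulN {n : ℕ} (hn : 1 ≤ n) {f v : List Bool} (hf : f.length = n) (hv : v.length = n)
    (u : List Bool) : (X ^ n + poly f) ∣ poly (mulN n f u v) - poly u * poly v := by
  induction u with
  | nil => simp [mulN, poly, poly_zeros]
  | cons b u ih =>
    have h1 : mulN n f (b :: u) v = xorN n (cond b v (zeros n)) (mulX n f (mulN n f u v)) := rfl
    have h2 : (cond b v (zeros n)).length = n := by cases b <;> simp [hv]
    have h3 : poly (cond b v (zeros n)) = C (bt b) * poly v := by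
      cases b <;> simp [bt, poly_zeros]
    rw [h1, poly_xorN h2 (length_mulX _ _ _), poly_mulX hn hf (length_mulN _ _ _ _), h3, poly]
    have : C (bt b) * poly v + (X * poly (mulN n f u v) +
        C (bt ((mulN n f u v).getD (n - 1) false)) * (X ^ n + poly f)) -
        (C (bt b) + X * poly u) * poly v =
        X * (poly (mulN n f u v) - poly u * poly v) +
        C (bt ((mulN n f u v).getD (n - 1) false)) * (X ^ n + poly f) := by ring
    rw [this]
    exact dvd_add (ih.mul_left _) (Dvd.intro_left _ rfl)

/-- All strings of `n` bits. -/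
def allL (n : ℕ) : List (List Bool) :=
  Nat.rec [[]] (fun _ L => L.flatMap fun u => [false :: u, true :: u]) n

lemma mem_allL (n : ℕ) (u : List Bool) : u ∈ allL n ↔ u.length = n := by
  induction n generalizing u with
  | zero => simp [allL]
  | succ n ih =>
    have : allL (n + 1) = (allL n).flatMap fun u => [false :: u, true :: u] := rfl
    rw [this]
    cases u with
    | nil => simp
    | cons b u =>
      have := ih u
      cases b <;> simp [this]

/-- The search predicate. -/
def Good (n : ℕ) (f : List Bool) : Prop :=
  ∀ u ∈ allL n, ∀ v ∈ allL n, mulN n f u v = zeros n → u = zeros n ∨ v = zeros n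

/-! ### Irreducibility and the search predicate -/

lemma monic_g (n : ℕ) {f : List Bool} (hf : f.length = n) : (X ^ n + poly f).Monic :=
  monic_X_pow_add (by rw [← hf]; exact degree_poly_lt f)

lemma natDegree_g (n : ℕ) {f : List Bool} (hf : f.length = n) :
    (X ^ n + poly f).natDegree = n := by
  apply natDegree_eq_of_degree_eq_some
  have h : (poly f).degree < (X ^ n : (ZMod 2)[X]).degree := by
    rw [degree_X_pow, ← hf]; exact degree_poly_lt f
  rw [degree_add_eq_left_of_degree_lt h, degree_X_pow]

lemma poly_mulN_eq_zero {n : ℕ} (hn : 1 ≤ n) {f u v : List Bool} (hf : f.length = n)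
    (hv : v.length = n) :
    mulN n f u v = zeros n ↔ (X ^ n + poly f) ∣ poly u * poly v := by
  have h := dvd_mulN hn hf hv u
  constructor
  · intro h0
    rw [h0, poly_zeros, zero_sub, dvd_neg] at h
    exact h
  · intro h1
    have h2 : (X ^ n + poly f) ∣ poly (mulN n f u v) := by
      have := dvd_add h h1
      simpa using this
    have h3 : poly (mulN n f u v) = 0 := by
      apply Polynomial.eq_zero_of_dvd_of_degree_lt h2
      rw [degree_eq_natDegree (monic_g n hf).ne_zero, natDegree_g n hf]
      simpa using degree_poly_lt (mulN n f u v)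
    apply poly_inj (by simp)
    rw [h3, poly_zeros]

lemma good_iff {n : ℕ} (hn : 1 ≤ n) {f : List Bool} (hf : f.length = n) :
    Good n f ↔ Irreducible (X ^ n + poly f) := by
  have hm := monic_g n hf
  have hd := natDegree_g n hf
  constructor
  · intro h
    rw [hm.irreducible_iff_natDegree]
    refine ⟨?_, ?_⟩
    · intro h1
      rw [h1, natDegree_one] at hd
      omega
    · intro p q hp hq hpq
      by_contra hcon
      push Not at hcon
      have hsum : p.natDegree + q.natDegree = n := by
        rw [← hp.natDegree_mul hq, hpq, hd]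
      obtain ⟨u, hu, hup⟩ := poly_surj n p (by
        rw [degree_eq_natDegree hp.ne_zero]
        exact_mod_cast (by omega : p.natDegree < n))
      obtain ⟨v, hv, hvp⟩ := poly_surj n q (by
        rw [degree_eq_natDegree hq.ne_zero]
        exact_mod_cast (by omega : q.natDegree < n))
      have h1 : mulN n f u v = zeros n := by
        rw [poly_mulN_eq_zero hn hf hv, hup, hvp, hpq]
      rcases h u ((mem_allL n u).2 hu) v ((mem_allL n v).2 hv) h1 with h2 | h2
      · apply hp.ne_zero
        rw [← hup, h2, poly_zeros]
      · apply hq.ne_zero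
        rw [← hvp, h2, poly_zeros]
  · intro h u hu v hv h0
    rw [mem_allL] at hu hv
    rw [poly_mulN_eq_zero hn hf hv] at h0
    have key : ∀ w : List Bool, w.length = n → (X ^ n + poly f) ∣ poly w → w = zeros n := by
      intro w hw hdvd
      apply poly_inj (by simp [hw])
      rw [poly_zeros]
      apply Polynomial.eq_zero_of_dvd_of_degree_lt hdvd
      rw [degree_eq_natDegree hm.ne_zero, hd, ← hw]
      exact degree_poly_lt w
    rcases h.prime.dvd_or_dvd h0 with h1 | h1
    · exact Or.inl (key u hu h1)
    · exact Or.inr (key v hv h1)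

lemma exists_good (n : ℕ) : ∃ f ∈ allL n, Good n f := by
  rcases Nat.eq_zero_or_pos n with rfl | hn
  · refine ⟨[], by simp [allL], ?_⟩
    intro u hu v hv _
    left
    rw [mem_allL] at hu
    rw [List.length_eq_zero_iff.1 hu]
    rfl
  · obtain ⟨α, hα⟩ := Field.exists_primitive_element (ZMod 2) (GaloisField 2 n)
    have hint : IsIntegral (ZMod 2) α := Algebra.IsIntegral.isIntegral α
    have hdeg : (minpoly (ZMod 2) α).natDegree = n := by
      rw [← IntermediateField.adjoin.finrank hint, hα, IntermediateField.finrank_top',
        GaloisField.finrank 2 (by omega)]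
    have hmon := minpoly.monic hint
    have hdeg2 : (minpoly (ZMod 2) α - X ^ n).degree < (n : WithBot ℕ) := by
      have h1 : (minpoly (ZMod 2) α).degree = (n : WithBot ℕ) := by
        rw [degree_eq_natDegree hmon.ne_zero, hdeg]
      calc (minpoly (ZMod 2) α - X ^ n).degree < (minpoly (ZMod 2) α).degree := by
            apply degree_sub_lt_left
            · rw [h1, degree_X_pow]
            · exact hmon.ne_zero
            · rw [hmon.leadingCoeff, leadingCoeff_X_pow]
        _ = n := h1
    obtain ⟨f, hf, hfp⟩ := poly_surj n _ hdeg2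
    refine ⟨f, (mem_allL n f).2 hf, ?_⟩
    rw [good_iff hn hf, hfp]
    have : X ^ n + (minpoly (ZMod 2) α - X ^ n) = minpoly (ZMod 2) α := by ring
    rw [this]
    exact minpoly.irreducible hint

lemma exists_theta {n : ℕ} (hn : 1 ≤ n) {f : List Bool} (hf : f.length = n) (h : Good n f) :
    ∃ θ : GaloisField 2 n, aeval θ (X ^ n + poly f) = 0 ∧
      ∀ z : GaloisField 2 n, ∃ u : List Bool, u.length = n ∧ val θ u = z := by
  rw [good_iff hn hf] at h
  have : Fact (Irreducible (X ^ n + poly f)) := ⟨h⟩
  have hm := monic_g n hf
  have hd := natDegree_g n hf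
  set g := X ^ n + poly f with hg
  have hfin : Module.Finite (ZMod 2) (AdjoinRoot g) := (AdjoinRoot.powerBasis hm.ne_zero).finite
  have hrank : Module.finrank (ZMod 2) (AdjoinRoot g) = n := by
    rw [(AdjoinRoot.powerBasis hm.ne_zero).finrank, AdjoinRoot.powerBasis_dim, hd]
  have hcard : Nat.card (AdjoinRoot g) = 2 ^ n := by
    rw [Module.natCard_eq_pow_finrank (K := ZMod 2), hrank, Nat.card_zmod]
  let φ : AdjoinRoot g ≃ₐ[ZMod 2] GaloisField 2 n := GaloisField.algEquivGaloisField 2 n hcard
  have key : ∀ p : (ZMod 2)[X], aeval (φ (AdjoinRoot.root g)) p = φ (AdjoinRoot.mk g p) := by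
    intro p
    rw [← AdjoinRoot.aeval_eq]
    exact aeval_algHom_apply φ.toAlgHom _ p
  refine ⟨φ (AdjoinRoot.root g), ?_, ?_⟩
  · rw [key, AdjoinRoot.mk_self, map_zero]
  · intro z
    obtain ⟨p, hp⟩ := AdjoinRoot.mk_surjective (φ.symm z)
    obtain ⟨u, hu, hup⟩ := poly_surj n (p %ₘ g) (by
      have := degree_modByMonic_lt p hm
      rwa [degree_eq_natDegree hm.ne_zero, hd] at this)
    refine ⟨u, hu, ?_⟩
    rw [val_eq, key, hup]
    have : AdjoinRoot.mk g (p %ₘ g) = AdjoinRoot.mk g p := by
      rw [AdjoinRoot.mk_eq_mk]
      have := modByMonic_add_div p g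
      refine ⟨-(p /ₘ g), ?_⟩
      linear_combination this
    rw [this, hp]
    simp

/-! ### Computability -/

lemma primrec_xor : Primrec₂ xor := Primrec.dom_finite _

lemma primrec_zeros : Primrec zeros :=
  Primrec.list_map Primrec.list_range (Primrec.const false).to₂

lemma primrec_xorN : Primrec fun a : ℕ × List Bool × List Bool => xorN a.1 a.2.1 a.2.2 := by
  refine Primrec.list_map (Primrec.list_range.comp Primrec.fst) ?_
  refine primrec_xor.comp ?_ ?_
  · exact (Primrec.list_getD false).comp (Primrec.fst.comp (Primrec.snd.comp Primrec.fst))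
      Primrec.snd
  · exact (Primrec.list_getD false).comp (Primrec.snd.comp (Primrec.snd.comp Primrec.fst))
      Primrec.snd

lemma primrec_mulX : Primrec fun a : ℕ × List Bool × List Bool => mulX a.1 a.2.1 a.2.2 := by
  refine Primrec.list_map (Primrec.list_range.comp Primrec.fst) ?_
  have hn : Primrec fun p : (ℕ × List Bool × List Bool) × ℕ => p.1.1 :=
    Primrec.fst.comp Primrec.fst
  have hf : Primrec fun p : (ℕ × List Bool × List Bool) × ℕ => p.1.2.1 :=
    Primrec.fst.comp (Primrec.snd.comp Primrec.fst)
  have hu : Primrec fun p : (ℕ × List Bool × List Bool) × ℕ => p.1.2.2 :=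
    Primrec.snd.comp (Primrec.snd.comp Primrec.fst)
  have hi : Primrec fun p : (ℕ × List Bool × List Bool) × ℕ => p.2 := Primrec.snd
  refine primrec_xor.comp ?_ ?_
  · refine Primrec.and.comp ?_ ?_
    · exact (Primrec.nat_lt.comp (Primrec.const 0) hi).decide
    · exact (Primrec.list_getD false).comp hu (Primrec.nat_sub.comp hi (Primrec.const 1))
  · refine Primrec.and.comp ?_ ?_
    · exact (Primrec.list_getD false).comp hu (Primrec.nat_sub.comp hn (Primrec.const 1))
    · exact (Primrec.list_getD false).comp hf hi

lemma primrec_mulN :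
    Primrec fun a : ℕ × List Bool × List Bool × List Bool => mulN a.1 a.2.1 a.2.2.1 a.2.2.2 := by
  have h1 : Primrec fun a : ℕ × List Bool × List Bool × List Bool => a.2.2.1 :=
    Primrec.fst.comp (Primrec.snd.comp Primrec.snd)
  refine Primrec.list_foldr h1 (primrec_zeros.comp Primrec.fst)
    (h := fun a p => xorN a.1 (cond p.1 a.2.2.2 (zeros a.1)) (mulX a.1 a.2.1 p.2)) ?_
  have hn : Primrec fun q : (ℕ × List Bool × List Bool × List Bool) × (Bool × List Bool) =>
      q.1.1 := Primrec.fst.comp Primrec.fst
  have hf : Primrec fun q : (ℕ × List Bool × List Bool × List Bool) × (Bool × List Bool) =>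
      q.1.2.1 := Primrec.fst.comp (Primrec.snd.comp Primrec.fst)
  have hv : Primrec fun q : (ℕ × List Bool × List Bool × List Bool) × (Bool × List Bool) =>
      q.1.2.2.2 := Primrec.snd.comp (Primrec.snd.comp (Primrec.snd.comp Primrec.fst))
  have hb : Primrec fun q : (ℕ × List Bool × List Bool × List Bool) × (Bool × List Bool) =>
      q.2.1 := Primrec.fst.comp Primrec.snd
  have hc : Primrec fun q : (ℕ × List Bool × List Bool × List Bool) × (Bool × List Bool) =>
      q.2.2 := Primrec.snd.comp Primrec.snd
  exact primrec_xorN.comp (hn.pair ((Primrec.cond hb hv (primrec_zeros.comp hn)).pair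
    (primrec_mulX.comp (hn.pair (hf.pair hc)))))

lemma primrec_allL : Primrec allL := by
  refine Primrec.nat_rec₁ (f := fun _ (L : List (List Bool)) =>
    L.flatMap fun u => [false :: u, true :: u]) [[]] ?_
  refine Primrec.list_flatMap Primrec.snd ?_
  have hu : Primrec fun q : (ℕ × List (List Bool)) × List Bool => q.2 := Primrec.snd
  exact Primrec.list_cons.comp (Primrec.list_cons.comp (Primrec.const false) hu)
    (Primrec.list_cons.comp (Primrec.list_cons.comp (Primrec.const true) hu)
      (Primrec.const []))

lemma primrec_good : PrimrecRel fun (f : List Bool) (n : ℕ) => Good n f := by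
  have h1 : PrimrecRel fun (v : List Bool) (a : (List Bool × ℕ) × List Bool) =>
      (mulN a.1.2 a.1.1 a.2 v = zeros a.1.2 → a.2 = zeros a.1.2 ∨ v = zeros a.1.2) := by
    have hv : Primrec fun q : List Bool × ((List Bool × ℕ) × List Bool) => q.1 := Primrec.fst
    have hn : Primrec fun q : List Bool × ((List Bool × ℕ) × List Bool) => q.2.1.2 :=
      Primrec.snd.comp (Primrec.fst.comp Primrec.snd)
    have hf : Primrec fun q : List Bool × ((List Bool × ℕ) × List Bool) => q.2.1.1 :=
      Primrec.fst.comp (Primrec.fst.comp Primrec.snd)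
    have hu : Primrec fun q : List Bool × ((List Bool × ℕ) × List Bool) => q.2.2 :=
      Primrec.snd.comp Primrec.snd
    have hz := primrec_zeros.comp hn
    have e1 : PrimrecPred fun q : List Bool × ((List Bool × ℕ) × List Bool) =>
        mulN q.2.1.2 q.2.1.1 q.2.2 q.1 = zeros q.2.1.2 :=
      Primrec.eq.comp (primrec_mulN.comp (hn.pair (hf.pair (hu.pair hv)))) hz
    have e2 : PrimrecPred fun q : List Bool × ((List Bool × ℕ) × List Bool) =>
        q.2.2 = zeros q.2.1.2 := Primrec.eq.comp hu hz
    have e3 : PrimrecPred fun q : List Bool × ((List Bool × ℕ) × List Bool) =>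
        q.1 = zeros q.2.1.2 := Primrec.eq.comp hv hz
    refine PrimrecPred.of_eq (e1.not.or (e2.or e3)) ?_
    intro a
    tauto
  have h2 : PrimrecRel fun (u : List Bool) (a : List Bool × ℕ) =>
      ∀ v ∈ allL a.2, (mulN a.2 a.1 u v = zeros a.2 → u = zeros a.2 ∨ v = zeros a.2) := by
    have := h1.forall_mem_list
    have h3 := this.comp (f := fun q : List Bool × (List Bool × ℕ) => allL q.2.2)
      (g := fun q => (q.2, q.1))
      (primrec_allL.comp (Primrec.snd.comp Primrec.snd)) (Primrec.snd.pair Primrec.fst)
    exact h3
  have h4 := h2.forall_mem_list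
  exact h4.comp (f := fun q : List Bool × ℕ => allL q.2) (g := fun q => q)
    (primrec_allL.comp Primrec.snd) Primrec.id

open Classical in
/-- The first good string. -/
noncomputable def fgood (n : ℕ) : List Bool := ((allL n).filter fun f => Good n f).headI

lemma primrec_fgood : Primrec fgood := by
  classical
  exact Primrec.list_headI.comp (primrec_good.listFilter.comp primrec_allL Primrec.id)

lemma fgood_spec (n : ℕ) : (fgood n).length = n ∧ Good n (fgood n) := by
  classical
  have h : fgood n ∈ (allL n).filter fun f => Good n f := by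
    unfold fgood
    obtain ⟨f, hf, hg⟩ := exists_good n
    have hne : ((allL n).filter fun f => Good n f) ≠ [] := by
      intro h0
      have : f ∈ (allL n).filter fun f => Good n f := by simp [hf, hg]
      rw [h0] at this
      simp at this
    cases hl : (allL n).filter (fun f => Good n f) with
    | nil => exact absurd hl hne
    | cons a t => simp [List.headI]
  rw [List.mem_filter, mem_allL] at h
  exact ⟨h.1, by simpa using h.2⟩

end Exist

open Exist in
/-- Codings exist: choose for every `n` (by exhaustive search) the first irreducible polynomial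
of degree `n` over the field with two elements. -/
theorem exists_isCoding : ∃ θ, IsCoding θ := by
  have h : ∀ n : ℕ, ∃ θ : GaloisField 2 n, 1 ≤ n → aeval θ (X ^ n + poly (fgood n)) = 0 ∧
      ∀ z : GaloisField 2 n, ∃ u : List Bool, u.length = n ∧ val θ u = z := by
    intro n
    by_cases hn : 1 ≤ n
    · obtain ⟨θ, hθ⟩ := exists_theta hn (fgood_spec n).1 (fgood_spec n).2
      exact ⟨θ, fun _ => hθ⟩
    · exact ⟨0, fun h => absurd h hn⟩
  choose θ hθ using h
  refine ⟨θ, fun n hn => (hθ n hn).2, fun n u v => mulN n (fgood n) u v, ?_, ?_⟩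
  · apply Primrec.to_comp
    exact primrec_mulN.comp (Primrec.fst.pair ((primrec_fgood.comp Primrec.fst).pair
      Primrec.snd))
  · intro n hn u v hu hv
    refine ⟨length_mulN _ _ _ _, ?_⟩
    obtain ⟨w, hw⟩ := dvd_mulN hn (fgood_spec n).1 hv u
    have h1 := congrArg (aeval (θ n)) hw
    rw [map_mul, (hθ n hn).1, zero_mul, map_sub, sub_eq_zero, map_mul] at h1
    rw [val_eq, val_eq, val_eq, h1]

end GW628
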