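import Pool.Agent.W_MP_628faf_lc.Defs

namespace GW628

theorem zipWith_eq_map (u v : List Bool) :
    List.zipWith xor u v =
      (List.range (min u.length v.length)).map (fun i => xor (u.getD i false) (v.getD i false)) := by
  apply List.ext_getElem
  · simp
  · intro i h1 h2
    simp only [List.length_zipWith] at h1
    have hu : i < u.length := by omega
    have hv : i < v.length := by omega
    simp [hu, hv]

/-- Bitwise xor of bit strings is primitive recursive. -/
theorem primrec_zipWith_xor : Primrec₂ (fun u v : List Bool => List.zipWith xor u v) := by
  have h : Primrec₂ (fun u v : List Bool =>
      (List.range (min u.length v.length)).map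
        (fun i => xor (u.getD i false) (v.getD i false))) := by
    refine Primrec.list_map ?_ ?_
    · exact Primrec.list_range.comp (Primrec.nat_min.comp (Primrec.list_length.comp Primrec.fst)
        (Primrec.list_length.comp Primrec.snd))
    · have hx : Primrec₂ (xor : Bool → Bool → Bool) := Primrec.dom_bool₂ _
      refine hx.comp ?_ ?_
      · exact (Primrec.list_getD false).comp (Primrec.fst.comp Primrec.fst) Primrec.snd
      · exact (Primrec.list_getD false).comp (Primrec.snd.comp Primrec.fst) Primrec.snd
  exact h.of_eq fun u v => (zipWith_eq_map u v).symm

theorem primrec_replicate_false : Primrec (fun k : ℕ => List.replicate k false) := by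
  have h : Primrec (fun k : ℕ => (List.range k).map (fun _ => false)) :=
    Primrec.list_map Primrec.list_range (Primrec.const false).to₂
  exact h.of_eq fun k => by simp [List.map_const']

end GW628
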