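import Pool.Agent.W_MP_628faf_lc.Param
import Pool.Agent.W_MP_628faf_lc.Exist
import Pool.Agent.W_MP_628faf_lc.Xor

/-!
# The exhaustive search for a covering family is computable
-/

namespace GW628

open Exist

section map
variable {α β σ : Type*} [Primcodable α] [Primcodable β] [Primcodable σ]

/-- Mapping a computable function over a computable list. -/
theorem computable_list_map {f : α → List β} {g : α → β → σ} (hf : Computable f)
    (hg : Computable₂ g) : Computable fun a => (f a).map (g a) := by
  have h1 : Computable₂ fun (a : α) (p : ℕ × List σ) =>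
      (Option.casesOn ((f a)[p.1]?) p.2 (fun b => p.2 ++ [g a b]) : List σ) := by
    refine Computable.option_casesOn (o := fun q : α × ℕ × List σ => (f q.1)[q.2.1]?)
      (f := fun q : α × ℕ × List σ => q.2.2)
      (g := fun (q : α × ℕ × List σ) b => q.2.2 ++ [g q.1 b]) ?_ ?_ ?_
    · exact Computable.list_getElem?.comp (hf.comp Computable.fst)
        (Computable.fst.comp Computable.snd)
    · exact Computable.snd.comp Computable.snd
    · refine Computable.list_concat.comp ?_ ?_
      · exact Computable.snd.comp (Computable.snd.comp Computable.fst)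
      · exact hg.comp (Computable.fst.comp Computable.fst) Computable.snd
  have h2 := Computable.nat_rec (f := fun a => (f a).length) (g := fun _ : α => ([] : List σ))
    (Computable.list_length.comp hf) (Computable.const []) h1
  refine h2.of_eq fun a => ?_
  have key : ∀ k : ℕ, (Nat.rec ([] : List σ) (fun y IH =>
      (Option.casesOn ((f a)[y]?) IH (fun b => IH ++ [g a b]) : List σ)) k : List σ) =
      ((f a).take k).map (g a) := by
    intro k
    induction k with
    | zero => simp
    | succ k ih =>
      rw [List.take_add_one, List.map_append]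
      show (Option.casesOn ((f a)[k]?) _ _ : List σ) = _
      rw [ih]
      cases (f a)[k]? <;> simp
  have := key (f a).length
  rw [List.take_length] at this
  exact this
end map

/-- A family of configurations (lists of codes of lines and lists of codes of points). -/
abbrev Fam := List (List (List Bool) × List (List Bool))

/-- The code of a line in the family `fam` given by two indices. -/
def getL (fam : Fam) (q z : List Bool) : List Bool :=
  (fam.getD (numOf q) ([], [])).1.getD (numOf z) []

/-- The code of a point in the family `fam` given by two indices. -/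
def getP (fam : Fam) (q z : List Bool) : List Bool :=
  (fam.getD (numOf q) ([], [])).2.getD (numOf z) []

/-- All triples of `n`-bit strings. -/
def triples (n : ℕ) : List (List Bool × List Bool × List Bool) :=
  (allL n).flatMap fun s => (allL n).flatMap fun r => (allL n).map fun x => (s, r, x)

theorem mem_triples (n : ℕ) (t : List Bool × List Bool × List Bool) :
    t ∈ triples n ↔ t.1.length = n ∧ t.2.1.length = n ∧ t.2.2.length = n := by
  obtain ⟨s, r, x⟩ := t
  simp only [triples, List.mem_flatMap, List.mem_map, mem_allL, Prod.mk.injEq]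
  constructor
  · rintro ⟨s', hs, r', hr, x', hx, rfl, rfl, rfl⟩
    exact ⟨hs, hr, hx⟩
  · rintro ⟨hs, hr, hx⟩
    exact ⟨s, hs, r, hr, x, hx, rfl, rfl, rfl⟩

theorem primrec_triples : Primrec triples := by
  refine Primrec.list_flatMap primrec_allL ?_
  refine Primrec.list_flatMap (primrec_allL.comp Primrec.fst) ?_
  refine Primrec.list_map (primrec_allL.comp (Primrec.fst.comp Primrec.fst)) ?_
  exact Primrec.pair (Primrec.snd.comp (Primrec.fst.comp Primrec.fst))
    (Primrec.pair (Primrec.snd.comp Primrec.fst) Primrec.snd)

/-- The table of all codes of flags. -/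
def flagTab (mul : ℕ → List Bool → List Bool → List Bool) (n : ℕ) :
    List (List Bool × List Bool) :=
  (triples n).map fun t =>
    (t.1 ++ t.2.1, t.2.2 ++ List.zipWith xor (mul n t.1 t.2.2) t.2.1)

theorem computable_flagTab {mul : ℕ → List Bool → List Bool → List Bool}
    (hm : Computable fun a : ℕ × List Bool × List Bool => mul a.1 a.2.1 a.2.2) :
    Computable (flagTab mul) := by
  refine computable_list_map primrec_triples.to_comp ?_
  have h1 : Computable fun q : ℕ × (List Bool × List Bool × List Bool) => q.2.1 :=
    Computable.fst.comp Computable.snd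
  have h2 : Computable fun q : ℕ × (List Bool × List Bool × List Bool) => q.2.2.1 :=
    Computable.fst.comp (Computable.snd.comp Computable.snd)
  have h3 : Computable fun q : ℕ × (List Bool × List Bool × List Bool) => q.2.2.2 :=
    Computable.snd.comp (Computable.snd.comp Computable.snd)
  have happ : Computable₂ (fun k l : List Bool => k ++ l) := Primrec.list_append.to_comp
  have hxor : Computable₂ (fun k l : List Bool => List.zipWith xor k l) :=
    primrec_zipWith_xor.to_comp
  have hmul : Computable fun q : ℕ × (List Bool × List Bool × List Bool) =>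
      mul q.1 q.2.1 q.2.2.2 :=
    Computable.comp hm (Computable.fst.pair (h1.pair h3))
  exact Computable.pair (happ.comp h1 h2) (happ.comp h3 (hxor.comp hmul h2))

/-- The test: every flag of the table is in the family, with indices of given lengths. -/
def Test (tab : List (List Bool × List Bool)) (d : Fam × ℕ × ℕ × ℕ) : Prop :=
  ∀ f ∈ tab, ∃ q ∈ allL d.2.2.2, (∃ z ∈ allL d.2.1, getL d.1 q z = f.1) ∧
    ∃ z ∈ allL d.2.2.1, getP d.1 q z = f.2

theorem primrec_test : PrimrecRel Test := by
  have hgetD : Primrec₂ fun (l : Fam) (k : ℕ) => l.getD k ([], []) :=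
    Primrec.list_getD ([], [])
  have hgetD' : Primrec₂ fun (l : List (List Bool)) (k : ℕ) => l.getD k [] :=
    Primrec.list_getD []
  -- the innermost relations
  have r1 : PrimrecRel fun (z : List Bool) (b : Fam × List Bool × List Bool) =>
      getL b.1 b.2.1 z = b.2.2 := by
    refine Primrec.eq.comp ?_ (Primrec.snd.comp (Primrec.snd.comp Primrec.snd))
    refine hgetD'.comp (Primrec.fst.comp (hgetD.comp (Primrec.fst.comp Primrec.snd)
      (numOf_primrec.comp (Primrec.fst.comp (Primrec.snd.comp Primrec.snd)))))
      (numOf_primrec.comp Primrec.fst)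
  have r2 : PrimrecRel fun (z : List Bool) (b : Fam × List Bool × List Bool) =>
      getP b.1 b.2.1 z = b.2.2 := by
    refine Primrec.eq.comp ?_ (Primrec.snd.comp (Primrec.snd.comp Primrec.snd))
    refine hgetD'.comp (Primrec.snd.comp (hgetD.comp (Primrec.fst.comp Primrec.snd)
      (numOf_primrec.comp (Primrec.fst.comp (Primrec.snd.comp Primrec.snd)))))
      (numOf_primrec.comp Primrec.fst)
  have e1 := r1.exists_mem_list
  have e2 := r2.exists_mem_list
  have r3 : PrimrecRel fun (q : List Bool)
      (c : (Fam × ℕ × ℕ × ℕ) × (List Bool × List Bool)) =>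
      (∃ z ∈ allL c.1.2.1, getL c.1.1 q z = c.2.1) ∧
        ∃ z ∈ allL c.1.2.2.1, getP c.1.1 q z = c.2.2 := by
    have hq : Primrec fun p : List Bool × ((Fam × ℕ × ℕ × ℕ) × (List Bool × List Bool)) =>
        p.1 := Primrec.fst
    have hfam : Primrec fun p : List Bool × ((Fam × ℕ × ℕ × ℕ) × (List Bool × List Bool)) =>
        p.2.1.1 := Primrec.fst.comp (Primrec.fst.comp Primrec.snd)
    have he1 : Primrec fun p : List Bool × ((Fam × ℕ × ℕ × ℕ) × (List Bool × List Bool)) =>
        p.2.1.2.1 := Primrec.fst.comp (Primrec.snd.comp (Primrec.fst.comp Primrec.snd))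
    have he2 : Primrec fun p : List Bool × ((Fam × ℕ × ℕ × ℕ) × (List Bool × List Bool)) =>
        p.2.1.2.2.1 :=
      Primrec.fst.comp (Primrec.snd.comp (Primrec.snd.comp (Primrec.fst.comp Primrec.snd)))
    have hf1 : Primrec fun p : List Bool × ((Fam × ℕ × ℕ × ℕ) × (List Bool × List Bool)) =>
        p.2.2.1 := Primrec.fst.comp (Primrec.snd.comp Primrec.snd)
    have hf2 : Primrec fun p : List Bool × ((Fam × ℕ × ℕ × ℕ) × (List Bool × List Bool)) =>
        p.2.2.2 := Primrec.snd.comp (Primrec.snd.comp Primrec.snd)
    exact (e1.comp (primrec_allL.comp he1) (hfam.pair (hq.pair hf1))).and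
      (e2.comp (primrec_allL.comp he2) (hfam.pair (hq.pair hf2)))
  have e3 := r3.exists_mem_list
  have r4 : PrimrecRel fun (f : List Bool × List Bool) (d : Fam × ℕ × ℕ × ℕ) =>
      ∃ q ∈ allL d.2.2.2, (∃ z ∈ allL d.2.1, getL d.1 q z = f.1) ∧
        ∃ z ∈ allL d.2.2.1, getP d.1 q z = f.2 := by
    exact e3.comp (f := fun p : (List Bool × List Bool) × (Fam × ℕ × ℕ × ℕ) =>
        allL p.2.2.2.2) (g := fun p => (p.2, p.1))
      (primrec_allL.comp (Primrec.snd.comp (Primrec.snd.comp (Primrec.snd.comp Primrec.snd))))
      (Primrec.snd.pair Primrec.fst)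
  exact r4.forall_mem_list

open Classical in
/-- The Boolean test at stage `k` of the search. -/
noncomputable def testB (mul : ℕ → List Bool → List Bool → List Bool) (m : ℕ × ℕ × ℕ × ℕ)
    (k : ℕ) : Bool :=
  decide (Test (flagTab mul m.1)
    (((Encodable.decode k : Option Fam).getD []), m.2.1, m.2.2.1, m.2.2.2))

theorem computable_testB {mul : ℕ → List Bool → List Bool → List Bool}
    (hm : Computable fun a : ℕ × List Bool × List Bool => mul a.1 a.2.1 a.2.2) :
    Computable₂ (testB mul) := by
  classical
  have h0 : Primrec₂ fun (tab : List (List Bool × List Bool)) (d : Fam × ℕ × ℕ × ℕ) =>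
      decide (Test tab d) := primrec_test.decide
  have h1 : Computable₂ fun (tab : List (List Bool × List Bool)) (d : Fam × ℕ × ℕ × ℕ) =>
      decide (Test tab d) := h0.to_comp
  have hm1 : Computable fun q : (ℕ × ℕ × ℕ × ℕ) × ℕ => q.1 := Computable.fst
  have hk : Computable fun q : (ℕ × ℕ × ℕ × ℕ) × ℕ =>
      ((Encodable.decode q.2 : Option Fam).getD []) :=
    Computable.option_getD (Computable.decode.comp Computable.snd) (Computable.const [])
  have h2 := h1.comp ((computable_flagTab hm).comp (Computable.fst.comp hm1))
    (hk.pair (Computable.snd.comp hm1))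
  refine h2.of_eq fun q => ?_
  rfl

/-- The search for a family. -/
noncomputable def famSearch (mul : ℕ → List Bool → List Bool → List Bool)
    (m : ℕ × ℕ × ℕ × ℕ) : Part Fam :=
  (Nat.rfind fun k => Part.some (testB mul m k)).map
    fun k => ((Encodable.decode k : Option Fam).getD [])

theorem partrec_famSearch {mul : ℕ → List Bool → List Bool → List Bool}
    (hm : Computable fun a : ℕ × List Bool × List Bool => mul a.1 a.2.1 a.2.2) :
    Partrec (famSearch mul) := by
  have h1 : Partrec fun m : ℕ × ℕ × ℕ × ℕ => Nat.rfind fun k => Part.some (testB mul m k) :=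
    Partrec.rfind (computable_testB hm).partrec₂
  refine h1.map ?_
  exact Computable.option_getD (Computable.decode.comp Computable.snd) (Computable.const [])

theorem famSearch_spec (mul : ℕ → List Bool → List Bool → List Bool) (m : ℕ × ℕ × ℕ × ℕ)
    (h : ∃ fam : Fam, Test (flagTab mul m.1) (fam, m.2.1, m.2.2.1, m.2.2.2)) :
    ∃ fam ∈ famSearch mul m, Test (flagTab mul m.1) (fam, m.2.1, m.2.2.1, m.2.2.2) := by
  classical
  obtain ⟨fam, hfam⟩ := h
  have h1 : testB mul m (Encodable.encode fam) = true := by
    simp only [testB, Encodable.encodek, Option.getD_some, decide_eq_true_eq]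
    exact hfam
  obtain ⟨k, hk, -⟩ := Nat.rfind_min' (p := testB mul m) h1
  have h2 := Nat.rfind_spec hk
  refine ⟨(Encodable.decode k : Option Fam).getD [], Part.mem_map _ hk, ?_⟩
  have h3 : testB mul m k = true := (Part.mem_some_iff.1 h2).symm
  simpa only [testB, decide_eq_true_eq] using h3

/-- The decoder of lines. -/
noncomputable def covL (mul : ℕ → List Bool → List Bool → List Bool)
    (a : (ℕ × ℕ × ℕ × ℕ) × List Bool × List Bool) : Part (List Bool) :=
  (famSearch mul a.1).map fun fam => getL fam a.2.2 a.2.1

/-- The decoder of points. -/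
noncomputable def covP (mul : ℕ → List Bool → List Bool → List Bool)
    (a : (ℕ × ℕ × ℕ × ℕ) × List Bool × List Bool) : Part (List Bool) :=
  (famSearch mul a.1).map fun fam => getP fam a.2.2 a.2.1

theorem partrec_covL {mul : ℕ → List Bool → List Bool → List Bool}
    (hm : Computable fun a : ℕ × List Bool × List Bool => mul a.1 a.2.1 a.2.2) :
    Partrec (covL mul) := by
  have hgetD : Primrec₂ fun (l : Fam) (k : ℕ) => l.getD k ([], []) :=
    Primrec.list_getD ([], [])
  have hgetD' : Primrec₂ fun (l : List (List Bool)) (k : ℕ) => l.getD k [] :=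
    Primrec.list_getD []
  refine Partrec.map ((partrec_famSearch hm).comp Computable.fst) ?_
  have : Primrec₂ fun (a : (ℕ × ℕ × ℕ × ℕ) × List Bool × List Bool) (fam : Fam) =>
      getL fam a.2.2 a.2.1 := by
    refine hgetD'.comp (Primrec.fst.comp (hgetD.comp Primrec.snd
      (numOf_primrec.comp (Primrec.snd.comp (Primrec.snd.comp Primrec.fst)))))
      (numOf_primrec.comp (Primrec.fst.comp (Primrec.snd.comp Primrec.fst)))
  exact this.to_comp

theorem partrec_covP {mul : ℕ → List Bool → List Bool → List Bool}
    (hm : Computable fun a : ℕ × List Bool × List Bool => mul a.1 a.2.1 a.2.2) :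
    Partrec (covP mul) := by
  have hgetD : Primrec₂ fun (l : Fam) (k : ℕ) => l.getD k ([], []) :=
    Primrec.list_getD ([], [])
  have hgetD' : Primrec₂ fun (l : List (List Bool)) (k : ℕ) => l.getD k [] :=
    Primrec.list_getD []
  refine Partrec.map ((partrec_famSearch hm).comp Computable.fst) ?_
  have : Primrec₂ fun (a : (ℕ × ℕ × ℕ × ℕ) × List Bool × List Bool) (fam : Fam) =>
      getP fam a.2.2 a.2.1 := by
    refine hgetD'.comp (Primrec.snd.comp (hgetD.comp Primrec.snd
      (numOf_primrec.comp (Primrec.snd.comp (Primrec.snd.comp Primrec.fst)))))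
      (numOf_primrec.comp (Primrec.fst.comp (Primrec.snd.comp Primrec.fst)))
  exact this.to_comp

end GW628
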