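import Pool.Agent.W_MP_628faf_lc.ParamP
import Pool.Agent.W_MP_628faf_lc.Search
import Pool.Agent.W_MP_628faf_lc.Cover
import Pool.Agent.W_MP_628faf_lc.Pigeon
import Pool.Agent.W_MP_628faf_lc.Outer

open Filter

namespace GW628

variable {U : List Bool → List Bool →. List Bool} {θ : (n : ℕ) → GaloisField 2 n}

theorem getD_index {α : Type*} (l : List α) (d x : α) (hx : x ∈ l) (e : ℕ)
    (hl : l.length ≤ 2 ^ e) : ∃ z : List Bool, z.length = e ∧ l.getD (numOf z) d = x := by
  obtain ⟨i, hi, rfl⟩ := List.mem_iff_getElem.1 hx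
  refine ⟨bitsOf e i, bitsOf_length e i, ?_⟩
  rw [numOf_bitsOf e i (lt_of_lt_of_le hi hl), List.getD_eq_getElem _ _ hi]

open Classical in
/-- Existence of a family passing the test. -/
theorem exists_test (hθ : IsCoding θ) {mul : ℕ → List Bool → List Bool → List Bool}
    (hmul : ∀ n : ℕ, 1 ≤ n → ∀ u v : List Bool, u.length = n → v.length = n →
      (mul n u v).length = n ∧ val (θ n) (mul n u v) = val (θ n) u * val (θ n) v)
    {n e1 e2 e3 : ℕ} (hn : 1 ≤ n) (A B : Finset (GaloisField 2 n × GaloisField 2 n))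
    (hA : A.card ≤ 2 ^ e1) (hB : B.card ≤ 2 ^ e2)
    (l : List (Finset (GaloisField 2 n × GaloisField 2 n) ×
      Finset (GaloisField 2 n × GaloisField 2 n))) (hl : l.length ≤ 2 ^ e3)
    (hc : ∀ t ∈ l, t.1.card = A.card ∧ t.2.card = B.card)
    (hcov : ∀ s r x : GaloisField 2 n, ∃ t ∈ l, (s, r) ∈ t.1 ∧ (x, s * x + r) ∈ t.2) :
    ∃ fam : Fam, Test (flagTab mul n) (fam, e1, e2, e3) := by
  choose enc hlen hval using hθ.exists_val n hn
  let cd : GaloisField 2 n × GaloisField 2 n → List Bool := fun z => enc z.1 ++ enc z.2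
  let T : Finset (GaloisField 2 n × GaloisField 2 n) ×
      Finset (GaloisField 2 n × GaloisField 2 n) → List (List Bool) × List (List Bool) :=
    fun t => (t.1.toList.map cd, t.2.toList.map cd)
  have henc : ∀ u : List Bool, u.length = n → enc (val (θ n) u) = u := fun u hu =>
    val_inj hθ hn (hlen _) hu (hval _)
  refine ⟨l.map T, ?_⟩
  intro f hf
  simp only [flagTab, List.mem_map, mem_triples] at hf
  obtain ⟨⟨s, r, x⟩, ⟨hs, hr, hx⟩, rfl⟩ := hf
  simp only at hs hr hx
  obtain ⟨t, ht, h1, h2⟩ := hcov (val (θ n) s) (val (θ n) r) (val (θ n) x)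
  obtain ⟨q, hq, hqt⟩ := getD_index (l.map T) ([], []) (T t) (List.mem_map_of_mem ht) e3
    (by rw [List.length_map]; exact hl)
  obtain ⟨hml, hmv⟩ := hmul n hn s x hs hx
  refine ⟨q, (Exist.mem_allL _ _).2 hq, ?_, ?_⟩
  · have hmem : s ++ r ∈ t.1.toList.map cd := by
      refine List.mem_map.2 ⟨_, Finset.mem_toList.2 h1, ?_⟩
      simp only [cd]
      rw [henc s hs, henc r hr]
    obtain ⟨z, hz, hzt⟩ := getD_index (t.1.toList.map cd) [] _ hmem e1
      (by rw [List.length_map, Finset.length_toList, (hc t ht).1]; exact hA)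
    refine ⟨z, (Exist.mem_allL _ _).2 hz, ?_⟩
    show ((l.map T).getD (numOf q) ([], [])).1.getD (numOf z) [] = s ++ r
    rw [hqt]
    exact hzt
  · have hmem : x ++ List.zipWith xor (mul n s x) r ∈ t.2.toList.map cd := by
      refine List.mem_map.2 ⟨_, Finset.mem_toList.2 h2, ?_⟩
      simp only [cd]
      rw [henc x hx]
      congr 1
      refine val_inj hθ hn (hlen _) ?_ ?_
      · rw [List.length_zipWith, hml, hr, min_self]
      · rw [hval, val_zipWith_xor _ _ _ (by rw [hml, hr]), hmv]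
    obtain ⟨z, hz, hzt⟩ := getD_index (t.2.toList.map cd) [] _ hmem e2
      (by rw [List.length_map, Finset.length_toList, (hc t ht).2]; exact hB)
    refine ⟨z, (Exist.mem_allL _ _).2 hz, ?_⟩
    show ((l.map T).getD (numOf q) ([], [])).2.getD (numOf z) [] = _
    rw [hqt]
    exact hzt

/-- Incident pairs are in the table. -/
theorem mem_flagTab (hθ : IsCoding θ) {mul : ℕ → List Bool → List Bool → List Bool}
    (hmul : ∀ n : ℕ, 1 ≤ n → ∀ u v : List Bool, u.length = n → v.length = n →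
      (mul n u v).length = n ∧ val (θ n) (mul n u v) = val (θ n) u * val (θ n) v)
    {n : ℕ} (hn : 1 ≤ n) {L P : List Bool} (h : Incident θ n L P) :
    (L, P) ∈ flagTab mul n := by
  obtain ⟨hL, hP, hinc⟩ := h
  have hsl : (L.take n).length = n := by simp [hL]; omega
  have hrl : (L.drop n).length = n := by simp [hL]; omega
  have hxl : (P.take n).length = n := by simp [hP]; omega
  have hyl : (P.drop n).length = n := by simp [hP]; omega
  simp only [flagTab, List.mem_map, mem_triples]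
  refine ⟨(L.take n, L.drop n, P.take n), ⟨hsl, hrl, hxl⟩, ?_⟩
  obtain ⟨hml, hmv⟩ := hmul n hn _ _ hsl hxl
  simp only [List.take_append_drop, Prod.mk.injEq, true_and]
  have : List.zipWith xor (mul n (L.take n) (P.take n)) (L.drop n) = P.drop n := by
    refine val_inj hθ hn ?_ hyl ?_
    · rw [List.length_zipWith, hml, hrl, min_self]
    · rw [val_zipWith_xor _ _ _ (by rw [hml, hrl]), hmv, hinc]
  rw [this, List.take_append_drop]

open Classical in
/-- Configurations with many incidences put a triple into the profile. -/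
theorem inProfile_of_inc (hU : Optimal U) (hθ : IsCoding θ) {a b c C : ℝ}
    (h : ∀ᶠ n : ℕ in atTop, ∃ A B : Finset (GaloisField 2 n × GaloisField 2 n),
      (A.card : ℝ) ≤ (2 : ℝ) ^ (a * n + C * Real.logb 2 n) ∧
      (B.card : ℝ) ≤ (2 : ℝ) ^ (b * n + C * Real.logb 2 n) ∧
      (2 : ℝ) ^ ((3 - c) * n - C * Real.logb 2 n) ≤ inc A B) :
    InProfile U θ a b c := by
  obtain ⟨mul, hmc, hmul⟩ := hθ.exists_mul
  set κ : ℕ := ⌈|a| + |b| + |c| + |C| + 6⌉₊ with hκ
  have hκR : |a| + |b| + |c| + |C| + 6 ≤ κ := Nat.le_ceil _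
  obtain ⟨D1, hD1⟩ := KC_paramP hU (covL mul) (partrec_covL hmc) κ
  obtain ⟨D2, hD2⟩ := KC_paramP hU (covP mul) (partrec_covP hmc) κ
  obtain ⟨c0, hc0⟩ := KC_le_length hU
  intro _
  refine ⟨|C| + 6 + c0 + |D1| + |D2|, ?_⟩
  filter_upwards [h, hD1, hD2, eventually_ge_atTop 2] with n hn hn1 hn2 hn3 L P hLP _
  obtain ⟨A, B, hA, hB, hI⟩ := hn
  have hn0 : n ≠ 0 := by omega
  have hnR : (2 : ℝ) ≤ n := by exact_mod_cast hn3
  have hnpos : (0 : ℝ) < n := by linarith
  have hlog : (1 : ℝ) ≤ Real.logb 2 n := by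
    rw [Real.le_logb_iff_rpow_le (by norm_num) (by positivity)]
    simpa using hnR
  have hlogn : Real.logb 2 n ≤ n := by
    have h1 : (n : ℝ) < 2 ^ (n : ℝ) := by
      rw [Real.rpow_natCast]
      exact_mod_cast Nat.lt_two_pow_self
    have h2 := Real.logb_lt_logb (b := 2) (by norm_num) hnpos h1
    rw [Real.logb_rpow (by norm_num) (by norm_num)] at h2
    exact h2.le
  have hfin : Finite (GaloisField 2 n) :=
    Nat.finite_of_card_ne_zero (by rw [GaloisField.card 2 n hn0]; positivity)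
  have hcard : Nat.card (GaloisField 2 n) = 2 ^ n := GaloisField.card 2 n hn0
  have hIpos : (0 : ℝ) < inc A B := lt_of_lt_of_le (by positivity) hI
  have hIpos' : 0 < inc A B := by exact_mod_cast hIpos
  set lg := Real.logb 2 n with hlg
  -- nonnegativity of the exponents
  have hone : (1 : ℝ) ≤ inc A B := by exact_mod_cast hIpos'
  have hAB : (inc A B : ℝ) ≤ A.card * B.card := by exact_mod_cast inc_le_mul A B
  have hApos : 1 ≤ A.card := by
    by_contra hcon
    have : A.card = 0 := by omega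
    rw [this] at hAB
    simp at hAB
    linarith
  have hBpos : 1 ≤ B.card := by
    by_contra hcon
    have : B.card = 0 := by omega
    rw [this] at hAB
    simp at hAB
    linarith
  have expo : ∀ t : ℝ, (1 : ℝ) ≤ (2 : ℝ) ^ t → 0 ≤ t := by
    intro t ht
    by_contra hcon
    push Not at hcon
    have := Real.rpow_lt_one_of_one_lt_of_neg (by norm_num : (1 : ℝ) < 2) hcon
    linarith
  have hα : 0 ≤ a * n + C * lg := expo _ (le_trans (by exact_mod_cast hApos) hA)
  have hβ : 0 ≤ b * n + C * lg := expo _ (le_trans (by exact_mod_cast hBpos) hB)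
  have hcube : (inc A B : ℝ) ≤ (2 : ℝ) ^ (3 * (n : ℝ)) := by
    have h1 := inc_le_cube A B
    rw [hcard] at h1
    have h2 : (inc A B : ℝ) ≤ (((2 ^ n) ^ 3 : ℕ) : ℝ) := by exact_mod_cast h1
    refine h2.trans (le_of_eq ?_)
    rw [← pow_mul, show 3 * (n : ℝ) = ((n * 3 : ℕ) : ℝ) by push_cast; ring, Real.rpow_natCast]
    push_cast
    rfl
  have hγ : 0 ≤ c * n + C * lg := by
    have h1 := hI.trans hcube
    have h2 := (Real.rpow_le_rpow_left_iff (by norm_num : (1 : ℝ) < 2)).1 h1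
    linarith
  -- the covering family
  obtain ⟨l, hl, hlc, hcov⟩ := exists_cover A B hIpos'
  set e1 := ⌈a * n + C * lg⌉₊ with he1
  set e2 := ⌈b * n + C * lg⌉₊ with he2
  set e3 := ⌈c * n + C * lg + 4 * lg⌉₊ with he3
  have f1 : (e1 : ℝ) < a * n + C * lg + 1 := Nat.ceil_lt_add_one hα
  have f2 : (e2 : ℝ) < b * n + C * lg + 1 := Nat.ceil_lt_add_one hβ
  have f3 : (e3 : ℝ) < c * n + C * lg + 4 * lg + 1 := Nat.ceil_lt_add_one (by linarith)
  have g1 : a * n + C * lg ≤ e1 := Nat.le_ceil _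
  have g2 : b * n + C * lg ≤ e2 := Nat.le_ceil _
  have g3 : c * n + C * lg + 4 * lg ≤ e3 := Nat.le_ceil _
  have hA' : A.card ≤ 2 ^ e1 := by
    have : (A.card : ℝ) ≤ (2 : ℝ) ^ (e1 : ℝ) :=
      hA.trans (Real.rpow_le_rpow_of_exponent_le (by norm_num) g1)
    rw [Real.rpow_natCast] at this
    exact_mod_cast this
  have hB' : B.card ≤ 2 ^ e2 := by
    have : (B.card : ℝ) ≤ (2 : ℝ) ^ (e2 : ℝ) :=
      hB.trans (Real.rpow_le_rpow_of_exponent_le (by norm_num) g2)
    rw [Real.rpow_natCast] at this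
    exact_mod_cast this
  have hl' : l.length ≤ 2 ^ e3 := by
    have hn_lg : (n : ℝ) = 2 ^ lg := (Real.rpow_logb (by norm_num) (by norm_num) hnpos).symm
    have k1 : (Nat.card (GaloisField 2 n) : ℝ) ^ 3 / inc A B ≤ 2 ^ (c * n + C * lg) := by
      rw [div_le_iff₀ hIpos]
      have : (Nat.card (GaloisField 2 n) : ℝ) ^ 3 = 2 ^ (c * n + C * lg) *
          2 ^ ((3 - c) * n - C * lg) := by
        rw [← Real.rpow_add (by norm_num), hcard]
        push_cast
        rw [← pow_mul, ← Real.rpow_natCast]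
        congr 1
        push_cast
        ring
      rw [this]
      exact mul_le_mul_of_nonneg_left hI (by positivity)
    have k2 : 3 * Real.log (Nat.card (GaloisField 2 n)) ≤ 3 * n := by
      rw [hcard]
      push_cast
      rw [Real.log_pow]
      have : Real.log 2 ≤ 1 := by
        have := Real.log_two_lt_d9
        linarith
      nlinarith
    have k3 : 0 ≤ 3 * Real.log (Nat.card (GaloisField 2 n)) := by
      have : 0 ≤ Real.log (Nat.card (GaloisField 2 n)) := Real.log_natCast_nonneg _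
      linarith
    have k4 : (1 : ℝ) ≤ 2 ^ (c * n + C * lg) := Real.one_le_rpow (by norm_num) hγ
    have k5 : (l.length : ℝ) ≤ 2 ^ (c * n + C * lg) * (3 * n) + 2 := by
      refine hl.trans ?_
      have := mul_le_mul k1 k2 k3 (by positivity)
      linarith
    have k6 : (l.length : ℝ) ≤ 2 ^ (c * n + C * lg) * (n : ℝ) ^ 4 := by
      have h16 : 3 * (n : ℝ) + 2 ≤ (n : ℝ) ^ 4 := by
        have h2 : (4 : ℝ) ≤ (n : ℝ) ^ 2 := by nlinarith
        nlinarith [mul_le_mul h2 h2 (by norm_num) (by positivity)]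
      nlinarith [mul_le_mul_of_nonneg_left h16 (le_trans zero_le_one k4)]
    have k7 : (2 : ℝ) ^ (c * n + C * lg) * (n : ℝ) ^ 4 = 2 ^ (c * n + C * lg + 4 * lg) := by
      have k9 : (2 : ℝ) ^ (4 * lg) = (n : ℝ) ^ 4 := by
        rw [show (4 : ℝ) * lg = lg * ((4 : ℕ) : ℝ) by push_cast; ring,
          Real.rpow_mul (by norm_num), Real.rpow_natCast, ← hn_lg]
      rw [Real.rpow_add (by norm_num) (c * n + C * lg) (4 * lg), k9]
    have k8 : (l.length : ℝ) ≤ (2 : ℝ) ^ (e3 : ℝ) := by
      rw [k7] at k6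
      exact k6.trans (Real.rpow_le_rpow_of_exponent_le (by norm_num) g3)
    rw [Real.rpow_natCast] at k8
    exact_mod_cast k8
  obtain ⟨fam, hfam, htest⟩ := famSearch_spec mul (n, e1, e2, e3)
    (exists_test hθ hmul (by omega) A B hA' hB' l hl' hlc hcov)
  obtain ⟨q, hq, ⟨z1, hz1, hz1L⟩, ⟨z2, hz2, hz2P⟩⟩ :=
    htest (L, P) (mem_flagTab hθ hmul (by omega) hLP)
  simp only [Exist.mem_allL] at hq hz1 hz2
  simp only at hz1L hz2P
  -- bounds on the parameters
  have habs : ∀ t : ℝ, t ≤ |t| := le_abs_self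
  have hClg : C * lg ≤ |C| * n := by
    calc C * lg ≤ |C| * lg := mul_le_mul_of_nonneg_right (habs C) (by linarith)
      _ ≤ |C| * n := mul_le_mul_of_nonneg_left hlogn (abs_nonneg C)
  have hκn : (|a| + |b| + |c| + |C| + 6) * n ≤ κ * n :=
    mul_le_mul_of_nonneg_right hκR hnpos.le
  have ha0 := mul_nonneg (abs_nonneg a) hnpos.le
  have hb0 := mul_nonneg (abs_nonneg b) hnpos.le
  have hc0' := mul_nonneg (abs_nonneg c) hnpos.le
  have haa := mul_le_mul_of_nonneg_right (habs a) hnpos.le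
  have hbb := mul_le_mul_of_nonneg_right (habs b) hnpos.le
  have hcc := mul_le_mul_of_nonneg_right (habs c) hnpos.le
  have hC0 := mul_nonneg (abs_nonneg C) hnpos.le
  have p0 : n ≤ κ * n := by
    have : (n : ℝ) ≤ κ * n := by nlinarith
    exact_mod_cast this
  have p1 : e1 ≤ κ * n := by
    have : (e1 : ℝ) ≤ κ * n := by nlinarith
    exact_mod_cast this
  have p2 : e2 ≤ κ * n := by
    have : (e2 : ℝ) ≤ κ * n := by nlinarith
    exact_mod_cast this
  have p3 : e3 ≤ κ * n := by
    have : (e3 : ℝ) ≤ κ * n := by nlinarith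
    exact_mod_cast this
  have hL := hn1 (n, e1, e2, e3) p0 p1 p2 p3 z1 q L
    (by
      show L ∈ (famSearch mul (n, e1, e2, e3)).map fun fam => getL fam q z1
      rw [← hz1L]
      exact Part.mem_map (fun fam => getL fam q z1) hfam)
  have hP := hn2 (n, e1, e2, e3) p0 p1 p2 p3 z2 q P
    (by
      show P ∈ (famSearch mul (n, e1, e2, e3)).map fun fam => getP fam q z2
      rw [← hz2P]
      exact Part.mem_map (fun fam => getP fam q z2) hfam)
  rw [hz1] at hL
  rw [hz2] at hP
  have hq0 : (KC U q [] : ℝ) ≤ e3 + c0 := by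
    have := hc0 q []
    rw [hq] at this
    exact_mod_cast this
  have hc00 : (0 : ℝ) ≤ c0 := Nat.cast_nonneg _
  have hD1' : D1 * lg ≤ |D1| * lg := mul_le_mul_of_nonneg_right (habs D1) (by linarith)
  have hD2' : D2 * lg ≤ |D2| * lg := mul_le_mul_of_nonneg_right (habs D2) (by linarith)
  have hCl : C * lg ≤ |C| * lg := mul_le_mul_of_nonneg_right (habs C) (by linarith)
  have hc0l : (c0 : ℝ) ≤ c0 * lg := by nlinarith
  have n1 := mul_nonneg (abs_nonneg D1) (by linarith : (0 : ℝ) ≤ lg)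
  have n2 := mul_nonneg (abs_nonneg D2) (by linarith : (0 : ℝ) ≤ lg)
  have n3 := mul_nonneg hc00 (by linarith : (0 : ℝ) ≤ lg)
  refine ⟨q, ?_, ?_, ?_⟩
  · nlinarith
  · nlinarith
  · nlinarith

open Classical in
/-- The profile is described by the incidence exponents of the planes over `GF(2^n)`. -/
theorem inProfile_iff (hU : Optimal U) (hθ : IsCoding θ) (a b c : ℝ) :
    InProfile U θ a b c ↔ ∃ C : ℝ, ∀ᶠ n : ℕ in atTop,
      ∃ A B : Finset (GaloisField 2 n × GaloisField 2 n),
        (A.card : ℝ) ≤ (2 : ℝ) ^ (a * n + C * Real.logb 2 n) ∧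
        (B.card : ℝ) ≤ (2 : ℝ) ^ (b * n + C * Real.logb 2 n) ∧
        (2 : ℝ) ^ ((3 - c) * n - C * Real.logb 2 n) ≤ inc A B := by
  constructor
  · intro h
    obtain ⟨C, hC⟩ := exists_many_inc hU hθ h
    refine ⟨C, ?_⟩
    filter_upwards [hC] with n hn
    obtain ⟨A, B, hA, hB, hI⟩ := hn
    refine ⟨A, B, hA, hB, ?_⟩
    have h1 : (2 : ℝ) ^ (3 * (n : ℝ)) = 2 ^ (c * n + C * Real.logb 2 n) *
        2 ^ ((3 - c) * n - C * Real.logb 2 n) := by
      rw [← Real.rpow_add (by norm_num)]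
      congr 1
      ring
    rw [h1] at hI
    exact le_of_mul_le_mul_left hI (by positivity)
  · rintro ⟨C, hC⟩
    exact inProfile_of_inc hU hθ hC

end GW628
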