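import Pool.Agent.W_MP_628faf_lc.Desc
import Pool.Agent.W_MP_628faf_lc.Val

open Filter

namespace GW628

variable {U : List Bool → List Bool →. List Bool} {θ : (n : ℕ) → GaloisField 2 n}

/-- Bitwise sum of two lists (with the length of the first one). -/
def xorList (u v : List Bool) : List Bool :=
  (List.range u.length).map fun i => xor (u.getD i false) (v.getD i false)

theorem xorList_eq {u v : List Bool} (h : u.length = v.length) :
    xorList u v = List.zipWith xor u v := by
  apply List.ext_getElem
  · simp [xorList, h]
  · intro i h1 h2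
    have hi : i < u.length := by simpa [xorList] using h1
    have hi' : i < v.length := h ▸ hi
    simp [xorList, List.getElem?_eq_getElem hi, List.getElem?_eq_getElem hi']

theorem primrec_xorList : Primrec₂ xorList := by
  have hx : Primrec₂ (fun a b : Bool => xor a b) :=
    (Primrec.dom_finite (fun p : Bool × Bool => xor p.1 p.2)).to₂
  have h1 : Primrec fun p : List Bool × List Bool => List.range p.1.length :=
    Primrec.list_range.comp (Primrec.list_length.comp Primrec.fst)
  have h2 : Primrec₂ fun (p : List Bool × List Bool) (i : ℕ) =>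
      xor (p.1.getD i false) (p.2.getD i false) :=
    hx.comp₂
      ((Primrec.list_getD false).comp₂ (Primrec.fst.comp Primrec.fst).to₂ Primrec.snd.to₂)
      ((Primrec.list_getD false).comp₂ (Primrec.snd.comp Primrec.fst).to₂ Primrec.snd.to₂)
  exact (Primrec.list_map h1 h2).to₂

/-- Type of the inputs of a decoder. -/
abbrev DecIn := (ℕ × ℕ × ℕ × ℕ) × List Bool × List Bool

theorem computable_param1 : Computable fun x : DecIn => x.1.1 :=
  Computable.fst.comp Computable.fst

theorem computable_param2 : Computable fun x : DecIn => x.1.2.1 :=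
  Computable.fst.comp (Computable.snd.comp Computable.fst)

theorem computable_z : Computable fun x : DecIn => x.2.1 :=
  Computable.fst.comp Computable.snd

theorem computable_q : Computable fun x : DecIn => x.2.2 :=
  Computable.snd.comp Computable.snd

theorem Comp.take {α : Type*} [Primcodable α] {f : α → ℕ} {g : α → List Bool}
    (hf : Computable f) (hg : Computable g) : Computable fun x => (g x).take (f x) :=
  (Primrec.list_take (α := Bool)).to_comp.comp hf hg

theorem Comp.drop {α : Type*} [Primcodable α] {f : α → ℕ} {g : α → List Bool}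
    (hf : Computable f) (hg : Computable g) : Computable fun x => (g x).drop (f x) :=
  (Primrec.list_drop (α := Bool)).to_comp.comp hf hg

theorem Comp.append {α : Type*} [Primcodable α] {f : α → List Bool} {g : α → List Bool}
    (hf : Computable f) (hg : Computable g) : Computable fun x => f x ++ g x :=
  (Primrec.list_append (α := Bool)).to_comp.comp hf hg

theorem Comp.xorList {α : Type*} [Primcodable α] {f : α → List Bool} {g : α → List Bool}
    (hf : Computable f) (hg : Computable g) : Computable fun x => xorList (f x) (g x) :=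
  primrec_xorList.to_comp.comp hf hg

/-- `q` = a prefix of `L` of length `(2-a)n` and a prefix of `P` of length `(2-b)n`. -/
theorem inner_prefix (hU : Optimal U) {a b : ℝ} (ha : 0 ≤ a) (ha2 : a ≤ 2)
    (hb : 0 ≤ b) (hb2 : b ≤ 2) : InProfile U θ a b (4 - a - b) := by
  refine inProfile_of_desc hU (fun x => x.2.2.take x.1.2.1 ++ x.2.1)
    (fun x => x.2.2.drop x.1.2.1 ++ x.2.1) ?_ ?_ a b (4 - a - b) 2 ?_
  · exact Comp.append (Comp.take computable_param2 computable_q) computable_z
  · exact Comp.append (Comp.drop computable_param2 computable_q) computable_z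
  · refine Eventually.of_forall fun n L P hLP => ?_
    obtain ⟨hL, hP, -⟩ := hLP
    have hn : (0 : ℝ) ≤ n := Nat.cast_nonneg n
    set u : ℕ := ⌈(2 - a) * n⌉₊ with hu
    set v : ℕ := ⌈(2 - b) * n⌉₊ with hv
    have hu1 : (2 - a) * n ≤ u := Nat.le_ceil _
    have hv1 : (2 - b) * n ≤ v := Nat.le_ceil _
    have hu2 : (u : ℝ) ≤ (2 - a) * n + 1 :=
      (Nat.ceil_lt_add_one (mul_nonneg (by linarith) hn)).le
    have hv2 : (v : ℝ) ≤ (2 - b) * n + 1 :=
      (Nat.ceil_lt_add_one (mul_nonneg (by linarith) hn)).le
    have hu3 : u ≤ 2 * n := by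
      refine Nat.ceil_le.2 ?_
      push_cast
      nlinarith
    have hv3 : v ≤ 2 * n := by
      refine Nat.ceil_le.2 ?_
      push_cast
      nlinarith
    have htu : (L.take u).length = u := by
      rw [List.length_take, hL]; exact min_eq_left hu3
    have htv : (P.take v).length = v := by
      rw [List.length_take, hP]; exact min_eq_left hv3
    refine ⟨(n, u, 0, 0), L.take u ++ P.take v, L.drop u, P.drop v, by simp; omega, hu3,
      Nat.zero_le _, Nat.zero_le _, ?_, ?_, ?_, ?_, ?_⟩
    · rw [List.length_append, htu, htv]
      push_cast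
      linarith
    · rw [List.length_drop, hL, Nat.cast_sub hu3]
      push_cast
      linarith
    · rw [List.length_drop, hP, Nat.cast_sub hv3]
      push_cast
      linarith
    · show (L.take u ++ P.take v).take u ++ L.drop u = L
      rw [List.take_append_of_le_length (by rw [htu]), List.take_take, min_self,
        List.take_append_drop]
    · show (L.take u ++ P.take v).drop u ++ P.drop v = P
      rw [List.drop_append_of_le_length (by rw [htu]), List.drop_of_length_le (by rw [htu]),
        List.nil_append, List.take_append_drop]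

/-- Decoder of the line in `inner_mid`. -/
def midL (n u : ℕ) (z q : List Bool) : List Bool := q.take u ++ z.take (2 * n - u)

/-- Decoder of the abscissa in `inner_mid`. -/
def midX (n u : ℕ) (z q : List Bool) : List Bool := q.drop u ++ z.drop (2 * n - u)

/-- Decoder of the point in `inner_mid`. -/
def midP (mul : ℕ → List Bool → List Bool → List Bool) (n u : ℕ) (z q : List Bool) :
    List Bool :=
  midX n u z q ++ xorList (mul n ((midL n u z q).take n) (midX n u z q))
    ((midL n u z q).drop n)

theorem computable_len : Computable fun x : DecIn => 2 * x.1.1 - x.1.2.1 :=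
  Primrec.nat_sub.to_comp.comp
    (Primrec.nat_mul.to_comp.comp (Computable.const 2) computable_param1) computable_param2

theorem computable_midL : Computable fun x : DecIn => midL x.1.1 x.1.2.1 x.2.1 x.2.2 :=
  Comp.append (Comp.take computable_param2 computable_q) (Comp.take computable_len computable_z)

theorem computable_midX : Computable fun x : DecIn => midX x.1.1 x.1.2.1 x.2.1 x.2.2 :=
  Comp.append (Comp.drop computable_param2 computable_q) (Comp.drop computable_len computable_z)

theorem computable_midP1 : Computable fun x : DecIn =>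
    (x.1.1, (midL x.1.1 x.1.2.1 x.2.1 x.2.2).take x.1.1, midX x.1.1 x.1.2.1 x.2.1 x.2.2) :=
  computable_param1.pair ((Comp.take computable_param1 computable_midL).pair computable_midX)

theorem computable_midP2 (mul : ℕ → List Bool → List Bool → List Bool)
    (hmulc : Computable fun a : ℕ × List Bool × List Bool => mul a.1 a.2.1 a.2.2) :
    Computable fun x : DecIn =>
      mul x.1.1 ((midL x.1.1 x.1.2.1 x.2.1 x.2.2).take x.1.1)
        (midX x.1.1 x.1.2.1 x.2.1 x.2.2) :=
  Computable.comp (f := fun a : ℕ × List Bool × List Bool => mul a.1 a.2.1 a.2.2)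
    (g := fun x : DecIn =>
      (x.1.1, (midL x.1.1 x.1.2.1 x.2.1 x.2.2).take x.1.1, midX x.1.1 x.1.2.1 x.2.1 x.2.2))
    hmulc computable_midP1

theorem computable_midP3 (mul : ℕ → List Bool → List Bool → List Bool)
    (hmulc : Computable fun a : ℕ × List Bool × List Bool => mul a.1 a.2.1 a.2.2) :
    Computable fun x : DecIn =>
      xorList (mul x.1.1 ((midL x.1.1 x.1.2.1 x.2.1 x.2.2).take x.1.1)
        (midX x.1.1 x.1.2.1 x.2.1 x.2.2)) ((midL x.1.1 x.1.2.1 x.2.1 x.2.2).drop x.1.1) :=
  Comp.xorList (computable_midP2 mul hmulc) (Comp.drop computable_param1 computable_midL)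

theorem computable_midP (mul : ℕ → List Bool → List Bool → List Bool)
    (hmulc : Computable fun a : ℕ × List Bool × List Bool => mul a.1 a.2.1 a.2.2) :
    Computable fun x : DecIn => midP mul x.1.1 x.1.2.1 x.2.1 x.2.2 :=
  Comp.append computable_midX (computable_midP3 mul hmulc)

theorem midP_eq (hθ : IsCoding θ) {mul : ℕ → List Bool → List Bool → List Bool}
    (hmul : ∀ n : ℕ, 1 ≤ n → ∀ u v : List Bool, u.length = n → v.length = n →
      (mul n u v).length = n ∧ val (θ n) (mul n u v) = val (θ n) u * val (θ n) v)
    {n u w : ℕ} (hn1 : 1 ≤ n) (hu3 : u ≤ 2 * n) (hw3 : w ≤ n) {L P : List Bool}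
    (h : Incident θ n L P) :
    midP mul n u (L.drop u ++ (P.take n).drop w) (L.take u ++ P.take w) = P := by
  obtain ⟨hL, hP, hinc⟩ := h
  have htu : (L.take u).length = u := by
    rw [List.length_take, hL]; exact min_eq_left hu3
  have hdu : (L.drop u).length = 2 * n - u := by
    rw [List.length_drop, hL]
  have hPn : (P.take n).length = n := by
    rw [List.length_take, hP]; exact min_eq_left (by omega)
  have e1 : midL n u (L.drop u ++ (P.take n).drop w) (L.take u ++ P.take w) = L := by
    have e3 : (L.drop u).take (2 * n - u) = L.drop u := List.take_of_length_le (by rw [hdu])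
    rw [midL, List.take_append_of_le_length (by rw [htu]), List.take_take, min_self,
      List.take_append_of_le_length (by rw [hdu]), e3, List.take_append_drop]
  have e2 : midX n u (L.drop u ++ (P.take n).drop w) (L.take u ++ P.take w) = P.take n := by
    rw [midX, List.drop_append_of_le_length (by rw [htu]),
      List.drop_of_length_le (by rw [htu]),
      List.nil_append, List.drop_append_of_le_length (by rw [hdu]),
      List.drop_of_length_le (by rw [hdu]), List.nil_append]
    have : P.take w = (P.take n).take w := by
      rw [List.take_take, min_eq_left hw3]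
    rw [this, List.take_append_drop]
  rw [midP, e1, e2]
  have hLn : (L.take n).length = n := by
    rw [List.length_take, hL]; exact min_eq_left (by omega)
  have hLd : (L.drop n).length = n := by
    rw [List.length_drop, hL]; omega
  have hPd : (P.drop n).length = n := by
    rw [List.length_drop, hP]; omega
  obtain ⟨hm1, hm2⟩ := hmul n hn1 (L.take n) (P.take n) hLn hPn
  have hlen : (mul n (L.take n) (P.take n)).length = (L.drop n).length := by
    rw [hm1, hLd]
  rw [xorList_eq hlen]
  have : List.zipWith xor (mul n (L.take n) (P.take n)) (L.drop n) = P.drop n := by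
    apply val_inj hθ hn1 _ hPd
    · rw [val_zipWith_xor _ _ _ hlen, hm2, hinc]
    · rw [List.length_zipWith, hm1, hLd, min_self]
  rw [this, List.take_append_drop]

/-- `q` = a prefix of `L` of length `(2-a)n` and a prefix of the abscissa of `P` of length
`(1-b+a)n`. -/
theorem inner_mid (hU : Optimal U) (hθ : IsCoding θ) {a b : ℝ} (ha : 0 ≤ a) (ha2 : a ≤ 2)
    (hab : a ≤ b) (hba : b ≤ a + 1) : InProfile U θ a b (3 - b) := by
  obtain ⟨mul, hmulc, hmul⟩ := hθ.exists_mul
  refine inProfile_of_desc hU (fun x => x.2.2.take x.1.2.1 ++ x.2.1)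
    (fun x => midP mul x.1.1 x.1.2.1 x.2.1 x.2.2)
    (Comp.append (Comp.take computable_param2 computable_q) computable_z)
    (computable_midP mul hmulc) a b (3 - b) 2 ?_
  filter_upwards [eventually_ge_atTop 1] with n hn1 L P hLP
  have hL := hLP.1
  have hP := hLP.2.1
  have hn : (0 : ℝ) ≤ n := Nat.cast_nonneg n
  obtain ⟨u, hu⟩ : ∃ u : ℕ, u = ⌈(2 - a) * n⌉₊ := ⟨_, rfl⟩
  obtain ⟨w, hw⟩ : ∃ w : ℕ, w = ⌈(1 - b + a) * n⌉₊ := ⟨_, rfl⟩
  have hu1 : (2 - a) * n ≤ u := hu ▸ Nat.le_ceil _
  have hw1 : (1 - b + a) * n ≤ w := hw ▸ Nat.le_ceil _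
  have hu2 : (u : ℝ) ≤ (2 - a) * n + 1 :=
    hu ▸ (Nat.ceil_lt_add_one (mul_nonneg (by linarith) hn)).le
  have hw2 : (w : ℝ) ≤ (1 - b + a) * n + 1 :=
    hw ▸ (Nat.ceil_lt_add_one (mul_nonneg (by linarith) hn)).le
  have hu3 : u ≤ 2 * n := by
    rw [hu]
    refine Nat.ceil_le.2 ?_
    push_cast
    nlinarith
  have hw3 : w ≤ n := by
    rw [hw]
    refine Nat.ceil_le.2 ?_
    nlinarith
  have htu : (L.take u).length = u := by
    rw [List.length_take, hL]; exact min_eq_left hu3
  have htw : (P.take w).length = w := by
    rw [List.length_take, hP]; exact min_eq_left (by omega)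
  have hdu : (L.drop u).length = 2 * n - u := by
    rw [List.length_drop, hL]
  have hPn : (P.take n).length = n := by
    rw [List.length_take, hP]; exact min_eq_left (by omega)
  refine ⟨(n, u, 0, 0), L.take u ++ P.take w, L.drop u, L.drop u ++ (P.take n).drop w,
    by simp; omega, hu3, Nat.zero_le _, Nat.zero_le _, ?_, ?_, ?_, ?_,
    midP_eq hθ hmul hn1 hu3 hw3 hLP⟩
  · rw [List.length_append, htu, htw]
    push_cast
    linarith
  · rw [hdu, Nat.cast_sub hu3]
    push_cast
    linarith
  · rw [List.length_append, hdu, List.length_drop, hPn]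
    push_cast [Nat.cast_sub hu3, Nat.cast_sub hw3]
    linarith
  · show (L.take u ++ P.take w).take u ++ L.drop u = L
    rw [List.take_append_of_le_length (by rw [htu]), List.take_take, min_self,
      List.take_append_drop]

end GW628
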