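import Pool.Agent.W_MP_628faf_lc.Desc
import Pool.Agent.W_MP_628faf_lc.Val
import Pool.Agent.W_MP_628faf_lc.Xor

open Filter

namespace GW628

variable {U : List Bool → List Bool →. List Bool} {θ : (n : ℕ) → GaloisField 2 n}

section comp
variable {α : Type*} [Primcodable α]

theorem ctake {f : α → List Bool} {g : α → ℕ} (hf : Computable f) (hg : Computable g) :
    Computable fun a => (f a).take (g a) :=
  Computable₂.comp (f := fun (k : ℕ) (l : List Bool) => l.take k) Primrec.list_take.to_comp hg hf

theorem cdrop {f : α → List Bool} {g : α → ℕ} (hf : Computable f) (hg : Computable g) :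
    Computable fun a => (f a).drop (g a) :=
  Computable₂.comp (f := fun (k : ℕ) (l : List Bool) => l.drop k) Primrec.list_drop.to_comp hg hf

theorem cappend {f g : α → List Bool} (hf : Computable f) (hg : Computable g) :
    Computable fun a => f a ++ g a :=
  Computable₂.comp (f := fun (k l : List Bool) => k ++ l) Primrec.list_append.to_comp hf hg

theorem cxor {f g : α → List Bool} (hf : Computable f) (hg : Computable g) :
    Computable fun a => List.zipWith xor (f a) (g a) :=
  Computable₂.comp (f := fun (k l : List Bool) => List.zipWith xor k l)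
    primrec_zipWith_xor.to_comp hf hg

theorem crep {f : α → ℕ} (hf : Computable f) :
    Computable fun a => List.replicate (f a) false :=
  Computable.comp primrec_replicate_false.to_comp hf

theorem csub {f g : α → ℕ} (hf : Computable f) (hg : Computable g) :
    Computable fun a => f a - g a :=
  Computable₂.comp (f := fun (k l : ℕ) => k - l) Primrec.nat_sub.to_comp hf hg

theorem cadd {f g : α → ℕ} (hf : Computable f) (hg : Computable g) :
    Computable fun a => f a + g a :=
  Computable₂.comp (f := fun (k l : ℕ) => k + l) Primrec.nat_add.to_comp hf hg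

theorem cmul {mul : ℕ → List Bool → List Bool → List Bool}
    (hm : Computable fun a : ℕ × List Bool × List Bool => mul a.1 a.2.1 a.2.2)
    {f : α → ℕ} {g h : α → List Bool} (hf : Computable f) (hg : Computable g)
    (hh : Computable h) : Computable fun a => mul (f a) (g a) (h a) :=
  Computable.comp hm (hf.pair (hg.pair hh))
end comp

/-- The decoder of the line in the grid construction. -/
def gridL (mul : ℕ → List Bool → List Bool → List Bool)
    (a : (ℕ × ℕ × ℕ × ℕ) × List Bool × List Bool) : List Bool :=
  (a.2.1.take a.1.2.2.1 ++ (a.2.2.drop (a.1.1 - a.1.2.1)).take (a.1.1 - a.1.2.2.1)) ++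
    List.zipWith xor
      (a.2.1.drop a.1.2.2.1 ++ a.2.2.drop ((a.1.1 - a.1.2.1) + (a.1.1 - a.1.2.2.1)))
      (mul a.1.1 (a.2.1.take a.1.2.2.1 ++ List.replicate (a.1.1 - a.1.2.2.1) false)
        (List.replicate a.1.2.1 false ++ a.2.2.take (a.1.1 - a.1.2.1)))

/-- The decoder of the point in the grid construction. -/
def gridP (mul : ℕ → List Bool → List Bool → List Bool)
    (a : (ℕ × ℕ × ℕ × ℕ) × List Bool × List Bool) : List Bool :=
  (a.2.1.take a.1.2.1 ++ a.2.2.take (a.1.1 - a.1.2.1)) ++
    List.zipWith xor
      (mul a.1.1 (List.replicate a.1.2.2.1 false ++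
          (a.2.2.drop (a.1.1 - a.1.2.1)).take (a.1.1 - a.1.2.2.1))
        (a.2.1.take a.1.2.1 ++ a.2.2.take (a.1.1 - a.1.2.1)))
      (a.2.1.drop a.1.2.1 ++ a.2.2.drop ((a.1.1 - a.1.2.1) + (a.1.1 - a.1.2.2.1)))

theorem computable_gridL {mul : ℕ → List Bool → List Bool → List Bool}
    (hm : Computable fun a : ℕ × List Bool × List Bool => mul a.1 a.2.1 a.2.2) :
    Computable (gridL mul) := by
  have hn : Computable fun a : (ℕ × ℕ × ℕ × ℕ) × List Bool × List Bool => a.1.1 :=
    Computable.fst.comp Computable.fst
  have hi : Computable fun a : (ℕ × ℕ × ℕ × ℕ) × List Bool × List Bool => a.1.2.1 :=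
    Computable.fst.comp (Computable.snd.comp Computable.fst)
  have hj : Computable fun a : (ℕ × ℕ × ℕ × ℕ) × List Bool × List Bool => a.1.2.2.1 :=
    Computable.fst.comp (Computable.snd.comp (Computable.snd.comp Computable.fst))
  have hz : Computable fun a : (ℕ × ℕ × ℕ × ℕ) × List Bool × List Bool => a.2.1 :=
    Computable.fst.comp Computable.snd
  have hq : Computable fun a : (ℕ × ℕ × ℕ × ℕ) × List Bool × List Bool => a.2.2 :=
    Computable.snd.comp Computable.snd
  have hni := csub hn hi
  have hnj := csub hn hj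
  unfold gridL
  exact cappend (cappend (ctake hz hj) (ctake (cdrop hq hni) hnj))
    (cxor (cappend (cdrop hz hj) (cdrop hq (cadd hni hnj)))
      (cmul hm hn (cappend (ctake hz hj) (crep hnj)) (cappend (crep hi) (ctake hq hni))))

theorem computable_gridP {mul : ℕ → List Bool → List Bool → List Bool}
    (hm : Computable fun a : ℕ × List Bool × List Bool => mul a.1 a.2.1 a.2.2) :
    Computable (gridP mul) := by
  have hn : Computable fun a : (ℕ × ℕ × ℕ × ℕ) × List Bool × List Bool => a.1.1 :=
    Computable.fst.comp Computable.fst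
  have hi : Computable fun a : (ℕ × ℕ × ℕ × ℕ) × List Bool × List Bool => a.1.2.1 :=
    Computable.fst.comp (Computable.snd.comp Computable.fst)
  have hj : Computable fun a : (ℕ × ℕ × ℕ × ℕ) × List Bool × List Bool => a.1.2.2.1 :=
    Computable.fst.comp (Computable.snd.comp (Computable.snd.comp Computable.fst))
  have hz : Computable fun a : (ℕ × ℕ × ℕ × ℕ) × List Bool × List Bool => a.2.1 :=
    Computable.fst.comp Computable.snd
  have hq : Computable fun a : (ℕ × ℕ × ℕ × ℕ) × List Bool × List Bool => a.2.2 :=
    Computable.snd.comp Computable.snd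
  have hni := csub hn hi
  have hnj := csub hn hj
  unfold gridP
  exact cappend (cappend (ctake hz hi) (ctake hq hni))
    (cxor (cmul hm hn (cappend (crep hj) (ctake (cdrop hq hni) hnj))
      (cappend (ctake hz hi) (ctake hq hni)))
      (cappend (cdrop hz hi) (cdrop hq (cadd hni hnj))))

/-- The combinatorial core of the grid construction. -/
theorem grid_core (hθ : IsCoding θ) {mul : ℕ → List Bool → List Bool → List Bool}
    (hmul : ∀ n : ℕ, 1 ≤ n → ∀ u v : List Bool, u.length = n → v.length = n →
      (mul n u v).length = n ∧ val (θ n) (mul n u v) = val (θ n) u * val (θ n) v)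
    {n i j m : ℕ} (hn : 1 ≤ n) (hij : i + j ≤ m) (hm : m ≤ n) {L P : List Bool}
    (h : Incident θ n L P) (k : ℕ) :
    ∃ q zL zP : List Bool, q.length = (n - i) + (n - j) + (n - m) ∧ zL.length = j + m ∧
      zP.length = i + m ∧ gridL mul ((n, i, j, k), zL, q) = L ∧
      gridP mul ((n, i, j, k), zP, q) = P := by
  obtain ⟨hL, hP, hinc⟩ := h
  -- the four coordinates
  set s := L.take n with hs
  set r := L.drop n with hr
  set x := P.take n with hx
  set y := P.drop n with hy
  have hsl : s.length = n := by simp [hs, hL]; omega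
  have hrl : r.length = n := by simp [hr, hL]; omega
  have hxl : x.length = n := by simp [hx, hP]; omega
  have hyl : y.length = n := by simp [hy, hP]; omega
  have hLe : L = s ++ r := (List.take_append_drop n L).symm
  have hPe : P = x ++ y := (List.take_append_drop n P).symm
  set x0 := x.take i with hx0
  set x1 := x.drop i with hx1
  set s0 := s.take j with hs0
  set s1 := s.drop j with hs1
  have hx0l : x0.length = i := by simp [hx0, hxl]; omega
  have hx1l : x1.length = n - i := by simp [hx1, hxl]
  have hs0l : s0.length = j := by simp [hs0, hsl]; omega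
  have hs1l : s1.length = n - j := by simp [hs1, hsl]
  set X1 := List.replicate i false ++ x1 with hX1
  set S0 := s0 ++ List.replicate (n - j) false with hS0
  set S1 := List.replicate j false ++ s1 with hS1
  have hX1l : X1.length = n := by simp [hX1, hx1l]; omega
  have hS0l : S0.length = n := by simp [hS0, hs0l]; omega
  have hS1l : S1.length = n := by simp [hS1, hs1l]; omega
  obtain ⟨hml, hmv⟩ := hmul n hn S0 X1 hS0l hX1l
  set r' := List.zipWith xor r (mul n S0 X1) with hr'
  have hr'l : r'.length = n := by simp [hr', hrl, hml]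
  have hr'v : val (θ n) r' = val (θ n) r + val (θ n) S0 * val (θ n) X1 := by
    rw [hr', val_zipWith_xor _ _ _ (by rw [hrl, hml]), hmv]
  set r0 := r'.take m with hr0
  set r1 := r'.drop m with hr1
  have hr0l : r0.length = m := by simp [hr0, hr'l]; omega
  have hr1l : r1.length = n - m := by simp [hr1, hr'l]
  have hr'e : r' = r0 ++ r1 := (List.take_append_drop m r').symm
  -- the string `w`
  obtain ⟨w', hw'l, hw'v⟩ := exists_mul_low (θ n) s0 x0
  set w := List.zipWith xor (w' ++ List.replicate (m - (i + j)) false) r0 with hw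
  have hw2l : (w' ++ List.replicate (m - (i + j)) false).length = m := by
    simp [hw'l, hs0l, hx0l]; omega
  have hwl : w.length = m := by
    rw [hw, List.length_zipWith, hw2l, hr0l, min_self]
  have hwv : val (θ n) w = val (θ n) s0 * val (θ n) x0 + val (θ n) r0 := by
    rw [hw, val_zipWith_xor _ _ _ (by rw [hw2l, hr0l]), val_append, val_replicate_false, hw'v]
    ring
  refine ⟨x1 ++ s1 ++ r1, s0 ++ r0, x0 ++ w, ?_, ?_, ?_, ?_, ?_⟩
  · simp only [List.length_append, hx1l, hs1l, hr1l]
  · simp [hs0l, hr0l]
  · simp [hx0l, hwl]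
  · -- decoding the line
    have e1 : (s0 ++ r0).take j = s0 := by rw [← hs0l]; exact List.take_left
    have e2 : (s0 ++ r0).drop j = r0 := by rw [← hs0l]; exact List.drop_left
    have e3 : (x1 ++ s1 ++ r1).drop (n - i) = s1 ++ r1 := by
      rw [List.append_assoc, ← hx1l]; exact List.drop_left
    have e4 : (s1 ++ r1).take (n - j) = s1 := by rw [← hs1l]; exact List.take_left
    have e5 : (x1 ++ s1 ++ r1).drop ((n - i) + (n - j)) = r1 := by
      rw [← List.drop_drop, e3, ← hs1l]; exact List.drop_left
    have e6 : (x1 ++ s1 ++ r1).take (n - i) = x1 := by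
      rw [List.append_assoc, ← hx1l]; exact List.take_left
    simp only [gridL, e1, e2, e3, e4, e5, e6]
    rw [← hr'e, ← hS0, ← hX1, hLe]
    congr 1
    · exact List.take_append_drop j s
    · refine val_inj hθ hn ?_ hrl ?_
      · rw [List.length_zipWith, hr'l, hml, min_self]
      · rw [val_zipWith_xor _ _ _ (by rw [hr'l, hml]), hmv, hr'v, add_assoc,
          CharTwo.add_self_eq_zero, add_zero]
  · -- decoding the point
    have e1 : (x0 ++ w).take i = x0 := by rw [← hx0l]; exact List.take_left
    have e2 : (x0 ++ w).drop i = w := by rw [← hx0l]; exact List.drop_left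
    have e3 : (x1 ++ s1 ++ r1).drop (n - i) = s1 ++ r1 := by
      rw [List.append_assoc, ← hx1l]; exact List.drop_left
    have e4 : (s1 ++ r1).take (n - j) = s1 := by rw [← hs1l]; exact List.take_left
    have e5 : (x1 ++ s1 ++ r1).drop ((n - i) + (n - j)) = r1 := by
      rw [← List.drop_drop, e3, ← hs1l]; exact List.drop_left
    have e6 : (x1 ++ s1 ++ r1).take (n - i) = x1 := by
      rw [List.append_assoc, ← hx1l]; exact List.take_left
    have e7 : x0 ++ x1 = x := List.take_append_drop i x
    simp only [gridP, e1, e2, e3, e4, e5, e6, e7]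
    rw [← hS1, hPe]
    congr 1
    obtain ⟨hml2, hmv2⟩ := hmul n hn S1 x hS1l hxl
    have hwr : (w ++ r1).length = n := by simp [hwl, hr1l]; omega
    refine val_inj hθ hn ?_ hyl ?_
    · rw [List.length_zipWith, hml2, hwr, min_self]
    · rw [val_zipWith_xor _ _ _ (by rw [hml2, hwr]), hmv2, hinc]
      have v1 : val (θ n) x = val (θ n) x0 + val (θ n) X1 := by
        rw [← e7, val_append, hX1, val_append, val_replicate_false, List.length_replicate, hx0l]
        ring
      have v3 : val (θ n) S0 = val (θ n) s0 := by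
        rw [hS0, val_append, val_replicate_false]; ring
      have v5 : val (θ n) S1 = θ n ^ j * val (θ n) s1 := by
        rw [hS1, val_append, val_replicate_false, List.length_replicate]; ring
      have v6 : val (θ n) s = val (θ n) s0 + θ n ^ j * val (θ n) s1 := by
        have e : s = s0 ++ s1 := (List.take_append_drop j s).symm
        conv_lhs => rw [e, val_append, hs0l]
      have v2 : val (θ n) s = val (θ n) S0 + val (θ n) S1 := by
        rw [v6, v3, v5]
      have v4 : val (θ n) (w ++ r1) =
          val (θ n) s0 * val (θ n) x0 + val (θ n) r + val (θ n) s0 * val (θ n) X1 := by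
        have : val (θ n) r' = val (θ n) r0 + θ n ^ m * val (θ n) r1 := by
          conv_lhs => rw [hr'e, val_append, hr0l]
        rw [val_append, hwv, hwl, add_assoc, ← this, hr'v, v3]
        ring
      rw [v4, v2, v3, v1]
      ring

/-- The construction from grids of polynomials of small degree. With `x = x₀ + θ^i x₁`,
`s = s₀ + θ^j s₁` and `r + s₀ θ^i x₁ = r₀ + θ^m r₁` one takes `q = (x₁, s₁, r₁)`, where
`i = ⌊(2b-a)n/3⌋`, `j = ⌊(2a-b)n/3⌋`, `m = ⌊(a+b)n/3⌋`. -/
theorem inner_grid (hU : Optimal U) (hθ : IsCoding θ) {a b : ℝ} (hab : a ≤ 2 * b)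
    (hba : b ≤ 2 * a) (h3 : a + b ≤ 3) : InProfile U θ a b (3 - 2 * (a + b) / 3) := by
  obtain ⟨mul, hmc, hmul⟩ := hθ.exists_mul
  refine inProfile_of_desc hU (gridL mul) (gridP mul) (computable_gridL hmc)
    (computable_gridP hmc) a b (3 - 2 * (a + b) / 3) 3 ?_
  filter_upwards [eventually_ge_atTop 1] with n hn L P h
  have hnR : (1 : ℝ) ≤ n := by exact_mod_cast hn
  set i := ⌊(2 * b - a) / 3 * n⌋₊ with hi
  set j := ⌊(2 * a - b) / 3 * n⌋₊ with hj
  set m := ⌊(a + b) / 3 * n⌋₊ with hm
  have hi0 : 0 ≤ (2 * b - a) / 3 * n := by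
    apply mul_nonneg _ (by linarith)
    linarith
  have hj0 : 0 ≤ (2 * a - b) / 3 * n := by
    apply mul_nonneg _ (by linarith)
    linarith
  have hm0 : 0 ≤ (a + b) / 3 * n := by
    apply mul_nonneg _ (by linarith)
    linarith
  have i1 : (i : ℝ) ≤ (2 * b - a) / 3 * n := Nat.floor_le hi0
  have i2 : (2 * b - a) / 3 * n < i + 1 := Nat.lt_floor_add_one _
  have j1 : (j : ℝ) ≤ (2 * a - b) / 3 * n := Nat.floor_le hj0
  have j2 : (2 * a - b) / 3 * n < j + 1 := Nat.lt_floor_add_one _
  have m1 : (m : ℝ) ≤ (a + b) / 3 * n := Nat.floor_le hm0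
  have m2 : (a + b) / 3 * n < m + 1 := Nat.lt_floor_add_one _
  have hij : i + j ≤ m := by
    apply Nat.le_floor
    push_cast
    nlinarith
  have hmn : m ≤ n := by
    have : (m : ℝ) ≤ n := by
      refine m1.trans ?_
      have : (a + b) / 3 ≤ 1 := by linarith
      nlinarith
    exact_mod_cast this
  obtain ⟨q, zL, zP, hq, hzL, hzP, hdL, hdP⟩ := grid_core hθ hmul hn hij hmn h 0
  refine ⟨(n, i, j, 0), q, zL, zP, by simp; omega, by simp; omega, by simp; omega, by simp,
    ?_, ?_, ?_, hdL, hdP⟩
  · rw [hq]
    have hin : i ≤ n := by omega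
    have hjn : j ≤ n := by omega
    push_cast [Nat.cast_sub hin, Nat.cast_sub hjn, Nat.cast_sub hmn]
    nlinarith
  · rw [hzL]; push_cast; nlinarith
  · rw [hzP]; push_cast; nlinarith

end GW628
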