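import Pool.Agent.W_MP_628faf_lc.Basic
import Pool.Agent.W_MP_628faf_lc.Val

open Filter

namespace GW628

variable {U : List Bool → List Bool →. List Bool} {θ : (n : ℕ) → GaloisField 2 n}

/-- Swap the two halves of a string. -/
def swapHalves (w : List Bool) : List Bool := w.drop (w.length / 2) ++ w.take (w.length / 2)

theorem computable_swapHalves : Computable swapHalves := by
  have h : Primrec fun w : List Bool => w.length / 2 :=
    Primrec.nat_div.comp Primrec.list_length (Primrec.const 2)
  exact (Primrec.list_append.comp (Primrec.list_drop.comp h Primrec.id)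
    (Primrec.list_take.comp h Primrec.id)).to_comp

theorem swapHalves_append {u v : List Bool} (h : u.length = v.length) :
    swapHalves (u ++ v) = v ++ u := by
  have h1 : (u ++ v).length / 2 = u.length := by
    rw [List.length_append]; omega
  rw [swapHalves, h1, List.drop_left, List.take_left]

/-- The profile is symmetric in its first two coordinates. -/
theorem InProfile.symm (hU : Optimal U) {a b c : ℝ} (h : InProfile U θ a b c) :
    InProfile U θ b a c := by
  intro k
  obtain ⟨c0, hc0⟩ := KC_map hU swapHalves computable_swapHalves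
  obtain ⟨C, hC⟩ := h (k + 1)
  refine ⟨C, ?_⟩
  have hlog : ∀ᶠ n : ℕ in atTop, (c0 : ℝ) ≤ Real.logb 2 n :=
    ((Real.tendsto_logb_atTop (by norm_num)).comp
      tendsto_natCast_atTop_atTop).eventually_ge_atTop _
  filter_upwards [hC, hlog] with n hn hl L P hLP hK
  have h1 := hc0 (P ++ L) []
  rw [swapHalves_append (by rw [hLP.1, hLP.2.1])] at h1
  have h2 : (KC U (L ++ P) [] : ℝ) ≤ KC U (P ++ L) [] + c0 := by exact_mod_cast h1
  obtain ⟨q, hq1, hq2, hq3⟩ := hn P L hLP.symm (by linarith)
  exact ⟨q, hq1, hq3, hq2⟩

end GW628
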