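import Pool.Agent.W_MP_628faf_lc.Opt
import Pool.Agent.W_MP_628faf_lc.Exist
import Pool.Agent.W_MP_628faf_lc.Outer
import Pool.Agent.W_MP_628faf_lc.Sym
import Pool.Agent.W_MP_628faf_lc.InnerA
import Pool.Agent.W_MP_628faf_lc.InnerB

open Filter

namespace GW628

variable {U : List Bool → List Bool →. List Bool} {θ : (n : ℕ) → GaloisField 2 n}

theorem inner_aux (hU : Optimal U) (hθ : IsCoding θ) {a b c : ℝ} (ha : 0 ≤ a) (hb : 0 ≤ b)
    (hab : a ≤ b) (hc : 0 ≤ c) (hac : 2 ≤ a + c)
    (h : 3 ≤ c + max (max a b) (max (a + b - 1) (2 * (a + b) / 3))) :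
    InProfile U θ a b c := by
  have h2 : InProfile U θ 2 2 0 := by
    have := inner_prefix (U := U) (θ := θ) hU (a := 2) (b := 2) (by norm_num) le_rfl
      (by norm_num) le_rfl
    norm_num at this
    exact this
  rcases le_or_gt 2 a with h2a | h2a
  · exact h2.mono h2a (h2a.trans hab) hc
  rcases le_or_gt (a + 1) b with hb1 | hb1
  · have := inner_mid hU hθ (a := a) (b := a + 1) ha h2a.le (by linarith) le_rfl
    exact this.mono le_rfl hb1 (by linarith)
  rcases le_max_iff.1 (show 3 - c ≤ max (max a b) (max (a + b - 1) (2 * (a + b) / 3)) by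
    linarith) with h | h
  · rw [max_eq_right hab] at h
    have := inner_mid hU hθ (a := a) (b := b) ha h2a.le hab hb1.le
    exact this.mono le_rfl le_rfl (by linarith)
  rcases le_or_gt 2 b with hb2 | hb2
  · have := inner_prefix (θ := θ) hU (a := a) (b := 2) ha h2a.le (by norm_num) le_rfl
    exact this.mono le_rfl hb2 (by linarith)
  rcases le_max_iff.1 h with h | h
  · have := inner_prefix (θ := θ) hU (a := a) (b := b) ha h2a.le hb hb2.le
    exact this.mono le_rfl le_rfl (by linarith)
  · rcases le_or_gt (a + b) 3 with h3 | h3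
    · rcases le_or_gt b (2 * a) with hba | hba
      · have := inner_grid hU hθ (a := a) (b := b) (by linarith) hba h3
        exact this.mono le_rfl le_rfl (by linarith)
      · have := inner_mid hU hθ (a := a) (b := b) ha h2a.le hab hb1.le
        exact this.mono le_rfl le_rfl (by linarith)
    · have := inner_prefix (θ := θ) hU (a := a) (b := b) ha h2a.le hb hb2.le
      exact this.mono le_rfl le_rfl (by linarith)

/-- The inner bound. -/
theorem inner (hU : Optimal U) (hθ : IsCoding θ) {a b c : ℝ} (ha : 0 ≤ a) (hb : 0 ≤ b)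
    (hc : 0 ≤ c) (hac : 2 ≤ a + c) (hbc : 2 ≤ b + c)
    (h : 3 ≤ c + max (max a b) (max (a + b - 1) (2 * (a + b) / 3))) :
    InProfile U θ a b c := by
  rcases le_total a b with hab | hab
  · exact inner_aux hU hθ ha hb hab hc hac h
  · refine InProfile.symm hU (inner_aux hU hθ hb ha hab hc hbc ?_)
    rw [max_comm b a, add_comm b a]
    exact h

end GW628
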