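import Pool.Agent.W_MP_628faf_lc.Defs

namespace GW628

variable {U : List Bool → List Bool →. List Bool}

/-- The infimum in the definition of `KC` is attained. -/
theorem KC_spec (hU : Optimal U) (x y : List Bool) :
    ∃ p : List Bool, p.length = KC U x y ∧ x ∈ U p y := by
  obtain ⟨c, hc⟩ := hU.optimal (fun p _ => Part.some p) Computable.fst.partrec
  obtain ⟨p', -, hp'⟩ := hc x y x (Part.mem_some x)
  have hne : {k : ℕ | ∃ p : List Bool, p.length = k ∧ x ∈ U p y}.Nonempty :=
    ⟨p'.length, p', rfl, hp'⟩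
  exact Nat.sInf_mem hne

theorem KC_le_of_mem {x y p : List Bool} (h : x ∈ U p y) : KC U x y ≤ p.length :=
  Nat.sInf_le ⟨p, rfl, h⟩

/-- The finite set of bit strings of length at most `m`. -/
private def lists (m : ℕ) : Finset (List Bool) :=
  (Finset.range (m + 1)).biUnion fun i =>
    (Finset.univ : Finset (Fin i → Bool)).image List.ofFn

private theorem mem_lists {m : ℕ} {p : List Bool} (h : p.length ≤ m) : p ∈ lists m := by
  unfold lists
  rw [Finset.mem_biUnion]
  refine ⟨p.length, Finset.mem_range.mpr (by omega), ?_⟩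
  rw [Finset.mem_image]
  exact ⟨p.get, Finset.mem_univ _, List.ofFn_get p⟩

private theorem card_lists (m : ℕ) : (lists m).card ≤ 2 ^ (m + 1) := by
  unfold lists
  refine Finset.card_biUnion_le.trans ?_
  calc ∑ i ∈ Finset.range (m + 1), ((Finset.univ : Finset (Fin i → Bool)).image List.ofFn).card
      ≤ ∑ i ∈ Finset.range (m + 1), 2 ^ i := by
        refine Finset.sum_le_sum fun i _ => Finset.card_image_le.trans ?_
        simp
    _ ≤ 2 ^ (m + 1) := (Nat.geomSum_lt le_rfl (fun i hi => Finset.mem_range.mp hi)).le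

/-- At most `2^(t+1)` strings have complexity at most `t`. -/
theorem card_le (hU : Optimal U) (y : List Bool) (S : Finset (List Bool)) (t : ℝ)
    (h : ∀ x ∈ S, (KC U x y : ℝ) ≤ t) : (S.card : ℝ) ≤ (2 : ℝ) ^ (t + 1) := by
  rcases S.eq_empty_or_nonempty with rfl | ⟨x0, hx0⟩
  · simp only [Finset.card_empty, Nat.cast_zero]
    positivity
  have ht : 0 ≤ t := (Nat.cast_nonneg _).trans (h x0 hx0)
  choose f hf1 hf2 using fun x : List Bool => KC_spec hU x y
  have hcard : S.card ≤ (lists ⌊t⌋₊).card := by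
    refine Finset.card_le_card_of_injOn f ?_ ?_
    · intro x hx
      refine mem_lists ?_
      rw [hf1 x]
      exact Nat.le_floor (h x hx)
    · intro x _ x' _ hxx
      have h1 := hf2 x
      have h2 := hf2 x'
      rw [← hxx] at h2
      exact Part.mem_unique h1 h2
  calc (S.card : ℝ) ≤ ((2 ^ (⌊t⌋₊ + 1) : ℕ) : ℝ) := by
        exact_mod_cast hcard.trans (card_lists _)
    _ = (2 : ℝ) ^ ((⌊t⌋₊ : ℝ) + 1) := by
        push_cast
        rw [← Real.rpow_natCast]
        push_cast
        rfl
    _ ≤ (2 : ℝ) ^ (t + 1) := by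
        refine Real.rpow_le_rpow_of_exponent_le (by norm_num) ?_
        have := Nat.floor_le ht
        linarith

theorem KC_le_length (hU : Optimal U) :
    ∃ c : ℕ, ∀ x y : List Bool, KC U x y ≤ x.length + c := by
  obtain ⟨c, hc⟩ := hU.optimal (fun p _ => Part.some p) Computable.fst.partrec
  refine ⟨c, fun x y => ?_⟩
  obtain ⟨p', hl, hp'⟩ := hc x y x (Part.mem_some x)
  exact (KC_le_of_mem hp').trans hl

theorem KC_map (hU : Optimal U) (G : List Bool → List Bool) (hG : Computable G) :
    ∃ c : ℕ, ∀ x y : List Bool, KC U (G x) y ≤ KC U x y + c := by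
  have hV : Partrec₂ (fun p y : List Bool => (U p y).map G) := by
    have h := Partrec.map hU.partrec (hG.comp Computable.snd).to₂
    exact h
  obtain ⟨c, hc⟩ := hU.optimal _ hV
  refine ⟨c, fun x y => ?_⟩
  obtain ⟨p, hp1, hp2⟩ := KC_spec hU x y
  obtain ⟨p', hl, hp'⟩ := hc p y (G x) (Part.mem_map G hp2)
  rw [← hp1]
  exact (KC_le_of_mem hp').trans hl

end GW628
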