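import Mathlib

/-!
# Gray–Wyner profile of a random incident line–point pair (MP_628faf_lc): definitions

* `KC U x y` : plain conditional Kolmogorov complexity of `x` given `y` for the description
  method `U`;
* `Optimal U` : `U` is an optimal (universal) description method;
* `val θ u` : the value `∑ u_i θ^i` of the bit string `u`;
* `IsCoding θ` : `θ n` generates `GF(2^n)` in the sense that the `n`-bit strings code its elements
  in the basis `1, θ, …, θ^(n-1)`, and the multiplication is computable on these codes
  (uniformly in `n`);
* `Incident θ n L P` : `L` codes a non-vertical line and `P` a point of this line;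
* `InProfile U θ a b c` : `(a, b, c)` belongs to the normalised profile.
-/

namespace GW628

/-- Plain conditional complexity of `x` given `y` for the description method `U`. -/
noncomputable def KC (U : List Bool → List Bool →. List Bool) (x y : List Bool) : ℕ :=
  sInf {k : ℕ | ∃ p : List Bool, p.length = k ∧ x ∈ U p y}

/-- `U` is an optimal description method: it is partial computable, and every partial computable
description method is simulated by `U` with a constant overhead. -/
structure Optimal (U : List Bool → List Bool →. List Bool) : Prop where
  partrec : Partrec₂ U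
  optimal : ∀ V : List Bool → List Bool →. List Bool, Partrec₂ V →
    ∃ c : ℕ, ∀ p y x : List Bool, x ∈ V p y →
      ∃ p' : List Bool, p'.length ≤ p.length + c ∧ x ∈ U p' y

/-- The value `u₀ + u₁ θ + u₂ θ² + …` of a bit string `u = u₀u₁u₂…`. -/
def val {F : Type*} [Field F] (θ : F) : List Bool → F
  | [] => 0
  | b :: u => (if b then 1 else 0) + θ * val θ u

/-- `θ n` is a generator of the field with `2^n` elements for which the `n`-bit strings code
the elements of the field in the polynomial basis `1, θ, …, θ^(n-1)`, and the
multiplication of codes is computable, uniformly in `n`. -/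
structure IsCoding (θ : (n : ℕ) → GaloisField 2 n) : Prop where
  exists_val : ∀ n : ℕ, 1 ≤ n → ∀ z : GaloisField 2 n,
    ∃ u : List Bool, u.length = n ∧ val (θ n) u = z
  exists_mul : ∃ mul : ℕ → List Bool → List Bool → List Bool,
    (Computable fun a : ℕ × List Bool × List Bool => mul a.1 a.2.1 a.2.2) ∧
    ∀ n : ℕ, 1 ≤ n → ∀ u v : List Bool, u.length = n → v.length = n →
      (mul n u v).length = n ∧ val (θ n) (mul n u v) = val (θ n) u * val (θ n) v

/-- The `2n`-bit string `L = s r` codes the line `y = s x + r`, the `2n`-bit string `P = x y`
codes the point `(x, y)`, and the point lies on the line. -/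
def Incident (θ : (n : ℕ) → GaloisField 2 n) (n : ℕ) (L P : List Bool) : Prop :=
  L.length = 2 * n ∧ P.length = 2 * n ∧
    val (θ n) (P.drop n) =
      val (θ n) (L.take n) * val (θ n) (P.take n) + val (θ n) (L.drop n)

/-- `(a, b, c)` belongs to the normalised Gray–Wyner profile of random incident line–point pairs
(the complexity of the pair `(L, P)` of strings of equal length is that of the string `LP`). -/
def InProfile (U : List Bool → List Bool →. List Bool) (θ : (n : ℕ) → GaloisField 2 n)
    (a b c : ℝ) : Prop :=
  ∀ k : ℝ, ∃ C : ℝ, ∀ᶠ n : ℕ in Filter.atTop, ∀ L P : List Bool, Incident θ n L P →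
    3 * (n : ℝ) - k * Real.logb 2 n ≤ (KC U (L ++ P) [] : ℝ) →
    ∃ q : List Bool, (KC U q [] : ℝ) ≤ c * n + C * Real.logb 2 n ∧
      (KC U L q : ℝ) ≤ a * n + C * Real.logb 2 n ∧
      (KC U P q : ℝ) ≤ b * n + C * Real.logb 2 n

/-- The number of incidences between a finite set `A` of lines `y = s x + r` (coded by
`(s, r)`) and a finite set `B` of points `(x, y)`. -/
noncomputable def inc {F : Type*} [Field F] [DecidableEq F] (A B : Finset (F × F)) : ℕ :=
  ((A ×ˢ B).filter fun z => z.2.2 = z.1.1 * z.2.1 + z.1.2).card

end GW628
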