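import Pool.Agent.W_MP_628faf_lc.Param

open Filter

namespace GW628

variable {U : List Bool → List Bool →. List Bool} {θ : (n : ℕ) → GaloisField 2 n}

theorem InProfile.mono {a b c a' b' c' : ℝ} (h : InProfile U θ a b c)
    (ha : a ≤ a') (hb : b ≤ b') (hc : c ≤ c') : InProfile U θ a' b' c' := by
  intro k
  obtain ⟨C, hC⟩ := h k
  refine ⟨C, ?_⟩
  filter_upwards [hC] with n hn L P hI hK
  obtain ⟨q, h1, h2, h3⟩ := hn L P hI hK
  have hn0 : (0 : ℝ) ≤ n := Nat.cast_nonneg n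
  refine ⟨q, h1.trans ?_, h2.trans ?_, h3.trans ?_⟩ <;>
  · gcongr

/-- Explicit decoders put a triple into the profile. -/
theorem inProfile_of_desc (hU : Optimal U)
    (dL dP : (ℕ × ℕ × ℕ × ℕ) × List Bool × List Bool → List Bool)
    (hdL : Computable dL) (hdP : Computable dP) (a b c D : ℝ)
    (h : ∀ᶠ n : ℕ in atTop, ∀ L P : List Bool, Incident θ n L P →
      ∃ (m : ℕ × ℕ × ℕ × ℕ) (q zL zP : List Bool),
        m.1 ≤ 2 * n ∧ m.2.1 ≤ 2 * n ∧ m.2.2.1 ≤ 2 * n ∧ m.2.2.2 ≤ 2 * n ∧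
        (q.length : ℝ) ≤ c * n + D ∧ (zL.length : ℝ) ≤ a * n + D ∧
        (zP.length : ℝ) ≤ b * n + D ∧ dL (m, zL, q) = L ∧ dP (m, zP, q) = P) :
    InProfile U θ a b c := by
  obtain ⟨c0, hc0⟩ := KC_le_length hU
  obtain ⟨DL, hDL⟩ := KC_param hU dL hdL
  obtain ⟨DP, hDP⟩ := KC_param hU dP hdP
  intro _
  refine ⟨|D| + c0 + |DL| + |DP|, ?_⟩
  filter_upwards [h, hDL, hDP, eventually_ge_atTop 2] with n hn hL hP h2 L P hI _
  obtain ⟨m, q, zL, zP, m1, m2, m3, m4, hq, hzL, hzP, eL, eP⟩ := hn L P hI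
  have hlog : 1 ≤ Real.logb 2 n := by
    rw [Real.le_logb_iff_rpow_le (by norm_num) (by positivity)]
    rw [Real.rpow_one]
    exact_mod_cast h2
  have b1 : D ≤ |D| * Real.logb 2 n :=
    (le_abs_self D).trans (le_mul_of_one_le_right (abs_nonneg D) hlog)
  have b2 : (c0 : ℝ) ≤ c0 * Real.logb 2 n :=
    le_mul_of_one_le_right (Nat.cast_nonneg c0) hlog
  have b3 : DL * Real.logb 2 n ≤ |DL| * Real.logb 2 n :=
    mul_le_mul_of_nonneg_right (le_abs_self DL) (by linarith)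
  have b4 : DP * Real.logb 2 n ≤ |DP| * Real.logb 2 n :=
    mul_le_mul_of_nonneg_right (le_abs_self DP) (by linarith)
  have b5 : 0 ≤ |DL| * Real.logb 2 n := mul_nonneg (abs_nonneg _) (by linarith)
  have b6 : 0 ≤ |DP| * Real.logb 2 n := mul_nonneg (abs_nonneg _) (by linarith)
  have b7 : 0 ≤ (c0 : ℝ) * Real.logb 2 n := mul_nonneg (Nat.cast_nonneg _) (by linarith)
  refine ⟨q, ?_, ?_, ?_⟩
  · have h3 : (KC U q [] : ℝ) ≤ (q.length : ℝ) + c0 := by exact_mod_cast hc0 q []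
    nlinarith
  · have h3 := hL m m1 m2 m3 m4 zL q
    rw [eL] at h3
    nlinarith
  · have h3 := hP m m1 m2 m3 m4 zP q
    rw [eP] at h3
    nlinarith

end GW628
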