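import Pool.Agent.W_MP_628faf_lc.Defs

namespace GW628

/-- The universal description method: a program `1^e 0 z` runs the code number `e` on the pair
`(z, y)`. -/
def univ (p y : List Bool) : Part (List Bool) :=
  ((Denumerable.ofNat Nat.Partrec.Code (p.takeWhile id).length).eval
    (Encodable.encode ((p.dropWhile id).tail, y))).bind
      fun m => ((Encodable.decode m : Option (List Bool)) : Part (List Bool))

theorem univ_partrec : Partrec₂ univ := by
  have hid : Primrec (id : Bool → Bool) := Primrec.id
  have h1 : Computable fun a : List Bool × List Bool =>
      Denumerable.ofNat Nat.Partrec.Code (a.1.takeWhile id).length := by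
    refine (Computable.ofNat _).comp ?_
    refine Computable.list_length.comp ?_
    exact ((Primrec.list_takeWhile hid).comp Primrec.fst).to_comp
  have h2 : Computable fun a : List Bool × List Bool =>
      Encodable.encode ((a.1.dropWhile id).tail, a.2) := by
    refine Computable.encode.comp ?_
    refine Computable.pair ?_ Computable.snd
    exact (Primrec.list_tail.comp ((Primrec.list_dropWhile hid).comp Primrec.fst)).to_comp
  have h3 : Partrec fun a : List Bool × List Bool =>
      (Denumerable.ofNat Nat.Partrec.Code (a.1.takeWhile id).length).eval
        (Encodable.encode ((a.1.dropWhile id).tail, a.2)) :=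
    Nat.Partrec.Code.eval_part.comp h1 h2
  have h4 : Partrec₂ fun (_ : List Bool × List Bool) (m : ℕ) =>
      ((Encodable.decode m : Option (List Bool)) : Part (List Bool)) :=
    Computable.ofOption (Computable.decode.comp Computable.snd)
  exact Partrec.bind h3 h4

/-- There is an optimal description method. -/
theorem exists_optimal : ∃ U, Optimal U := by
  refine ⟨fun p y => univ p y, univ_partrec, ?_⟩
  intro V hV
  obtain ⟨e, he⟩ := Nat.Partrec.Code.exists_code.1 hV
  refine ⟨Encodable.encode e + 1, ?_⟩
  intro p y x hx
  refine ⟨List.replicate (Encodable.encode e) true ++ false :: p, ?_, ?_⟩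
  · simp; omega
  · have ht : (List.replicate (Encodable.encode e) true ++ false :: p).takeWhile id
        = List.replicate (Encodable.encode e) true := by
      induction (Encodable.encode e) with
      | zero => simp
      | succ k ih => simp [List.replicate_succ]
    have hd : (List.replicate (Encodable.encode e) true ++ false :: p).dropWhile id
        = false :: p := by
      induction (Encodable.encode e) with
      | zero => simp
      | succ k ih => simp [List.replicate_succ]
    have hx' : x ∈ univ (List.replicate (Encodable.encode e) true ++ false :: p) y := by
      unfold univ
      rw [ht, hd]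
      simp only [List.length_replicate, List.tail_cons, Denumerable.ofNat_encode, he]
      rw [Part.mem_bind_iff]
      refine ⟨Encodable.encode x, ?_, ?_⟩
      · rw [Part.mem_bind_iff]
        refine ⟨(p, y), by simp, ?_⟩
        exact Part.mem_map _ hx
      · simp
    exact hx'

end GW628
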