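import Pool.Agent.W_MP_628faf_lc.Basic

open Filter

namespace GW628

variable {U : List Bool → List Bool →. List Bool}

/-- The `k` lowest binary digits of `M`. -/
def bitsOf : ℕ → ℕ → List Bool
  | 0, _ => []
  | k + 1, M => decide (M % 2 = 1) :: bitsOf k (M / 2)

/-- The number with the given binary digits. -/
def numOf (w : List Bool) : ℕ := w.foldr (fun b acc => 2 * acc + cond b 1 0) 0

theorem bitsOf_length : ∀ k M : ℕ, (bitsOf k M).length = k
  | 0, _ => rfl
  | k + 1, M => by simp [bitsOf, bitsOf_length k]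

theorem numOf_bitsOf : ∀ k M : ℕ, M < 2 ^ k → numOf (bitsOf k M) = M
  | 0, M, h => by
      have : M = 0 := by simpa using h
      simp [bitsOf, numOf, this]
  | k + 1, M, h => by
      have h2 : M / 2 < 2 ^ k := by
        rw [pow_succ] at h
        omega
      have ih := numOf_bitsOf k (M / 2) h2
      have e : numOf (bitsOf (k + 1) M) =
          2 * numOf (bitsOf k (M / 2)) + cond (decide (M % 2 = 1)) 1 0 := rfl
      rw [e, ih]
      by_cases hM : M % 2 = 1
      · simp only [hM, decide_true, cond_true]
        omega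
      · simp only [hM, decide_false, cond_false]
        omega

theorem numOf_primrec : Primrec numOf := by
  have hg : Primrec₂ (fun (_ : List Bool) (x : Bool × ℕ) => 2 * x.2 + cond x.1 1 0) := by
    refine Primrec.nat_add.comp ?_ ?_
    · exact Primrec.nat_mul.comp (Primrec.const 2) (Primrec.snd.comp Primrec.snd)
    · exact Primrec.cond (Primrec.fst.comp Primrec.snd) (Primrec.const 1) (Primrec.const 0)
  have hf : Primrec (fun w : List Bool => w) := Primrec.id
  have h := Primrec.list_foldr (α := List Bool) (β := Bool) (σ := ℕ) hf (Primrec.const 0) hg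
  exact h

/-- Splits a program into a self-delimiting code of four numbers and the rest. -/
def parse (p : List Bool) : (ℕ × ℕ × ℕ × ℕ) × List Bool :=
  (Denumerable.ofNat (ℕ × ℕ × ℕ × ℕ)
      (numOf ((p.drop (p.idxOf false + 1)).take (p.idxOf false))),
    (p.drop (p.idxOf false + 1)).drop (p.idxOf false))

theorem parse_primrec : Primrec parse := by
  have h0 : Primrec₂ (@List.idxOf Bool _) := Primrec.list_idxOf
  have hi : Primrec fun p : List Bool => p.idxOf false :=
    h0.comp (Primrec.const false) Primrec.id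
  have hD : Primrec₂ (List.drop : ℕ → List Bool → List Bool) := Primrec.list_drop
  have hr : Primrec fun p : List Bool => p.drop (p.idxOf false + 1) :=
    hD.comp (Primrec.succ.comp hi) Primrec.id
  refine Primrec.pair ?_ ?_
  · exact (Primrec.ofNat (ℕ × ℕ × ℕ × ℕ)).comp
      (numOf_primrec.comp (Primrec.list_take.comp hi hr))
  · exact Primrec.list_drop.comp hi hr

theorem parse_eq (k : ℕ) (m : ℕ × ℕ × ℕ × ℕ) (z : List Bool) (hk : Encodable.encode m < 2 ^ k) :
    parse (List.replicate k true ++ false :: (bitsOf k (Encodable.encode m) ++ z)) = (m, z) := by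
  have hi : (List.replicate k true ++ false :: (bitsOf k (Encodable.encode m) ++ z)).idxOf false
      = k := by
    rw [List.idxOf_append_of_notMem (by simp)]
    simp
  have hd : (List.replicate k true ++ false :: (bitsOf k (Encodable.encode m) ++ z)).drop (k + 1)
      = bitsOf k (Encodable.encode m) ++ z := by
    rw [List.drop_append]
    simp
  unfold parse
  rw [hi, hd, List.take_append_of_le_length (by rw [bitsOf_length]),
    List.take_of_length_le (by rw [bitsOf_length]), numOf_bitsOf k _ hk,
    Denumerable.ofNat_encode]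
  congr 1
  rw [List.drop_append_of_le_length (by rw [bitsOf_length])]
  simp [List.drop_of_length_le, bitsOf_length]

theorem encode_lt {n : ℕ} (hn : 2 ≤ n) (m : ℕ × ℕ × ℕ × ℕ)
    (h1 : m.1 ≤ 2 * n) (h2 : m.2.1 ≤ 2 * n) (h3 : m.2.2.1 ≤ 2 * n) (h4 : m.2.2.2 ≤ 2 * n) :
    Encodable.encode m < n ^ 32 := by
  obtain ⟨a, b, c, d⟩ := m
  simp only at h1 h2 h3 h4
  have e : Encodable.encode (a, b, c, d) = Nat.pair a (Nat.pair b (Nat.pair c d)) := rfl
  rw [e]
  have hn1 : 1 ≤ n := by omega
  have hmono : ∀ i j : ℕ, i ≤ j → n ^ i ≤ n ^ j := fun i j hij => Nat.pow_le_pow_right hn1 hij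
  have hX : 2 * n + 1 ≤ n ^ 4 := by
    have : n ^ 4 = n * (n * (n * n)) := by ring
    have h22 : 2 * 2 ≤ n * n := Nat.mul_le_mul hn hn
    nlinarith [Nat.mul_le_mul hn h22]
  have step : ∀ (i : ℕ) (x y : ℕ), 4 ≤ i → x + 1 ≤ n ^ i → y + 1 ≤ n ^ i →
      Nat.pair x y + 1 ≤ n ^ (2 * i) := by
    intro i x y hi hx hy
    have h := Nat.pair_lt_max_add_one_sq x y
    have hmax : max x y + 1 ≤ n ^ i := by
      rcases le_total x y with hxy | hxy
      · rw [max_eq_right hxy]; exact hy
      · rw [max_eq_left hxy]; exact hx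
    have hsq : (max x y + 1) ^ 2 ≤ n ^ (2 * i) := by
      rw [mul_comm, pow_mul]
      exact Nat.pow_le_pow_left hmax 2
    omega
  have p1 := step 4 c d le_rfl (by omega) (by omega)
  have p2 := step 8 b _ (by omega) (le_trans (by omega) (hmono 4 8 (by omega))) p1
  have p3 := step 16 a _ (by omega) (le_trans (by omega) (hmono 4 16 (by omega))) p2
  have : (32 : ℕ) = 2 * 16 := rfl
  rw [this]
  omega

/-- A string computed from the condition `q`, a string `z` and four parameters `≤ 2n` has
complexity at most `|z| + O(log n)` given `q`. -/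
theorem KC_param (hU : Optimal U)
    (G : (ℕ × ℕ × ℕ × ℕ) × List Bool × List Bool → List Bool) (hG : Computable G) :
    ∃ D : ℝ, ∀ᶠ n : ℕ in atTop, ∀ m : ℕ × ℕ × ℕ × ℕ,
      m.1 ≤ 2 * n → m.2.1 ≤ 2 * n → m.2.2.1 ≤ 2 * n → m.2.2.2 ≤ 2 * n →
      ∀ z q : List Bool, (KC U (G (m, z, q)) q : ℝ) ≤ z.length + D * Real.logb 2 n := by
  obtain ⟨c, hc⟩ := hU.optimal
    (fun p y => Part.some (G ((parse p).1, (parse p).2, y))) (by
      refine Computable.partrec (f := fun a : List Bool × List Bool =>
        G ((parse a.1).1, (parse a.1).2, a.2)) ?_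
      refine hG.comp ?_
      have hp : Computable fun a : List Bool × List Bool => parse a.1 :=
        parse_primrec.to_comp.comp Computable.fst
      exact Computable.pair (Computable.fst.comp hp)
        (Computable.pair (Computable.snd.comp hp) Computable.snd))
  refine ⟨64 + (65 + c), ?_⟩
  filter_upwards [eventually_ge_atTop 2] with n hn
  intro m h1 h2 h3 h4 z q
  set s := Nat.size n with hs
  have hlt : Encodable.encode m < 2 ^ (32 * s) := by
    have h := encode_lt hn m h1 h2 h3 h4
    have hn' : n ≤ 2 ^ s := (Nat.lt_size_self n).le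
    calc Encodable.encode m < n ^ 32 := h
      _ ≤ (2 ^ s) ^ 32 := Nat.pow_le_pow_left hn' 32
      _ = 2 ^ (32 * s) := by rw [← pow_mul, mul_comm]
  set k := 32 * s with hk
  set p := List.replicate k true ++ false :: (bitsOf k (Encodable.encode m) ++ z) with hp
  have hparse : parse p = (m, z) := parse_eq k m z hlt
  obtain ⟨p', hp'len, hp'mem⟩ := hc p q (G (m, z, q)) (by
    show G (m, z, q) ∈ Part.some (G ((parse p).1, (parse p).2, q))
    rw [hparse]
    exact Part.mem_some _)
  have hKC : KC U (G (m, z, q)) q ≤ p'.length := KC_le_of_mem hp'mem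
  have hplen : p.length = 2 * k + 1 + z.length := by
    rw [hp]
    simp only [List.length_append, List.length_replicate, List.length_cons, bitsOf_length]
    ring
  have hlog : (s : ℝ) ≤ Real.logb 2 n + 1 := by
    have hs1 : 1 ≤ s := by
      rw [hs]
      have : 0 < Nat.size n := Nat.size_pos.mpr (by omega)
      exact this
    have h2s : 2 ^ (s - 1) ≤ n := by
      have : s - 1 < Nat.size n := by omega
      exact Nat.lt_size.mp this
    have h2s' : (2 : ℝ) ^ (s - 1) ≤ n := by exact_mod_cast h2s
    have hl : ((s - 1 : ℕ) : ℝ) ≤ Real.logb 2 n := by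
      rw [Real.le_logb_iff_rpow_le (by norm_num) (by positivity), Real.rpow_natCast]
      exact h2s'
    rw [Nat.cast_sub hs1] at hl
    push_cast at hl
    linarith
  have hlog1 : (1 : ℝ) ≤ Real.logb 2 n := by
    rw [Real.le_logb_iff_rpow_le (by norm_num) (by positivity), Real.rpow_one]
    exact_mod_cast hn
  have hfin : (KC U (G (m, z, q)) q : ℝ) ≤ 2 * (32 * (s : ℝ)) + 1 + z.length + c := by
    have : KC U (G (m, z, q)) q ≤ 2 * (32 * s) + 1 + z.length + c := by
      rw [← hk]
      omega
    exact_mod_cast this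
  have hc0 : (0 : ℝ) ≤ (c : ℝ) := Nat.cast_nonneg c
  nlinarith [mul_le_mul_of_nonneg_left hlog1 hc0]

end GW628
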