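import Pool.Agent.W_MP_628faf_lc.Param

open Filter

namespace GW628

variable {U : List Bool → List Bool →. List Bool}

/-- Version of `KC_param` for partial computable decoders and parameters `≤ κ n`. -/
theorem KC_paramP (hU : Optimal U)
    (G : (ℕ × ℕ × ℕ × ℕ) × List Bool × List Bool →. List Bool) (hG : Partrec G) (κ : ℕ) :
    ∃ D : ℝ, ∀ᶠ n : ℕ in atTop, ∀ m : ℕ × ℕ × ℕ × ℕ,
      m.1 ≤ κ * n → m.2.1 ≤ κ * n → m.2.2.1 ≤ κ * n → m.2.2.2 ≤ κ * n →
      ∀ z q x : List Bool, x ∈ G (m, z, q) →
        (KC U x q : ℝ) ≤ z.length + D * Real.logb 2 n := by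
  obtain ⟨c, hc⟩ := hU.optimal
    (fun p y => G ((parse p).1, (parse p).2, y)) (by
      refine Partrec.comp (f := G) (g := fun a : List Bool × List Bool =>
        ((parse a.1).1, (parse a.1).2, a.2)) hG ?_
      have hp : Computable fun a : List Bool × List Bool => parse a.1 :=
        parse_primrec.to_comp.comp Computable.fst
      exact Computable.pair (Computable.fst.comp hp)
        (Computable.pair (Computable.snd.comp hp) Computable.snd))
  refine ⟨64 * (Nat.size (κ + 1) + 1) + (65 + c), ?_⟩
  filter_upwards [eventually_ge_atTop 2] with n hn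
  intro m h1 h2 h3 h4 z q x hx
  set N := (κ + 1) * n with hN
  have hN2 : 2 ≤ N := by
    rw [hN]
    nlinarith
  have hle : κ * n ≤ 2 * N := by
    rw [hN]
    nlinarith
  set s := Nat.size n with hs
  set t := Nat.size (κ + 1) with ht
  have hlt : Encodable.encode m < 2 ^ (32 * (t + s)) := by
    have h := encode_lt hN2 m (h1.trans hle) (h2.trans hle) (h3.trans hle) (h4.trans hle)
    have hn' : N ≤ 2 ^ (t + s) := by
      rw [hN, pow_add]
      exact Nat.mul_le_mul (Nat.lt_size_self _).le (Nat.lt_size_self n).le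
    calc Encodable.encode m < N ^ 32 := h
      _ ≤ (2 ^ (t + s)) ^ 32 := Nat.pow_le_pow_left hn' 32
      _ = 2 ^ (32 * (t + s)) := by rw [← pow_mul, mul_comm]
  set k := 32 * (t + s) with hk
  set p := List.replicate k true ++ false :: (bitsOf k (Encodable.encode m) ++ z) with hp
  have hparse : parse p = (m, z) := parse_eq k m z hlt
  obtain ⟨p', hp'len, hp'mem⟩ := hc p q x (by
    show x ∈ G ((parse p).1, (parse p).2, q)
    rw [hparse]
    exact hx)
  have hKC : KC U x q ≤ p'.length := KC_le_of_mem hp'mem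
  have hplen : p.length = 2 * k + 1 + z.length := by
    rw [hp]
    simp only [List.length_append, List.length_replicate, List.length_cons, bitsOf_length]
    ring
  have hlog : (s : ℝ) ≤ Real.logb 2 n + 1 := by
    have hs1 : 1 ≤ s := by
      rw [hs]
      have : 0 < Nat.size n := Nat.size_pos.mpr (by omega)
      exact this
    have h2s : 2 ^ (s - 1) ≤ n := by
      have : s - 1 < Nat.size n := by omega
      exact Nat.lt_size.mp this
    have h2s' : (2 : ℝ) ^ (s - 1) ≤ n := by exact_mod_cast h2s
    have hl : ((s - 1 : ℕ) : ℝ) ≤ Real.logb 2 n := by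
      rw [Real.le_logb_iff_rpow_le (by norm_num) (by positivity), Real.rpow_natCast]
      exact h2s'
    rw [Nat.cast_sub hs1] at hl
    push_cast at hl
    linarith
  have hlog1 : (1 : ℝ) ≤ Real.logb 2 n := by
    rw [Real.le_logb_iff_rpow_le (by norm_num) (by positivity), Real.rpow_one]
    exact_mod_cast hn
  have hfin : (KC U x q : ℝ) ≤ 2 * (32 * ((t : ℝ) + s)) + 1 + z.length + c := by
    have : KC U x q ≤ 2 * (32 * (t + s)) + 1 + z.length + c := by
      rw [← hk]
      omega
    exact_mod_cast this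
  have hc0 : (0 : ℝ) ≤ (c : ℝ) := Nat.cast_nonneg c
  have ht0 : (0 : ℝ) ≤ (t : ℝ) := Nat.cast_nonneg t
  nlinarith [mul_le_mul_of_nonneg_left hlog1 hc0, mul_le_mul_of_nonneg_left hlog1 ht0]

end GW628
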